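import Mathlib

/-!
# Quasirandom log-limits: definitions and the exponent `M`
-/

open Finset Classical

namespace Pool.Agent.R667.QL

/-- A finite bipartite graph with labelled vertex classes: `cls x = true` for the vertices of the
first class, `cls x = false` for those of the second class. -/
structure BG where
  V : Type
  [fin : Fintype V]
  cls : V → Bool
  adj : V → V → Prop
  symm : ∀ x y, adj x y → adj y x
  bip : ∀ x y, adj x y → cls x ≠ cls y

attribute [instance] BG.fin

/-- Homomorphisms preserve the classes and the edges. -/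
def IsHom (H G : BG) (φ : H.V → G.V) : Prop :=
  (∀ x, G.cls (φ x) = H.cls x) ∧ ∀ x y, H.adj x y → G.adj (φ x) (φ y)

/-- The number of homomorphisms. -/
noncomputable def hom (H G : BG) : ℕ := Nat.card {φ : H.V → G.V // IsHom H G φ}

/-- The number of vertices in a class. -/
noncomputable def classCard (G : BG) (b : Bool) : ℕ := Nat.card {x : G.V // G.cls x = b}

/-- The edges, as pairs (vertex of the first class, vertex of the second class). -/
def edges (G : BG) : Set (G.V × G.V) := {p | G.cls p.1 = true ∧ G.adj p.1 p.2}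

noncomputable def numEdges (G : BG) : ℕ := Nat.card (edges G)

/-- The homomorphism density `t_B(H, G)`. -/
noncomputable def tB (H G : BG) : ℝ :=
  (hom H G : ℝ) / ((classCard G true : ℝ) ^ classCard H true * (classCard G false : ℝ) ^ classCard H false)

/-- The single edge. -/
def K2 : BG where
  V := Bool
  cls := id
  adj := fun x y => x ≠ y
  symm := fun _ _ h => h.symm
  bip := fun _ _ h => h

/-- `h(H, G)`; if `G` is complete bipartite this is the number of edges of `H`. -/
noncomputable def hh (H G : BG) : ℝ :=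
  if ∀ x y, G.cls x ≠ G.cls y → G.adj x y then (numEdges H : ℝ)
  else Real.log (tB H G) / Real.log (tB K2 G)

/-- `H'` is a collapse of `H`: there is a homomorphism onto `H'`, on vertices and on edges. -/
def IsCollapse (H H' : BG) : Prop :=
  ∃ φ : H.V → H'.V, IsHom H H' φ ∧ Function.Surjective φ ∧
    ∀ p ∈ edges H', ∃ p0 ∈ edges H, (φ p0.1, φ p0.2) = p

/-- `r(H) = min (|E(H')| + 2 (|V(H)| - |V(H')|))` over the collapses `H'` of `H`. -/
noncomputable def r (H : BG) : ℕ :=
  sInf {k | ∃ H' : BG, IsCollapse H H' ∧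
    k = numEdges H' + 2 * (Fintype.card H.V - Fintype.card H'.V)}

/-- The quasirandom log-limit. -/
def LogLimit (G : ℕ → BG) : Prop :=
  ∀ H : BG, (edges H).Nonempty → Filter.Tendsto (fun n => hh H (G n)) Filter.atTop (nhds (r H : ℝ))

/-- The spectrum: the multiset of eigenvalues (roots of the characteristic polynomial) of the
adjacency matrix. -/
noncomputable def spectrum (G : BG) : Multiset ℝ :=
  (Matrix.charpoly (Matrix.of fun x y : G.V => if G.adj x y then (1 : ℝ) else 0)).roots

/-! ### The exponent `M` -/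

/-- Edges inside `S`. -/
noncomputable def Ed (H : BG) (S : Finset H.V) : Finset (H.V × H.V) :=
  univ.filter fun p => p.1 ∈ S ∧ p.2 ∈ S ∧ H.cls p.1 = true ∧ H.adj p.1 p.2

theorem mem_Ed {H : BG} {S : Finset H.V} {p : H.V × H.V} :
    p ∈ Ed H S ↔ p.1 ∈ S ∧ p.2 ∈ S ∧ H.cls p.1 = true ∧ H.adj p.1 p.2 := by
  simp [Ed]

noncomputable def M (H : BG) (S : Finset H.V) : ℕ :=
  (univ.filter (fun ρ : H.V → H.V => (∀ x, H.cls (ρ x) = H.cls x) ∧ ∀ x ∈ S, ρ x ∈ S)).sup
    (fun ρ => 2 * (S.image ρ).card - ((Ed H S).image (Prod.map ρ ρ)).card)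

theorem M_ge {H : BG} {S : Finset H.V} {X : Type} [DecidableEq X] (f : H.V → X)
    (hf : ∀ x ∈ S, ∀ y ∈ S, f x = f y → H.cls x = H.cls y) :
    2 * (S.image f).card ≤ M H S + ((Ed H S).image (Prod.map f f)).card := by
  rcases isEmpty_or_nonempty H.V with he | ⟨⟨x0⟩⟩
  · have : S = ∅ := by
      ext x; exact (he.false x).elim
    rw [this]; simp
  let σ : X → H.V := fun y => if h : ∃ z ∈ S, f z = y then h.choose else x0
  have hσ : ∀ x ∈ S, σ (f x) ∈ S ∧ f (σ (f x)) = f x := by
    intro x hx
    have h : ∃ z ∈ S, f z = f x := ⟨x, hx, rfl⟩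
    have e : σ (f x) = h.choose := dif_pos h
    rw [e]
    exact h.choose_spec
  let ρ : H.V → H.V := fun x => if x ∈ S then σ (f x) else x
  have hρ : ∀ x ∈ S, ρ x = σ (f x) := fun x hx => if_pos hx
  have hmem : ρ ∈ univ.filter (fun ρ : H.V → H.V => (∀ x, H.cls (ρ x) = H.cls x) ∧ ∀ x ∈ S, ρ x ∈ S) := by
    rw [mem_filter]
    refine ⟨mem_univ _, ?_, ?_⟩
    · intro x
      by_cases hx : x ∈ S
      · rw [hρ x hx]
        exact hf _ (hσ x hx).1 _ hx (hσ x hx).2
      · rw [show ρ x = x from if_neg hx]
    · intro x hx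
      rw [hρ x hx]
      exact (hσ x hx).1
  have h1 := le_sup (f := fun ρ : H.V → H.V =>
    2 * (S.image ρ).card - ((Ed H S).image (Prod.map ρ ρ)).card) hmem
  have h2 : (S.image f).card ≤ (S.image ρ).card := by
    have : S.image f = (S.image ρ).image f := by
      rw [image_image]
      refine image_congr fun x hx => ?_
      have hx' : x ∈ S := hx
      simp only [Function.comp]
      rw [hρ x hx', (hσ x hx').2]
    rw [this]
    exact card_image_le
  have h3 : ((Ed H S).image (Prod.map ρ ρ)).card ≤ ((Ed H S).image (Prod.map f f)).card := by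
    have : (Ed H S).image (Prod.map ρ ρ) = ((Ed H S).image (Prod.map f f)).image (Prod.map σ σ) := by
      rw [image_image]
      refine image_congr fun p hp => ?_
      have hp' := mem_Ed.1 hp
      simp only [Function.comp, Prod.map]
      rw [hρ _ hp'.1, hρ _ hp'.2.1]
    rw [this]
    exact card_image_le
  change 2 * (S.image ρ).card - ((Ed H S).image (Prod.map ρ ρ)).card ≤ M H S at h1
  omega

theorem M_low {H : BG} {S : Finset H.V} (hS : S.Nonempty) : S.card + 2 ≤ 2 * M H S := by
  let f : Bool → H.V → Option H.V := fun b x => if H.cls x = b then none else some x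
  have hf : ∀ b, ∀ x ∈ S, ∀ y ∈ S, f b x = f b y → H.cls x = H.cls y := by
    intro b x _ y _ h
    simp only [f] at h
    split_ifs at h with h1 h2 h2
    · rw [h1, h2]
    · rw [Option.some.inj h]
  have key : ∀ b, 2 * ((S.filter (fun x => H.cls x ≠ b)).card +
      (if (S.filter (fun x => H.cls x = b)).Nonempty then 1 else 0)) ≤
      M H S + (S.filter (fun x => H.cls x ≠ b)).card := by
    intro b
    have h := M_ge (f b) (hf b)
    have h1 : (S.filter (fun x => H.cls x ≠ b)).card +
        (if (S.filter (fun x => H.cls x = b)).Nonempty then 1 else 0) ≤ (S.image (f b)).card := by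
      have hsub : (S.filter (fun x => H.cls x ≠ b)).image some ⊆ S.image (f b) := by
        intro y hy
        rw [mem_image] at hy ⊢
        obtain ⟨x, hx, rfl⟩ := hy
        rw [mem_filter] at hx
        exact ⟨x, hx.1, if_neg hx.2⟩
      have hc : ((S.filter (fun x => H.cls x ≠ b)).image some).card =
          (S.filter (fun x => H.cls x ≠ b)).card :=
        card_image_of_injective _ (Option.some_injective _)
      split_ifs with hne
      · obtain ⟨x, hx⟩ := hne
        rw [mem_filter] at hx
        have h2 : insert none ((S.filter (fun x => H.cls x ≠ b)).image some) ⊆ S.image (f b) := by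
          refine insert_subset ?_ hsub
          rw [mem_image]
          exact ⟨x, hx.1, if_pos hx.2⟩
        have h3 := card_le_card h2
        rw [card_insert_of_notMem (by simp), hc] at h3
        exact h3
      · rw [add_zero, ← hc]
        exact card_le_card hsub
    have h2 : ((Ed H S).image (Prod.map (f b) (f b))).card ≤
        (S.filter (fun x => H.cls x ≠ b)).card := by
      cases b
      · have : (Ed H S).image (Prod.map (f false) (f false)) ⊆
            (S.filter (fun x => H.cls x ≠ false)).image (fun x => (some x, none)) := by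
          intro p hp
          rw [mem_image] at hp ⊢
          obtain ⟨e, he, rfl⟩ := hp
          rw [mem_Ed] at he
          have hb := H.bip _ _ he.2.2.2
          have e2 : H.cls e.2 = false := by
            rw [he.2.2.1] at hb
            cases h : H.cls e.2
            · rfl
            · exact absurd h.symm hb
          refine ⟨e.1, by simp [he.1, he.2.2.1], ?_⟩
          simp [f, Prod.map, he.2.2.1, e2]
        exact (card_le_card this).trans card_image_le
      · have : (Ed H S).image (Prod.map (f true) (f true)) ⊆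
            (S.filter (fun x => H.cls x ≠ true)).image (fun x => (none, some x)) := by
          intro p hp
          rw [mem_image] at hp ⊢
          obtain ⟨e, he, rfl⟩ := hp
          rw [mem_Ed] at he
          have hb := H.bip _ _ he.2.2.2
          have e2 : H.cls e.2 = false := by
            rw [he.2.2.1] at hb
            cases h : H.cls e.2
            · rfl
            · exact absurd h.symm hb
          refine ⟨e.2, by simp [he.2.1, e2], ?_⟩
          simp [f, Prod.map, he.2.2.1, e2]
        exact (card_le_card this).trans card_image_le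
    omega
  have ht := key true
  have hff := key false
  have hsum : S.card = (S.filter (fun x => H.cls x = true)).card +
      (S.filter (fun x => H.cls x ≠ true)).card := (card_filter_add_card_filter_not _).symm
  have e1 : S.filter (fun x => H.cls x ≠ true) = S.filter (fun x => H.cls x = false) := by
    refine filter_congr fun x _ => ?_
    simp
  have e2 : S.filter (fun x => H.cls x ≠ false) = S.filter (fun x => H.cls x = true) := by
    refine filter_congr fun x _ => ?_
    simp
  rw [e1] at ht hsum
  rw [e2] at hff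
  have hn : 0 < S.card := card_pos.2 hS
  by_cases h1 : (S.filter (fun x => H.cls x = true)).Nonempty
  · rw [if_pos h1] at ht
    omega
  · rw [not_nonempty_iff_eq_empty] at h1
    rw [h1] at hsum hff
    simp only [card_empty] at hsum hff
    have h2 : (S.filter (fun x => H.cls x = false)).Nonempty := by
      rw [← card_pos]; omega
    rw [if_pos h2] at hff
    omega

theorem M_exists (H : BG) (S : Finset H.V) : ∃ ρ : H.V → H.V, (∀ x, H.cls (ρ x) = H.cls x) ∧
    (∀ x ∈ S, ρ x ∈ S) ∧
    2 * (S.image ρ).card = M H S + ((Ed H S).image (Prod.map ρ ρ)).card := by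
  rcases Nat.eq_zero_or_pos (M H S) with h0 | hpos
  · have hS : S = ∅ := by
      by_contra h
      have := M_low (nonempty_iff_ne_empty.2 h)
      omega
    refine ⟨id, fun _ => rfl, fun x hx => hx, ?_⟩
    rw [h0]
    subst hS
    have : Ed H ∅ = ∅ := by
      ext p; simp [Ed]
    simp [this]
  · have hne : (univ.filter (fun ρ : H.V → H.V => (∀ x, H.cls (ρ x) = H.cls x) ∧
        ∀ x ∈ S, ρ x ∈ S)).Nonempty := ⟨id, by simp⟩
    obtain ⟨ρ, hρ, h⟩ := exists_mem_eq_sup _ hne (fun ρ : H.V → H.V =>
      2 * (S.image ρ).card - ((Ed H S).image (Prod.map ρ ρ)).card)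
    rw [mem_filter] at hρ
    refine ⟨ρ, hρ.2.1, hρ.2.2, ?_⟩
    change M H S = _ at h
    omega

/-- No edge between `S` and `T`. -/
def NoEdge (H : BG) (S T : Finset H.V) : Prop := ∀ x ∈ S, ∀ y ∈ T, ¬ H.adj x y

theorem Ed_union {H : BG} {S T : Finset H.V} (h : NoEdge H S T) :
    Ed H (S ∪ T) = Ed H S ∪ Ed H T := by
  ext p
  rw [mem_union, mem_Ed, mem_Ed, mem_Ed, mem_union, mem_union]
  constructor
  · rintro ⟨h1 | h1, h2 | h2, h3, h4⟩
    · exact Or.inl ⟨h1, h2, h3, h4⟩
    · exact absurd h4 (h _ h1 _ h2)
    · exact absurd (H.symm _ _ h4) (h _ h2 _ h1)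
    · exact Or.inr ⟨h1, h2, h3, h4⟩
  · rintro (⟨h1, h2, h3, h4⟩ | ⟨h1, h2, h3, h4⟩)
    · exact ⟨Or.inl h1, Or.inl h2, h3, h4⟩
    · exact ⟨Or.inr h1, Or.inr h2, h3, h4⟩

theorem M_add {H : BG} {S T : Finset H.V} (hd : Disjoint S T) (h : NoEdge H S T) :
    M H S + M H T ≤ M H (S ∪ T) := by
  obtain ⟨a, ha1, ha2, ha3⟩ := M_exists H S
  obtain ⟨b, hb1, hb2, hb3⟩ := M_exists H T
  let f : H.V → H.V := fun x => if x ∈ S then a x else b x
  have hfS : ∀ x ∈ S, f x = a x := fun x hx => if_pos hx
  have hfT : ∀ x ∈ T, f x = b x := fun x hx => if_neg (disjoint_right.1 hd hx)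
  have hcls : ∀ x, H.cls (f x) = H.cls x := by
    intro x
    by_cases hx : x ∈ S
    · rw [hfS x hx, ha1]
    · rw [show f x = b x from if_neg hx, hb1]
  have h1 := M_ge (S := S ∪ T) f (fun x _ y _ hxy => by rw [← hcls x, ← hcls y, hxy])
  have e1 : (S ∪ T).image f = S.image a ∪ T.image b := by
    rw [image_union]
    congr 1
    · exact image_congr fun x hx => hfS x hx
    · exact image_congr fun x hx => hfT x hx
  have e2 : (S.image a ∪ T.image b).card = (S.image a).card + (T.image b).card := by
    refine card_union_of_disjoint ?_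
    rw [disjoint_left]
    intro x hx hy
    rw [mem_image] at hx hy
    obtain ⟨u, hu, rfl⟩ := hx
    obtain ⟨w, hw, hw2⟩ := hy
    refine disjoint_left.1 hd (ha2 u hu) ?_
    rw [← hw2]
    exact hb2 w hw
  have e3 : (Ed H (S ∪ T)).image (Prod.map f f) =
      (Ed H S).image (Prod.map a a) ∪ (Ed H T).image (Prod.map b b) := by
    rw [Ed_union h, image_union]
    congr 1
    · refine image_congr fun p hp => ?_
      have hp' := mem_Ed.1 hp
      simp only [Prod.map, hfS _ hp'.1, hfS _ hp'.2.1]
    · refine image_congr fun p hp => ?_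
      have hp' := mem_Ed.1 hp
      simp only [Prod.map, hfT _ hp'.1, hfT _ hp'.2.1]
  have e4 := card_union_le ((Ed H S).image (Prod.map a a)) ((Ed H T).image (Prod.map b b))
  rw [e1, e2, e3] at h1
  omega

/-- Number of vertices of `F` with a neighbour in `Q`. -/
noncomputable def att (H : BG) (F Q : Finset H.V) : ℕ := (F.filter fun x => ∃ z ∈ Q, H.adj z x).card

theorem M_forest {H : BG} {F Z : Finset H.V} (hd : Disjoint F Z) :
    2 * F.card ≤ M H (F ∪ Z) + (Ed H F).card + att H F Z := by
  let f : H.V → Option H.V × Bool := fun x => (if x ∈ Z then none else some x, H.cls x)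
  have hfF : ∀ x ∈ F, f x = (some x, H.cls x) := fun x hx => by
    simp only [f, if_neg (disjoint_left.1 hd hx)]
  have hfZ : ∀ x ∈ Z, f x = (none, H.cls x) := fun x hx => by
    simp only [f, if_pos hx]
  have h1 := M_ge (S := F ∪ Z) f (fun x _ y _ hxy => congrArg Prod.snd hxy)
  have hF : (F.image f).card = F.card := by
    refine card_image_of_injOn fun x hx y hy hxy => ?_
    rw [hfF x hx, hfF y hy] at hxy
    exact Option.some.inj (congrArg Prod.fst hxy)
  have hE : (Ed H (F ∪ Z)).image (Prod.map f f) ⊆
      insert ((none, true), (none, false)) ((Ed H F).image (Prod.map f f) ∪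
        (F.filter fun x => ∃ z ∈ Z, H.adj z x).image
          (fun x => if H.cls x = true then (f x, (none, false)) else ((none, true), f x))) := by
    intro p hp
    rw [mem_image] at hp
    obtain ⟨e, he, rfl⟩ := hp
    rw [mem_Ed, mem_union, mem_union] at he
    obtain ⟨h1, h2, h3, h4⟩ := he
    have hb := H.bip _ _ h4
    have e2 : H.cls e.2 = false := by
      rw [h3] at hb
      cases h : H.cls e.2
      · rfl
      · exact absurd h.symm hb
    rw [mem_insert, mem_union, mem_image, mem_image]
    rcases h1 with h1 | h1 <;> rcases h2 with h2 | h2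
    · exact Or.inr (Or.inl ⟨e, mem_Ed.2 ⟨h1, h2, h3, h4⟩, rfl⟩)
    · refine Or.inr (Or.inr ⟨e.1, mem_filter.2 ⟨h1, e.2, h2, H.symm _ _ h4⟩, ?_⟩)
      rw [if_pos h3]
      simp only [Prod.map, hfZ _ h2, e2]
    · refine Or.inr (Or.inr ⟨e.2, mem_filter.2 ⟨h2, e.1, h1, h4⟩, ?_⟩)
      rw [if_neg (by rw [e2]; decide)]
      simp only [Prod.map, hfZ _ h1, h3]
    · left
      simp only [Prod.map, hfZ _ h1, hfZ _ h2, h3, e2]
  rcases Z.eq_empty_or_nonempty with hZ | ⟨z, hz⟩
  · subst hZ
    rw [union_empty] at h1 hE ⊢
    rw [hF] at h1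
    have := card_image_le (s := Ed H F) (f := Prod.map f f)
    omega
  · have h2 : F.card + 1 ≤ ((F ∪ Z).image f).card := by
      have h3 : insert (f z) (F.image f) ⊆ (F ∪ Z).image f := by
        refine insert_subset (mem_image.2 ⟨z, mem_union_right _ hz, rfl⟩) ?_
        exact image_subset_image subset_union_left
      have h4 := card_le_card h3
      rw [card_insert_of_notMem, hF] at h4
      · exact h4
      · rw [mem_image]
        rintro ⟨x, hx, hx2⟩
        rw [hfF x hx, hfZ z hz] at hx2
        exact absurd (congrArg Prod.fst hx2) (by simp)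
    have h3 := card_le_card hE
    have h4 := card_insert_le ((none, true), (none, false)) ((Ed H F).image (Prod.map f f) ∪
        (F.filter fun x => ∃ z ∈ Z, H.adj z x).image
          (fun x => if H.cls x = true then (f x, (none, false)) else ((none, true), f x)))
    have h5 := card_union_le ((Ed H F).image (Prod.map f f)) ((F.filter fun x => ∃ z ∈ Z, H.adj z x).image
          (fun x => if H.cls x = true then (f x, (none, false)) else ((none, true), f x)))
    have h6 := card_image_le (s := Ed H F) (f := Prod.map f f)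
    have h7 := card_image_le (s := F.filter fun x => ∃ z ∈ Z, H.adj z x) (f :=
          (fun x => if H.cls x = true then (f x, ((none : Option H.V), false)) else ((none, true), f x)))
    unfold att
    omega

/-- The image graph of a class-preserving self-map. -/
abbrev push (H : BG) (ρ : H.V → H.V) (hρ : ∀ x, H.cls (ρ x) = H.cls x) : BG where
  V := H.V
  cls := H.cls
  adj := fun x y => ∃ x' y', ρ x' = x ∧ ρ y' = y ∧ H.adj x' y'
  symm := by
    rintro x y ⟨x', y', h1, h2, h3⟩
    exact ⟨y', x', h2, h1, H.symm _ _ h3⟩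
  bip := by
    rintro x y ⟨x', y', rfl, rfl, h3⟩
    rw [hρ, hρ]
    exact H.bip _ _ h3

theorem Ed_push (H : BG) (ρ : H.V → H.V) (hρ : ∀ x, H.cls (ρ x) = H.cls x) :
    Ed (push H ρ hρ) (univ.image ρ) = (Ed H univ).image (Prod.map ρ ρ) := by
  ext p
  rw [mem_Ed]
  constructor
  · rintro ⟨_, _, h3, x', y', h4, h5, h6⟩
    rw [mem_image]
    refine ⟨(x', y'), mem_Ed.2 ⟨mem_univ _, mem_univ _, ?_, h6⟩, Prod.ext h4 h5⟩
    have : H.cls p.1 = true := h3
    rw [← h4, hρ] at this
    exact this
  · intro hp
    rw [mem_image] at hp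
    obtain ⟨e, he, rfl⟩ := hp
    rw [mem_Ed] at he
    refine ⟨mem_image_of_mem _ (mem_univ _), mem_image_of_mem _ (mem_univ _), ?_, e.1, e.2, rfl, rfl,
      he.2.2.2⟩
    change H.cls (ρ e.1) = true
    rw [hρ, he.2.2.1]

theorem M_push (H : BG) (ρ : H.V → H.V) (hρ : ∀ x, H.cls (ρ x) = H.cls x) :
    M (push H ρ hρ) (univ.image ρ) ≤ M H univ := by
  obtain ⟨τ, h1, h2, h3⟩ := M_exists (push H ρ hρ) (univ.image ρ)
  have h4 := M_ge (H := H) (S := univ) (fun x => τ (ρ x)) (fun x _ y _ hxy => by
    have e : ∀ x, H.cls (τ (ρ x)) = H.cls x := fun x => by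
      rw [← hρ x]; exact h1 (ρ x)
    rw [← e x, ← e y, hxy])
  have e1 : (univ : Finset H.V).image (fun x => τ (ρ x)) = (univ.image ρ).image τ := by
    rw [image_image]; rfl
  have e2 : (Ed H univ).image (Prod.map (fun x => τ (ρ x)) (fun x => τ (ρ x))) =
      (Ed (push H ρ hρ) (univ.image ρ)).image (Prod.map τ τ) := by
    rw [Ed_push, image_image]; rfl
  rw [e1, e2] at h4
  have h5 : 2 * ((univ.image ρ).image τ).card = M (push H ρ hρ) (univ.image ρ) +
    ((Ed (push H ρ hρ) (univ.image ρ)).image (Prod.map τ τ)).card := h3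
  omega

end Pool.Agent.R667.QL
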