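import Pool.Agent.R667.QL.Pair

/-!
# Cospectral sequences, one with and one without the quasirandom log-limit
-/

open Finset Classical

namespace Pool.Agent.R667.QL

section

variable (F : Type) [Field F] [Fintype F] {q : ℕ} [NeZero q]
  (c : Fin (q ^ 2) × Fin (q ^ 2) → Fin q)

theorem hom_star_ge (m : ℕ) :
    (Fintype.card F ^ 2) ^ m ≤ hom (Star m) (host (ST F) q c) := by
  have h1 : (Fintype.card F ^ 2) ^ m ≤ Nat.card (Fin m → Option F × F) := by
    rw [Nat.card_eq_fintype_card, Fintype.card_fun, Fintype.card_prod, Fintype.card_option,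
      Fintype.card_fin]
    exact Nat.pow_le_pow_left (by nlinarith) m
  refine h1.trans ?_
  unfold hom
  refine Nat.card_le_card_of_injective (fun g => ⟨fun x => match x with
    | none => Sum.inr (Sum.inl 0)
    | some i => Sum.inr (Sum.inr (Sum.inl (g i))), ?_, ?_⟩) ?_
  · rintro (_ | i) <;> rfl
  · rintro (_ | i) (_ | j) h
    · exact absurd rfl h
    · exact Sum.LiftRel.inr rfl
    · exact Sum.LiftRel.inr rfl
    · exact absurd rfl h
  · intro g g' h
    funext i
    have := congrFun (congrArg Subtype.val h) (some i)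
    exact Sum.inl_injective (Sum.inr_injective (Sum.inr_injective this))

theorem hom_K2_le :
    hom K2 (host (ST F) q c) ≤ hom K2 (host (AP F) q c) + Fintype.card (Ln F) := by
  rw [← Nat.card_eq_fintype_card]
  unfold hom
  rw [← Nat.card_sum]
  have hcase : ∀ φ : {φ : K2.V → (host (ST F) q c).V // IsHom K2 (host (ST F) q c) φ},
      (∃ a b, φ.1 true = Sum.inl a ∧ φ.1 false = Sum.inl b) ∨
      (∃ p l, φ.1 true = Sum.inr (Sum.inl p) ∧ φ.1 false = Sum.inr (Sum.inr l) ∧ I2 F p l) := by
    rintro ⟨φ, hφ⟩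
    have h1 : (host (ST F) q c).adj (φ true) (φ false) := hφ.2 true false Bool.noConfusion
    have h2 : (host (ST F) q c).cls (φ true) = true := hφ.1 true
    change (∃ a b, φ true = Sum.inl a ∧ φ false = Sum.inl b) ∨
      (∃ p l, φ true = Sum.inr (Sum.inl p) ∧ φ false = Sum.inr (Sum.inr l) ∧ I2 F p l)
    revert h1 h2
    generalize φ true = u
    generalize φ false = w
    intro h1 h2
    rcases u with u | u | u <;> rcases w with w | w | w
    · exact Or.inl ⟨u, w, rfl, rfl⟩
    · exact (Sum.not_liftRel_inl_inr h1).elim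
    · exact (Sum.not_liftRel_inl_inr h1).elim
    · exact (Sum.not_liftRel_inr_inl h1).elim
    · exact (Sum.liftRel_inr_inr.1 h1).elim
    · have h3 := Sum.liftRel_inr_inr.1 h1
      exact Or.inr ⟨u, w, rfl, rfl, h3⟩
    · exact (Sum.not_liftRel_inr_inl h1).elim
    · exact absurd h2 Bool.noConfusion
    · exact (Sum.liftRel_inr_inr.1 h1).elim
  let f : {φ : K2.V → (host (ST F) q c).V // IsHom K2 (host (ST F) q c) φ} →
      {φ : K2.V → (host (AP F) q c).V // IsHom K2 (host (AP F) q c) φ} ⊕ Ln F := fun φ =>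
    if h : ∃ a b, φ.1 true = Sum.inl a ∧ φ.1 false = Sum.inl b then
      Sum.inl ⟨φ.1, φ.2.1, by
        obtain ⟨a, b, ha, hb⟩ := h
        have h1 : (host (ST F) q c).adj (φ.1 true) (φ.1 false) := φ.2.2 true false Bool.noConfusion
        rw [ha, hb] at h1
        have h2 : (host (AP F) q c).adj (φ.1 true) (φ.1 false) := by
          rw [ha, hb]; exact Sum.LiftRel.inl (Sum.liftRel_inl_inl.1 h1)
        rintro (_ | _) (_ | _) h
        · exact absurd rfl h
        · exact (host (AP F) q c).symm _ _ h2
        · exact h2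
        · exact absurd rfl h⟩
    else Sum.inr (((hcase φ).resolve_left h).choose_spec.choose)
  refine Nat.card_le_card_of_injective f ?_
  intro φ ψ h
  by_cases h1 : ∃ a b, φ.1 true = Sum.inl a ∧ φ.1 false = Sum.inl b <;>
    by_cases h2 : ∃ a b, ψ.1 true = Sum.inl a ∧ ψ.1 false = Sum.inl b
  · simp only [f, dif_pos h1, dif_pos h2, Sum.inl.injEq] at h
    have h3 := congrArg Subtype.val h
    exact Subtype.ext h3
  · simp only [f, dif_pos h1, dif_neg h2] at h
    exact (Sum.inl_ne_inr h).elim
  · simp only [f, dif_neg h1, dif_pos h2] at h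
    exact (Sum.inr_ne_inl h).elim
  · simp only [f, dif_neg h1, dif_neg h2, Sum.inr.injEq] at h
    have e1 := ((hcase φ).resolve_left h1).choose_spec.choose_spec
    have e2 := ((hcase ψ).resolve_left h2).choose_spec.choose_spec
    rw [← h] at e2
    obtain ⟨a1, a2, a3⟩ := e1
    obtain ⟨b1, b2, b3⟩ := e2
    have hinj : ∀ (l : Ln F) (p p' : F × F), I2 F p l → I2 F p' l → p = p' := by
      rintro (l | l) p p' hp hp'
      · exact Eq.trans (show p = 0 from hp) (Eq.symm (show p' = 0 from hp'))
      · exact Eq.trans (show p = l.1.1 from hp) (Eq.symm (show p' = l.1.1 from hp'))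
    refine Subtype.ext (funext ?_)
    rintro (_ | _)
    · exact a2.trans b2.symm
    · refine a1.trans (Eq.trans ?_ b1.symm)
      rw [hinj _ _ _ a3 b3]

end

/-- The properties of the pairs that are needed. -/
structure PairProp (n s : ℕ) (G G' : BG) : Prop where
  hn : n ≤ s
  h2 : 2 ≤ s
  ne : (edges G).Nonempty
  ne' : (edges G').Nonempty
  spec : spectrum G = spectrum G'
  nc : ¬ ∀ x y, G.cls x ≠ G.cls y → G.adj x y
  nc' : ¬ ∀ x y, G'.cls x ≠ G'.cls y → G'.adj x y
  lo : ∀ H : BG, Fintype.card H.V ≤ n →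
    ((s : ℝ) ^ 5) ^ ((M H univ : ℝ) - 1 / (n + 1)) ≤ hom H G
  up : ∀ H : BG, Fintype.card H.V ≤ n →
    (hom H G : ℝ) ≤ ((s : ℝ) ^ 5) ^ ((M H univ : ℝ) + 1 / (n + 1))
  clo : ∀ b, (s ^ 5) ^ 2 ≤ classCard G b
  cup : ∀ b, classCard G b ≤ 3 * (s ^ 5) ^ 2
  cc : ∀ b, classCard G' b = classCard G b
  star : ((s ^ 3) ^ 2) ^ 11 ≤ hom (Star 11) G'
  k2 : hom K2 G' ≤ hom K2 G + 3 * (s ^ 5) ^ 2

theorem exists_pair (n : ℕ) : ∃ (s : ℕ) (G G' : BG), PairProp n s G G' := by
  obtain ⟨s0, hs0⟩ := select (ι := Idx n) (fun i => Gr i) (δ := 1 / ((n : ℝ) + 1)) (by positivity)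
  set k := max s0 n + 1 with hk
  set s := 2 ^ k with hs
  have hks : k < s := Nat.lt_two_pow_self
  have hs1 : s0 ≤ s := by omega
  have hsn : n ≤ s := by omega
  have hspos : 0 < s := by omega
  have hs2 : 2 ≤ s := by
    rw [hs, hk, pow_succ]
    have : 0 < 2 ^ max s0 n := by positivity
    omega
  have : Fact (Nat.Prime 2) := ⟨Nat.prime_two⟩
  let F := GaloisField 2 (3 * k)
  let _ : Fintype F := Fintype.ofFinite F
  have hcard : Fintype.card F = s ^ 3 := by
    rw [← Nat.card_eq_fintype_card, GaloisField.card 2 (3 * k) (by omega), hs, ← pow_mul, mul_comm]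
  have hne : NeZero (s ^ 5) := ⟨by positivity⟩
  have hgood : Good (AP F) (s ^ 3) := hcard ▸ good_AP F
  have hLn : Fintype.card (Ln F) ≤ 2 * (s ^ 5) ^ 2 := by
    refine (card_Ln_le F).trans ?_
    rw [hcard]
    have h3 : (s ^ 3) ^ 3 + (s ^ 3) ^ 2 + s ^ 3 ≤ 3 * s ^ 9 := by
      have e1 : (s ^ 3) ^ 3 = s ^ 9 := by ring
      have e2 : (s ^ 3) ^ 2 = s ^ 6 := by ring
      have e3 : s ^ 6 ≤ s ^ 9 := Nat.pow_le_pow_right hspos (by norm_num)
      have e4 : s ^ 3 ≤ s ^ 9 := Nat.pow_le_pow_right hspos (by norm_num)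
      omega
    have h4 : 2 * (s ^ 5) ^ 2 = (2 * s) * s ^ 9 := by ring
    rw [h4]
    exact h3.trans (Nat.mul_le_mul_right _ (by omega))
  have hP : Fintype.card (F × F) ≤ 2 * (s ^ 5) ^ 2 := by
    rw [Fintype.card_prod, hcard]
    have e1 : s ^ 3 * s ^ 3 = s ^ 6 := by ring
    have e2 : (s ^ 5) ^ 2 = s ^ 10 := by ring
    have e3 : s ^ 6 ≤ s ^ 10 := Nat.pow_le_pow_right hspos (by norm_num)
    omega
  have hcl : ∀ b, (univ.filter fun z : (AP F).V => (AP F).cls z = b).card ≤ 2 * (s ^ 5) ^ 2 := by
    intro b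
    rw [cls_inc]
    split_ifs
    · exact hP
    · exact hLn
  have hcl' : ∀ b, (univ.filter fun z : (ST F).V => (ST F).cls z = b).card =
      (univ.filter fun z : (AP F).V => (AP F).cls z = b).card := by
    intro b
    rw [cls_inc]
  obtain ⟨c, hc⟩ := hs0 s hs1 hspos hne (AP F) (Sum.inl 0) hgood hcl
  refine ⟨s, host (AP F) (s ^ 5) c, host (ST F) (s ^ 5) c, ?_⟩
  have h00 : I1 F 0 (Sum.inl (none, 0)) := rfl
  refine
    { hn := hsn
      h2 := hs2
      ne := ⟨(Sum.inr (Sum.inl 0), Sum.inr (Sum.inr (Sum.inl (none, 0)))), rfl, Sum.LiftRel.inr h00⟩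
      ne' := ⟨(Sum.inr (Sum.inl 0), Sum.inr (Sum.inr (Sum.inl (none, 0)))), rfl, Sum.LiftRel.inr rfl⟩
      spec := spectrum_host F _ c
      nc := ?_
      nc' := ?_
      lo := ?_
      up := ?_
      clo := ?_
      cup := ?_
      cc := ?_
      star := ?_
      k2 := ?_ }
  · intro h
    have : NeZero ((s ^ 5) ^ 2) := ⟨by positivity⟩
    exact Sum.not_liftRel_inl_inr (h (Sum.inl (true, 0)) (Sum.inr (Sum.inr (Sum.inl (none, 0))))
      Bool.noConfusion)
  · intro h
    have : NeZero ((s ^ 5) ^ 2) := ⟨by positivity⟩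
    exact Sum.not_liftRel_inl_inr (h (Sum.inl (true, 0)) (Sum.inr (Sum.inr (Sum.inl (none, 0))))
      Bool.noConfusion)
  · intro H hH
    obtain ⟨i, hi1, hi2⟩ := exists_Gr n H hH
    rw [hi1, hi2]
    exact (hc i).1
  · intro H hH
    obtain ⟨i, hi1, hi2⟩ := exists_Gr n H hH
    rw [hi1, hi2]
    exact (hc i).2
  · intro b
    rw [classCard_host]
    exact Nat.le_add_right _ _
  · intro b
    rw [classCard_host, classCard_eq]
    have := hcl b
    omega
  · intro b
    rw [classCard_host, classCard_host, classCard_eq, classCard_eq, hcl']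
  · rw [← hcard]
    exact hom_star_ge F c 11
  · have := hom_K2_le F c
    omega

theorem log_tB {H G : BG} (hh : 0 < hom H G) (h1 : 0 < classCard G true) (h2 : 0 < classCard G false) :
    Real.log (tB H G) = Real.log (hom H G) - (classCard H true * Real.log (classCard G true) +
      classCard H false * Real.log (classCard G false)) := by
  unfold tB
  have e1 : (hom H G : ℝ) ≠ 0 := by positivity
  have e2 : (classCard G true : ℝ) ≠ 0 := by positivity
  have e3 : (classCard G false : ℝ) ≠ 0 := by positivity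
  rw [Real.log_div e1 (mul_ne_zero (pow_ne_zero _ e2) (pow_ne_zero _ e3)),
    Real.log_mul (pow_ne_zero _ e2) (pow_ne_zero _ e3), Real.log_pow, Real.log_pow]

theorem card_V (H : BG) : Fintype.card H.V = classCard H true + classCard H false := by
  rw [classCard_eq, classCard_eq, ← card_univ,
    ← card_filter_add_card_filter_not (s := (univ : Finset H.V)) (fun x => H.cls x = true)]
  congr 2
  ext x
  simp

open Filter Topology

/-- The limit of the normalised logarithm. -/
theorem tendsto_log {s : ℕ → ℕ} {G G' : ℕ → BG} (hp : ∀ n, PairProp n (s n) (G n) (G' n)) (H : BG) :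
    Tendsto (fun n => Real.log (tB H (G n)) / Real.log ((s n : ℝ) ^ 5)) atTop (𝓝 (-(r H : ℝ))) := by
  set L : ℕ → ℝ := fun n => Real.log ((s n : ℝ) ^ 5) with hL
  have hLlim : Tendsto L atTop atTop := by
    refine Real.tendsto_log_atTop.comp ((tendsto_pow_atTop (by norm_num)).comp ?_)
    exact tendsto_natCast_atTop_atTop.comp (tendsto_atTop_mono (fun n => (hp n).hn) tendsto_id)
  have hs : ∀ n, (2 : ℝ) ≤ s n := fun n => by exact_mod_cast (hp n).h2
  have hq : ∀ n, (1 : ℝ) < (s n : ℝ) ^ 5 := fun n =>
    one_lt_pow₀ (by linarith [hs n]) (by norm_num)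
  have hLpos : ∀ n, 0 < L n := fun n => Real.log_pos (hq n)
  -- homomorphism counts
  have hhom : ∀ᶠ n : ℕ in atTop, (M H univ : ℝ) - 1 / ((n : ℝ) + 1) ≤ Real.log (hom H (G n)) / L n ∧
      Real.log (hom H (G n)) / L n ≤ (M H univ : ℝ) + 1 / ((n : ℝ) + 1) ∧ 0 < hom H (G n) := by
    filter_upwards [eventually_ge_atTop (Fintype.card H.V)] with n hn
    have h1 := (hp n).lo H hn
    have h2 := (hp n).up H hn
    have hq0 : 0 < (s n : ℝ) ^ 5 := by linarith [hq n]
    have hpos : (0 : ℝ) < hom H (G n) := lt_of_lt_of_le (Real.rpow_pos_of_pos hq0 _) h1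
    refine ⟨?_, ?_, by exact_mod_cast hpos⟩
    · rw [le_div_iff₀ (hLpos n), ← Real.log_rpow hq0]
      exact Real.log_le_log (Real.rpow_pos_of_pos hq0 _) h1
    · rw [div_le_iff₀ (hLpos n), ← Real.log_rpow hq0]
      exact Real.log_le_log hpos h2
  have hinv : Tendsto (fun n : ℕ => 1 / ((n : ℝ) + 1)) atTop (𝓝 0) :=
    tendsto_one_div_add_atTop_nhds_zero_nat
  have hlim1 : Tendsto (fun n => Real.log (hom H (G n)) / L n) atTop (𝓝 (M H univ : ℝ)) := by
    refine tendsto_of_tendsto_of_tendsto_of_le_of_le' (g := fun n : ℕ => (M H univ : ℝ) - 1 / ((n : ℝ) + 1))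
      (h := fun n : ℕ => (M H univ : ℝ) + 1 / ((n : ℝ) + 1)) ?_ ?_ ?_ ?_
    · simpa using tendsto_const_nhds.sub hinv
    · simpa using tendsto_const_nhds.add hinv
    · exact hhom.mono fun n h => h.1
    · exact hhom.mono fun n h => h.2.1
  -- class sizes
  have hcc : ∀ b, Tendsto (fun n => Real.log (classCard (G n) b) / L n) atTop (𝓝 2) := by
    intro b
    have hb : ∀ n, 2 ≤ Real.log (classCard (G n) b) / L n ∧
        Real.log (classCard (G n) b) / L n ≤ 2 + Real.log 3 / L n := by
      intro n
      have h1 : (((s n : ℝ) ^ 5) ^ 2) ≤ classCard (G n) b := by exact_mod_cast (hp n).clo b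
      have h2 : (classCard (G n) b : ℝ) ≤ 3 * ((s n : ℝ) ^ 5) ^ 2 := by exact_mod_cast (hp n).cup b
      have hq0 : 0 < (s n : ℝ) ^ 5 := by linarith [hq n]
      constructor
      · rw [le_div_iff₀ (hLpos n)]
        have := Real.log_le_log (by positivity) h1
        rw [Real.log_pow] at this
        have e : (2 : ℝ) * L n = ((2 : ℕ) : ℝ) * Real.log ((s n : ℝ) ^ 5) := by push_cast; rfl
        rw [e]
        exact this
      · rw [div_le_iff₀ (hLpos n), add_mul, div_mul_cancel₀ _ (hLpos n).ne']
        have := Real.log_le_log (lt_of_lt_of_le (by positivity) h1) h2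
        rw [Real.log_mul (by norm_num) (by positivity), Real.log_pow] at this
        push_cast at this
        linarith
    have h3 : Tendsto (fun n => 2 + Real.log 3 / L n) atTop (𝓝 2) := by
      have : Tendsto (fun n => Real.log 3 / L n) atTop (𝓝 0) := hLlim.const_div_atTop _
      simpa using tendsto_const_nhds.add this
    exact tendsto_of_tendsto_of_tendsto_of_le_of_le tendsto_const_nhds h3 (fun n => (hb n).1)
      (fun n => (hb n).2)
  have hmain : Tendsto (fun n => Real.log (hom H (G n)) / L n -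
      (classCard H true * (Real.log (classCard (G n) true) / L n) +
        classCard H false * (Real.log (classCard (G n) false) / L n))) atTop
      (𝓝 ((M H univ : ℝ) - (classCard H true * 2 + classCard H false * 2))) :=
    hlim1.sub (((hcc true).const_mul _).add ((hcc false).const_mul _))
  have hval : (M H univ : ℝ) - (classCard H true * 2 + classCard H false * 2) = -(r H : ℝ) := by
    have h1 := r_add_M H
    have h2 := card_V H
    have h3 : (r H : ℝ) + M H univ = 2 * (classCard H true + classCard H false) := by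
      rw [h2] at h1
      exact_mod_cast h1
    linarith
  rw [hval] at hmain
  refine hmain.congr' ?_
  filter_upwards [hhom] with n hn
  have h1 : ∀ b, 0 < classCard (G n) b := fun b =>
    lt_of_lt_of_le (by have := (hp n).h2; positivity) ((hp n).clo b)
  rw [log_tB hn.2.2 (h1 true) (h1 false)]
  ring

theorem main : ∃ G G' : ℕ → BG,
    (∀ n, (edges (G n)).Nonempty ∧ (edges (G' n)).Nonempty ∧ spectrum (G n) = spectrum (G' n)) ∧
    LogLimit G ∧ ¬ LogLimit G' := by
  choose s G G' hp using exists_pair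
  refine ⟨G, G', fun n => ⟨(hp n).ne, (hp n).ne', (hp n).spec⟩, ?_, ?_⟩
  · intro H _
    have h1 := tendsto_log hp H
    have h2 := tendsto_log hp K2
    rw [r_K2] at h2
    have h3 := h1.div h2 (by norm_num)
    have e : -(r H : ℝ) / -((1 : ℕ) : ℝ) = (r H : ℝ) := by push_cast; ring
    rw [e] at h3
    refine h3.congr fun n => ?_
    have hs : (2 : ℝ) ≤ s n := by exact_mod_cast (hp n).h2
    have hL : Real.log ((s n : ℝ) ^ 5) ≠ 0 :=
      (Real.log_pos (one_lt_pow₀ (by linarith) (by norm_num))).ne'
    unfold hh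
    rw [if_neg (hp n).nc]
    simp only [Pi.div_apply]
    field_simp
  · intro hlim
    have hne : (edges (Star 11)).Nonempty := ⟨(none, some 0), rfl, by
      change (none : Option (Fin 11)).isNone ≠ (some (0 : Fin 11)).isNone
      simp⟩
    have h1 := hlim (Star 11) hne
    set L : ℕ → ℝ := fun n => Real.log ((s n : ℝ) ^ 5) with hL
    have hLlim : Tendsto L atTop atTop := by
      refine Real.tendsto_log_atTop.comp ((tendsto_pow_atTop (by norm_num)).comp ?_)
      exact tendsto_natCast_atTop_atTop.comp (tendsto_atTop_mono (fun n => (hp n).hn) tendsto_id)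
    have hinv : Tendsto (fun n : ℕ => 1 / ((n : ℝ) + 1)) atTop (𝓝 0) :=
      tendsto_one_div_add_atTop_nhds_zero_nat
    -- upper bound for `hh`
    have hU : Tendsto (fun n : ℕ => (54 / 5 + 12 * Real.log 3 / L n) /
        (1 - 1 / ((n : ℝ) + 1) - Real.log 4 / L n)) atTop (𝓝 (54 / 5)) := by
      have a1 : Tendsto (fun n => 54 / 5 + 12 * Real.log 3 / L n) atTop (𝓝 (54 / 5 + 0)) :=
        tendsto_const_nhds.add (hLlim.const_div_atTop _)
      have a2 : Tendsto (fun n : ℕ => 1 - 1 / ((n : ℝ) + 1) - Real.log 4 / L n) atTop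
          (𝓝 (1 - 0 - 0)) := (tendsto_const_nhds.sub hinv).sub (hLlim.const_div_atTop _)
      have a3 := a1.div a2 (by norm_num)
      rw [show (54 / 5 + 0 : ℝ) / (1 - 0 - 0) = 54 / 5 by norm_num] at a3
      exact a3
    have hden : ∀ᶠ n : ℕ in atTop, 0 < 1 - 1 / ((n : ℝ) + 1) - Real.log 4 / L n := by
      have a2 : Tendsto (fun n : ℕ => 1 - 1 / ((n : ℝ) + 1) - Real.log 4 / L n) atTop
          (𝓝 (1 - 0 - 0)) := (tendsto_const_nhds.sub hinv).sub (hLlim.const_div_atTop _)
      exact a2.eventually (lt_mem_nhds (by norm_num))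
    have hle : ∀ᶠ n : ℕ in atTop, hh (Star 11) (G' n) ≤ (54 / 5 + 12 * Real.log 3 / L n) /
        (1 - 1 / ((n : ℝ) + 1) - Real.log 4 / L n) := by
      filter_upwards [hden, eventually_ge_atTop 2] with n hd hn2
      have P := hp n
      have hs : (2 : ℝ) ≤ s n := by exact_mod_cast P.h2
      have hs0 : (0 : ℝ) < s n := by linarith
      have hq1 : (1 : ℝ) < (s n : ℝ) ^ 5 := one_lt_pow₀ (by linarith) (by norm_num)
      have hq0 : (0 : ℝ) < (s n : ℝ) ^ 5 := by linarith
      have hLpos : 0 < L n := Real.log_pos hq1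
      have hcc0 : ∀ b, 0 < classCard (G' n) b := fun b => by
        rw [P.cc]
        exact lt_of_lt_of_le (by have := P.h2; positivity) (P.clo b)
      have hcclo : ∀ b, 2 * L n ≤ Real.log (classCard (G' n) b) := by
        intro b
        have h1 : (((s n : ℝ) ^ 5) ^ 2) ≤ classCard (G' n) b := by
          rw [P.cc]; exact_mod_cast P.clo b
        have := Real.log_le_log (by positivity) h1
        rw [Real.log_pow] at this
        have e : (2 : ℝ) * L n = ((2 : ℕ) : ℝ) * Real.log ((s n : ℝ) ^ 5) := by push_cast; rfl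
        rw [e]
        exact this
      have hccup : ∀ b, Real.log (classCard (G' n) b) ≤ 2 * L n + Real.log 3 := by
        intro b
        have h2 : (classCard (G' n) b : ℝ) ≤ 3 * ((s n : ℝ) ^ 5) ^ 2 := by
          rw [P.cc]; exact_mod_cast P.cup b
        have h0 : (0 : ℝ) < classCard (G' n) b := by exact_mod_cast hcc0 b
        have := Real.log_le_log h0 h2
        rw [Real.log_mul (by norm_num) (by positivity), Real.log_pow] at this
        push_cast at this
        linarith
      -- star
      have hstar : (((s n : ℝ) ^ 3) ^ 2) ^ 11 ≤ hom (Star 11) (G' n) := by exact_mod_cast P.star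
      have hstar0 : 0 < hom (Star 11) (G' n) := by
        have : (0 : ℝ) < hom (Star 11) (G' n) := lt_of_lt_of_le (by positivity) hstar
        exact_mod_cast this
      have hlogstar : 66 / 5 * L n ≤ Real.log (hom (Star 11) (G' n)) := by
        have h1 := Real.log_le_log (by positivity) hstar
        have h2 : Real.log ((((s n : ℝ) ^ 3) ^ 2) ^ 11) = 66 / 5 * L n := by
          have hLn : L n = 5 * Real.log (s n) := by
            change Real.log ((s n : ℝ) ^ 5) = _
            rw [Real.log_pow]; push_cast; ring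
          rw [hLn, ← pow_mul, ← pow_mul, Real.log_pow]
          push_cast
          ring
        rw [h2] at h1
        exact h1
      have hc1 : classCard (Star 11) true = 1 := by
        unfold classCard
        rw [Nat.card_eq_one_iff_unique]
        refine ⟨⟨?_⟩, ⟨⟨none, rfl⟩⟩⟩
        rintro ⟨x, hx⟩ ⟨y, hy⟩
        have hx' : (show Option (Fin 11) from x).isNone = true := hx
        have hy' : (show Option (Fin 11) from y).isNone = true := hy
        rw [Option.isNone_iff_eq_none] at hx' hy'
        exact Subtype.ext (hx'.trans hy'.symm)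
      have hc2 : classCard (Star 11) false = 11 := by
        have h := card_V (Star 11)
        have h3 : Fintype.card (Star 11).V = 12 := by
          change Fintype.card (Option (Fin 11)) = 12
          rw [Fintype.card_option, Fintype.card_fin]
        omega
      have hnum : -Real.log (tB (Star 11) (G' n)) ≤ 54 / 5 * L n + 12 * Real.log 3 := by
        rw [log_tB hstar0 (hcc0 true) (hcc0 false), hc1, hc2]
        have b1 := hccup true
        have b2 := hccup false
        push_cast
        linarith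
      -- the single edge
      have hK2V : Fintype.card K2.V = 2 := rfl
      have hk2up : (hom K2 (G n) : ℝ) ≤ ((s n : ℝ) ^ 5) ^ ((3 : ℝ) + 1 / ((n : ℝ) + 1)) := by
        have h1 := P.up K2 (by rw [hK2V]; exact hn2)
        have h2 : M K2 univ = 3 := by
          have := r_add_M K2
          rw [r_K2, hK2V] at this
          omega
        rw [h2] at h1
        exact_mod_cast h1
      have hk2' : (hom K2 (G' n) : ℝ) ≤ 4 * ((s n : ℝ) ^ 5) ^ ((3 : ℝ) + 1 / ((n : ℝ) + 1)) := by
        have h1 : (hom K2 (G' n) : ℝ) ≤ hom K2 (G n) + 3 * ((s n : ℝ) ^ 5) ^ 2 := by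
          exact_mod_cast P.k2
        have h2 : ((s n : ℝ) ^ 5) ^ 2 ≤ ((s n : ℝ) ^ 5) ^ ((3 : ℝ) + 1 / ((n : ℝ) + 1)) := by
          rw [← Real.rpow_natCast ((s n : ℝ) ^ 5) 2]
          refine Real.rpow_le_rpow_of_exponent_le hq1.le ?_
          have : (0 : ℝ) ≤ 1 / ((n : ℝ) + 1) := by positivity
          push_cast
          linarith
        linarith
      have hk20 : 0 < hom K2 (G' n) := by
        obtain ⟨⟨x, y⟩, hx, hxy⟩ := P.ne'
        have hy : (G' n).cls y = false := by
          have := (G' n).bip _ _ hxy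
          change (G' n).cls x = true at hx
          change (G' n).cls x ≠ (G' n).cls y at this
          rw [hx] at this
          cases h : (G' n).cls y
          · rfl
          · exact absurd h.symm this
        unfold hom
        have hne' : Nonempty {φ : K2.V → (G' n).V // IsHom K2 (G' n) φ} := by
          refine ⟨⟨fun b => if (show Bool from b) = true then x else y, ?_, ?_⟩⟩
          · rintro (_ | _)
            · exact hy
            · exact hx
          · rintro (_ | _) (_ | _) h
            · exact absurd rfl h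
            · exact (G' n).symm _ _ hxy
            · exact hxy
            · exact absurd rfl h
        exact Nat.card_pos
      have hcK1 : classCard K2 true = 1 := by
        unfold classCard
        rw [Nat.card_eq_one_iff_unique]
        refine ⟨⟨?_⟩, ⟨⟨true, rfl⟩⟩⟩
        rintro ⟨x, hx⟩ ⟨y, hy⟩
        exact Subtype.ext (Eq.trans (show x = true from hx) (Eq.symm (show y = true from hy)))
      have hcK2 : classCard K2 false = 1 := by
        have h := card_V K2
        rw [hK2V] at h
        omega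
      have hdenom : (1 - 1 / ((n : ℝ) + 1)) * L n - Real.log 4 ≤ -Real.log (tB K2 (G' n)) := by
        rw [log_tB hk20 (hcc0 true) (hcc0 false), hcK1, hcK2]
        have b1 := hcclo true
        have b2 := hcclo false
        have h0 : (0 : ℝ) < hom K2 (G' n) := by exact_mod_cast hk20
        have h3 := Real.log_le_log h0 hk2'
        rw [Real.log_mul (by norm_num) (by positivity), Real.log_rpow hq0] at h3
        change _ ≤ Real.log 4 + (3 + 1 / ((n : ℝ) + 1)) * L n at h3
        push_cast
        linarith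
      unfold hh
      rw [if_neg P.nc', ← neg_div_neg_eq]
      have hV : (1 - 1 / ((n : ℝ) + 1)) * L n - Real.log 4 =
          (1 - 1 / ((n : ℝ) + 1) - Real.log 4 / L n) * L n := by field_simp
      have hVpos : 0 < (1 - 1 / ((n : ℝ) + 1)) * L n - Real.log 4 := by
        rw [hV]; exact mul_pos hd hLpos
      have hlog3 : 0 < Real.log 3 := Real.log_pos (by norm_num)
      calc -Real.log (tB (Star 11) (G' n)) / -Real.log (tB K2 (G' n))
          ≤ (54 / 5 * L n + 12 * Real.log 3) / -Real.log (tB K2 (G' n)) :=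
            div_le_div_of_nonneg_right hnum (hVpos.le.trans hdenom)
        _ ≤ (54 / 5 * L n + 12 * Real.log 3) / ((1 - 1 / ((n : ℝ) + 1)) * L n - Real.log 4) :=
            div_le_div_of_nonneg_left (by positivity) hVpos hdenom
        _ = (54 / 5 + 12 * Real.log 3 / L n) / (1 - 1 / ((n : ℝ) + 1) - Real.log 4 / L n) := by
            rw [hV, show 54 / 5 * L n + 12 * Real.log 3 = (54 / 5 + 12 * Real.log 3 / L n) * L n by
              field_simp, mul_div_mul_right _ _ hLpos.ne']
    have hfin : (r (Star 11) : ℝ) ≤ 54 / 5 := le_of_tendsto_of_tendsto h1 hU hle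
    have h11 : (11 : ℝ) ≤ r (Star 11) := by exact_mod_cast r_Star 11
    linarith

end Pool.Agent.R667.QL
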