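import Pool.Agent.R667.QL.Basic

/-!
# Counting injective homomorphisms into graphs of affine planes
-/

open Finset Classical

namespace Pool.Agent.R667.QL

structure Good (Z : BG) (d : ℕ) : Prop where
  y0 : ∀ b, (univ.filter fun z : Z.V => Z.cls z = b ∧ ∃ z', Z.adj z z').card ≤ 2 * d ^ 2
  y1 : ∀ z, (univ.filter fun z' : Z.V => Z.adj z z').card ≤ 2 * d
  y2 : ∀ z z', z ≠ z' → (univ.filter fun y : Z.V => Z.adj z y ∧ Z.adj z' y).card ≤ 1

/-- Injective homomorphisms of `H[T]` into the non-isolated part of `Z`. -/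
noncomputable def IZ (H Z : BG) (w0 : Z.V) (T : Finset H.V) : Finset (H.V → Z.V) :=
  univ.filter fun φ => (∀ x, x ∉ T → φ x = w0) ∧
    (∀ x ∈ T, Z.cls (φ x) = H.cls x ∧ ∃ z', Z.adj (φ x) z') ∧
    (∀ x ∈ T, ∀ y ∈ T, H.adj x y → Z.adj (φ x) (φ y)) ∧ (∀ x ∈ T, ∀ y ∈ T, φ x = φ y → x = y)

section

variable {H Z : BG} {w0 : Z.V} {T : Finset H.V} {x : H.V}

theorem IZ_insert (hx : x ∉ T) (n : ℕ) (hn : ∀ ψ ∈ IZ H Z w0 T,
    (univ.filter fun w : Z.V => Z.cls w = H.cls x ∧ (∃ z', Z.adj w z') ∧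
      ∀ y ∈ T, H.adj y x → Z.adj (ψ y) w).card ≤ n) :
    (IZ H Z w0 (insert x T)).card ≤ n * (IZ H Z w0 T).card := by
  refine card_le_mul_card_image_of_maps_to (f := fun φ => Function.update φ x w0) ?_ n ?_
  · intro φ hφ
    simp only [IZ, mem_filter, mem_univ, true_and] at hφ ⊢
    obtain ⟨h1, h2, h3, h4⟩ := hφ
    have hne : ∀ y ∈ T, y ≠ x := fun y hy h => hx (h ▸ hy)
    refine ⟨?_, ?_, ?_, ?_⟩
    · intro y hy
      by_cases hyx : y = x
      · subst hyx; simp
      · rw [Function.update_of_ne hyx]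
        exact h1 y (by simp [hyx, hy])
    · intro y hy
      rw [Function.update_of_ne (hne y hy)]
      exact h2 y (mem_insert_of_mem hy)
    · intro y hy z hz hyz
      rw [Function.update_of_ne (hne y hy), Function.update_of_ne (hne z hz)]
      exact h3 y (mem_insert_of_mem hy) z (mem_insert_of_mem hz) hyz
    · intro y hy z hz hyz
      rw [Function.update_of_ne (hne y hy), Function.update_of_ne (hne z hz)] at hyz
      exact h4 y (mem_insert_of_mem hy) z (mem_insert_of_mem hz) hyz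
  · intro ψ hψ
    refine le_trans ?_ (hn ψ hψ)
    refine card_le_card_of_injOn (fun φ => φ x) ?_ ?_
    · intro φ hφ
      simp only [IZ, coe_filter, mem_filter, mem_univ, true_and, Set.mem_ofPred_eq] at hφ ⊢
      obtain ⟨⟨h1, h2, h3, h4⟩, h5⟩ := hφ
      have hne : ∀ y ∈ T, y ≠ x := fun y hy h => hx (h ▸ hy)
      refine ⟨(h2 x (mem_insert_self _ _)).1, (h2 x (mem_insert_self _ _)).2, fun y hy hyx => ?_⟩
      have h6 : ψ y = φ y := by
        rw [← h5, Function.update_of_ne (hne y hy)]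
      rw [h6]
      exact h3 y (mem_insert_of_mem hy) x (mem_insert_self _ _) hyx
    · intro φ hφ φ' hφ' h
      simp only [coe_filter, Set.mem_ofPred_eq] at hφ hφ'
      funext y
      by_cases hy : y = x
      · rw [hy]; exact h
      · have e1 := congrFun hφ.2 y
        have e2 := congrFun hφ'.2 y
        rw [Function.update_of_ne hy] at e1 e2
        rw [e1, e2]

theorem step0 {d : ℕ} (hZ : Good Z d) (hx : x ∉ T) :
    (IZ H Z w0 (insert x T)).card ≤ 2 * d ^ 2 * (IZ H Z w0 T).card := by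
  refine IZ_insert hx _ fun ψ _ => (card_le_card ?_).trans (hZ.y0 (H.cls x))
  intro w hw
  simp only [mem_filter, mem_univ, true_and] at hw ⊢
  exact ⟨hw.1, hw.2.1⟩

theorem step1 {d : ℕ} (hZ : Good Z d) (hx : x ∉ T) {y : H.V} (hy : y ∈ T) (hyx : H.adj y x) :
    (IZ H Z w0 (insert x T)).card ≤ 2 * d * (IZ H Z w0 T).card := by
  refine IZ_insert hx _ fun ψ _ => (card_le_card ?_).trans (hZ.y1 (ψ y))
  intro w hw
  simp only [mem_filter, mem_univ, true_and] at hw ⊢
  exact hw.2.2 y hy hyx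

theorem step2 {d : ℕ} (hZ : Good Z d) (hx : x ∉ T) {y z : H.V} (hy : y ∈ T) (hyx : H.adj y x)
    (hz : z ∈ T) (hzx : H.adj z x) (hyz : y ≠ z) :
    (IZ H Z w0 (insert x T)).card ≤ (IZ H Z w0 T).card := by
  rw [← one_mul (IZ H Z w0 T).card]
  refine IZ_insert hx _ fun ψ hψ => (card_le_card ?_).trans (hZ.y2 (ψ y) (ψ z) ?_)
  · intro w hw
    simp only [mem_filter, mem_univ, true_and] at hw ⊢
    exact ⟨hw.2.2 y hy hyx, hw.2.2 z hz hzx⟩
  · intro h
    simp only [IZ, mem_filter, mem_univ, true_and] at hψ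
    exact hyz (hψ.2.2.2 y hy z hz h)

theorem IZ_empty : (IZ H Z w0 ∅).card ≤ 1 := by
  rw [card_le_one]
  intro φ hφ ψ hψ
  simp only [IZ, mem_filter, mem_univ, true_and] at hφ hψ
  funext x
  rw [hφ.1 x (notMem_empty _), hψ.1 x (notMem_empty _)]

theorem IZ_trivial {d : ℕ} (hZ : Good Z d) (T : Finset H.V) :
    (IZ H Z w0 T).card ≤ (2 * d ^ 2) ^ T.card := by
  induction T using Finset.induction_on with
  | empty => simpa using IZ_empty
  | insert x T hx ih =>
    rw [card_insert_of_notMem hx, pow_succ]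
    calc (IZ H Z w0 (insert x T)).card ≤ 2 * d ^ 2 * (IZ H Z w0 T).card := step0 hZ hx
      _ ≤ 2 * d ^ 2 * (2 * d ^ 2) ^ T.card := Nat.mul_le_mul_left _ ih
      _ = (2 * d ^ 2) ^ T.card * (2 * d ^ 2) := by ring

/-- The forest property. -/
def Phi (H Z : BG) (w0 : Z.V) (d : ℕ) (F : Finset H.V) : Prop :=
  ∀ Q : Finset H.V, Disjoint F Q →
    (IZ H Z w0 (F ∪ Q)).card * d ^ ((Ed H F).card + att H F Q) ≤
      (2 * d ^ 2) ^ F.card * (IZ H Z w0 Q).card

theorem Phi_empty (d : ℕ) : Phi H Z w0 d ∅ := by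
  intro Q _
  have h1 : Ed H ∅ = ∅ := by ext p; simp [Ed]
  simp [h1, att]

theorem att_insert {F Q : Finset H.V} (hx : x ∉ F) :
    att H (insert x F) Q = att H F Q + if ∃ z ∈ Q, H.adj z x then 1 else 0 := by
  unfold att
  rw [filter_insert]
  split_ifs with h
  · rw [card_insert_of_notMem (by simp [hx])]
  · rfl

theorem Ed_insert_le {F : Finset H.V} (hdeg : ∀ y ∈ F, ∀ z ∈ F, H.adj y x → H.adj z x → y = z) :
    (Ed H (insert x F)).card ≤ (Ed H F).card + if ∃ z ∈ F, H.adj z x then 1 else 0 := by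
  have hself : ¬ H.adj x x := fun h => H.bip _ _ h rfl
  split_ifs with h
  · obtain ⟨z, hz, hzx⟩ := h
    have hsub : Ed H (insert x F) ⊆ insert (if H.cls x = true then (x, z) else (z, x)) (Ed H F) := by
      intro p hp
      rw [mem_Ed, mem_insert, mem_insert] at hp
      obtain ⟨h1, h2, h3, h4⟩ := hp
      rw [mem_insert]
      rcases h1 with h1 | h1 <;> rcases h2 with h2 | h2
      · rw [h1, h2] at h4; exact absurd h4 hself
      · left
        have : p.2 = z := hdeg _ h2 _ hz (by rw [← h1]; exact H.symm _ _ h4) hzx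
        rw [if_pos (by rw [← h1]; exact h3)]
        exact Prod.ext h1 this
      · left
        have : p.1 = z := hdeg _ h1 _ hz (by rw [← h2]; exact h4) hzx
        have hb := H.bip _ _ h4
        rw [if_neg]
        · exact Prod.ext this h2
        · intro h
          rw [h3, h2, h] at hb
          exact hb rfl
      · right
        exact mem_Ed.2 ⟨h1, h2, h3, h4⟩
    exact (card_le_card hsub).trans (card_insert_le _ _)
  · rw [add_zero]
    refine card_le_card fun p hp => ?_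
    rw [mem_Ed, mem_insert, mem_insert] at hp
    obtain ⟨h1, h2, h3, h4⟩ := hp
    rcases h1 with h1 | h1 <;> rcases h2 with h2 | h2
    · rw [h1, h2] at h4; exact absurd h4 hself
    · exact absurd ⟨_, h2, by rw [← h1]; exact H.symm _ _ h4⟩ h
    · exact absurd ⟨_, h1, by rw [← h2]; exact h4⟩ h
    · exact mem_Ed.2 ⟨h1, h2, h3, h4⟩

theorem Phi_step {d : ℕ} (hd : 0 < d) (hZ : Good Z d) {F : Finset H.V} (hx : x ∉ F)
    (hdeg : ∀ y ∈ F, ∀ z ∈ F, H.adj y x → H.adj z x → y = z) (hF : Phi H Z w0 d F) :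
    Phi H Z w0 d (insert x F) := by
  intro Q hQ
  rw [disjoint_insert_left] at hQ
  have h1 := hF Q hQ.2
  have hxQ : x ∉ F ∪ Q := by
    rw [mem_union]; tauto
  have h2 := Ed_insert_le (x := x) hdeg
  rw [att_insert hx, card_insert_of_notMem hx, insert_union]
  set a := if ∃ z ∈ F, H.adj z x then 1 else 0 with ha
  set b := if ∃ z ∈ Q, H.adj z x then 1 else 0 with hb
  have h3 : (IZ H Z w0 (insert x (F ∪ Q))).card * d ^ (a + b) ≤
      2 * d ^ 2 * (IZ H Z w0 (F ∪ Q)).card := by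
    by_cases hA : ∃ z ∈ F, H.adj z x <;> by_cases hB : ∃ z ∈ Q, H.adj z x
    · obtain ⟨y, hy, hyx⟩ := hA
      obtain ⟨z, hz, hzx⟩ := hB
      have e1 : a = 1 := if_pos ⟨y, hy, hyx⟩
      have e2 : b = 1 := if_pos ⟨z, hz, hzx⟩
      rw [e1, e2]
      have hyz : y ≠ z := fun h => disjoint_left.1 hQ.2 hy (h ▸ hz)
      have := step2 (w0 := w0) hZ hxQ (mem_union_left _ hy) hyx (mem_union_right _ hz) hzx hyz
      calc (IZ H Z w0 (insert x (F ∪ Q))).card * d ^ (1 + 1)
          ≤ (IZ H Z w0 (F ∪ Q)).card * d ^ 2 := Nat.mul_le_mul_right _ this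
        _ ≤ 2 * d ^ 2 * (IZ H Z w0 (F ∪ Q)).card := by nlinarith [Nat.zero_le ((IZ H Z w0 (F ∪ Q)).card * d ^ 2)]
    · obtain ⟨y, hy, hyx⟩ := hA
      have e1 : a = 1 := if_pos ⟨y, hy, hyx⟩
      have e2 : b = 0 := if_neg hB
      rw [e1, e2]
      have := step1 (w0 := w0) hZ hxQ (mem_union_left _ hy) hyx
      calc (IZ H Z w0 (insert x (F ∪ Q))).card * d ^ (1 + 0)
          ≤ (2 * d * (IZ H Z w0 (F ∪ Q)).card) * d ^ 1 := Nat.mul_le_mul_right _ this
        _ = 2 * d ^ 2 * (IZ H Z w0 (F ∪ Q)).card := by ring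
    · obtain ⟨z, hz, hzx⟩ := hB
      have e1 : a = 0 := if_neg hA
      have e2 : b = 1 := if_pos ⟨z, hz, hzx⟩
      rw [e1, e2]
      have := step1 (w0 := w0) hZ hxQ (mem_union_right _ hz) hzx
      calc (IZ H Z w0 (insert x (F ∪ Q))).card * d ^ (0 + 1)
          ≤ (2 * d * (IZ H Z w0 (F ∪ Q)).card) * d ^ 1 := Nat.mul_le_mul_right _ this
        _ = 2 * d ^ 2 * (IZ H Z w0 (F ∪ Q)).card := by ring
    · have e1 : a = 0 := if_neg hA
      have e2 : b = 0 := if_neg hB
      rw [e1, e2]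
      simpa using step0 (w0 := w0) hZ hxQ
  calc (IZ H Z w0 (insert x (F ∪ Q))).card * d ^ ((Ed H (insert x F)).card + (att H F Q + b))
      ≤ (IZ H Z w0 (insert x (F ∪ Q))).card * d ^ ((a + b) + ((Ed H F).card + att H F Q)) :=
        Nat.mul_le_mul_left _ (Nat.pow_le_pow_right hd (by omega))
    _ = ((IZ H Z w0 (insert x (F ∪ Q))).card * d ^ (a + b)) * d ^ ((Ed H F).card + att H F Q) := by
        rw [pow_add]; ring
    _ ≤ (2 * d ^ 2 * (IZ H Z w0 (F ∪ Q)).card) * d ^ ((Ed H F).card + att H F Q) :=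
        Nat.mul_le_mul_right _ h3
    _ = 2 * d ^ 2 * ((IZ H Z w0 (F ∪ Q)).card * d ^ ((Ed H F).card + att H F Q)) := by ring
    _ ≤ 2 * d ^ 2 * ((2 * d ^ 2) ^ F.card * (IZ H Z w0 Q).card) := Nat.mul_le_mul_left _ h1
    _ = (2 * d ^ 2) ^ (F.card + 1) * (IZ H Z w0 Q).card := by ring

/-- Cut form of connectedness of `H[S]`. -/
def Connd (H : BG) (S : Finset H.V) : Prop :=
  ∀ T ⊆ S, T.Nonempty → T ≠ S → ∃ x ∈ S, x ∉ T ∧ ∃ y ∈ T, H.adj y x

theorem chain {d : ℕ} (hd : 0 < d) (hZ : Good Z d) {S : Finset H.V} (hS : S.Nonempty)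
    (hc : Connd H S) : ∀ n, 1 ≤ n → n ≤ S.card → ∃ T ⊆ S, ∃ Z' ⊆ T, T.card = n ∧
      (IZ H Z w0 T).card * d ^ Z'.card ≤ 2 ^ n * d ^ (n + 1) ∧ Phi H Z w0 d (T \ Z') := by
  intro n hn
  induction n, hn using Nat.le_induction with
  | base =>
    intro _
    obtain ⟨x, hx⟩ := hS
    refine ⟨{x}, by simpa using hx, ∅, empty_subset _, card_singleton _, ?_, ?_⟩
    · have := IZ_trivial (w0 := w0) hZ {x}
      simp only [card_singleton, pow_one] at this
      simpa using this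
    · have h := Phi_step (w0 := w0) (x := x) (F := ∅) hd hZ (notMem_empty _) (by simp)
        (Phi_empty d)
      simpa using h
  | succ n hn ih =>
    intro hle
    obtain ⟨T, hT, Z', hZ', hTn, hα, hβ⟩ := ih (by omega)
    have hTne : T.Nonempty := by rw [← card_pos]; omega
    have hTS : T ≠ S := by rintro rfl; omega
    obtain ⟨x, hxS, hxT, y, hy, hyx⟩ := hc T hT hTne hTS
    have hxZ : x ∉ Z' := fun h => hxT (hZ' h)
    by_cases h2 : ∃ z ∈ T, z ≠ y ∧ H.adj z x
    · obtain ⟨z, hz, hzy, hzx⟩ := h2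
      refine ⟨insert x T, insert_subset hxS hT, insert x Z', insert_subset_insert _ hZ',
        by rw [card_insert_of_notMem hxT, hTn], ?_, ?_⟩
      · rw [card_insert_of_notMem hxZ]
        have := step2 (w0 := w0) hZ hxT hz hzx hy hyx hzy
        calc (IZ H Z w0 (insert x T)).card * d ^ (Z'.card + 1)
            ≤ (IZ H Z w0 T).card * d ^ (Z'.card + 1) := Nat.mul_le_mul_right _ this
          _ = ((IZ H Z w0 T).card * d ^ Z'.card) * d := by ring
          _ ≤ (2 ^ n * d ^ (n + 1)) * d := Nat.mul_le_mul_right _ hα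
          _ ≤ 2 ^ (n + 1) * d ^ (n + 1 + 1) := by
            rw [pow_succ 2 n, pow_succ d (n + 1)]
            nlinarith [Nat.zero_le (2 ^ n * d ^ (n + 1) * d)]
      · have e : insert x T \ insert x Z' = T \ Z' := by
          ext u
          simp only [mem_sdiff, mem_insert, not_or]
          constructor
          · rintro ⟨h1 | h1, h2, h3⟩
            · exact absurd h1 h2
            · exact ⟨h1, h3⟩
          · rintro ⟨h1, h2⟩
            exact ⟨Or.inr h1, fun h => hxT (h ▸ h1), h2⟩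
        rw [e]
        exact hβ
    · push Not at h2
      refine ⟨insert x T, insert_subset hxS hT, Z', hZ'.trans (subset_insert _ _),
        by rw [card_insert_of_notMem hxT, hTn], ?_, ?_⟩
      · have := step1 (w0 := w0) hZ hxT hy hyx
        calc (IZ H Z w0 (insert x T)).card * d ^ Z'.card
            ≤ (2 * d * (IZ H Z w0 T).card) * d ^ Z'.card := Nat.mul_le_mul_right _ this
          _ = (2 * d) * ((IZ H Z w0 T).card * d ^ Z'.card) := by ring
          _ ≤ (2 * d) * (2 ^ n * d ^ (n + 1)) := Nat.mul_le_mul_left _ hα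
          _ = 2 ^ (n + 1) * d ^ (n + 1 + 1) := by ring
      · rw [insert_sdiff_of_notMem _ hxZ]
        refine Phi_step hd hZ ?_ ?_ hβ
        · rw [mem_sdiff]; tauto
        · intro u hu v hv hux hvx
          rw [mem_sdiff] at hu hv
          by_contra huv
          by_cases huy : u = y
          · exact h2 v hv.1 (fun h => huv (by rw [huy, h])) hvx
          · exact h2 u hu.1 huy hux

/-- The bound for connected graphs. -/
theorem IZ_connected {s : ℕ} (hs : 0 < s) (hZ : Good Z (s ^ 3)) {S : Finset H.V} (hS : S.Nonempty)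
    (hc : Connd H S) : (IZ H Z w0 S).card ≤ 2 ^ S.card * (s ^ 5) ^ M H S := by
  have hd : 0 < s ^ 3 := by positivity
  set d := s ^ 3 with hdd
  obtain ⟨T, hT, Z', hZ', hTn, hα, hβ⟩ := chain (w0 := w0) hd hZ hS hc S.card
    (card_pos.2 hS) le_rfl
  have hTS : T = S := eq_of_subset_of_card_le hT (by omega)
  subst hTS
  have hdisj : Disjoint (T \ Z') Z' := sdiff_disjoint
  have hun : T \ Z' ∪ Z' = T := sdiff_union_of_subset hZ'
  have h1 := hβ Z' hdisj
  rw [hun] at h1
  have h2 := IZ_trivial (w0 := w0) hZ Z'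
  have h3 := M_forest hdisj
  rw [hun] at h3
  have h4 := M_low hS
  have hcard : (T \ Z').card + Z'.card = T.card := by
    rw [card_sdiff_of_subset hZ']
    have := card_le_card hZ'
    omega
  set N := (IZ H Z w0 T).card
  set e := (Ed H (T \ Z')).card + att H (T \ Z') Z'
  set f := (T \ Z').card
  set z := Z'.card
  set v := T.card
  set m := M H T
  have h5 : N * d ^ e ≤ (2 * d ^ 2) ^ f * (2 * d ^ 2) ^ z :=
    h1.trans (Nat.mul_le_mul_left _ h2)
  have h6 : N ^ 3 * d ^ (2 * z + e) ≤ 8 ^ v * d ^ (2 * v + 2 + 2 * f + 2 * z) := by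
    calc N ^ 3 * d ^ (2 * z + e) = (N * d ^ z) * (N * d ^ z) * (N * d ^ e) := by
          rw [show 2 * z + e = z + z + e by ring, pow_add, pow_add]; ring
      _ ≤ (2 ^ v * d ^ (v + 1)) * (2 ^ v * d ^ (v + 1)) * ((2 * d ^ 2) ^ f * (2 * d ^ 2) ^ z) :=
          Nat.mul_le_mul (Nat.mul_le_mul hα hα) h5
      _ = 8 ^ v * d ^ (2 * v + 2 + 2 * f + 2 * z) := by
          have h80 : (8 : ℕ) ^ v = 2 ^ v * 2 ^ v * 2 ^ v := by rw [← mul_pow, ← mul_pow]; norm_num
          have h81 : (2 * d ^ 2) ^ v = 2 ^ v * d ^ (2 * v) := by rw [mul_pow, ← pow_mul]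
          rw [← pow_add, hcard, h80, h81,
            show 2 * v + 2 + 2 * f + 2 * z = (v + 1) + (v + 1) + 2 * v by omega, pow_add,
            pow_add]
          ring
  have h7 : N ^ 3 * d ^ (2 * z + e) ≤ (8 ^ v * d ^ (5 * m)) * d ^ (2 * z + e) := by
    refine h6.trans ?_
    rw [mul_assoc, ← pow_add]
    exact Nat.mul_le_mul_left _ (Nat.pow_le_pow_right hd (by omega))
  have h8 : N ^ 3 ≤ 8 ^ v * d ^ (5 * m) := Nat.le_of_mul_le_mul_right h7 (by positivity)
  have h9 : N ^ 3 ≤ (2 ^ v * (s ^ 5) ^ m) ^ 3 := by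
    refine h8.trans (le_of_eq ?_)
    have h80 : (8 : ℕ) ^ v = 2 ^ v * 2 ^ v * 2 ^ v := by rw [← mul_pow, ← mul_pow]; norm_num
    have h81 : (s ^ 3) ^ (5 * m) = (s ^ 5) ^ m * (s ^ 5) ^ m * (s ^ 5) ^ m := by
      rw [← pow_mul, ← pow_mul, ← pow_add, ← pow_add]
      congr 1
      ring
    rw [hdd, h80, h81]
    ring
  exact le_of_pow_le_pow_left₀ (by norm_num) (by positivity) h9

end

end Pool.Agent.R667.QL
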