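import Pool.Agent.R667.QL.Weight

/-!
# First moments of homomorphism counts
-/

open Finset Classical

namespace Pool.Agent.R667.QL

/-- The bipartite graph with both classes of size `q ^ 2` given by `c`: the pair `(i, j)` is an edge
if `c (i, j) = 0`. -/
abbrev RG (q : ℕ) [NeZero q] (c : Fin (q ^ 2) × Fin (q ^ 2) → Fin q) : BG where
  V := Bool × Fin (q ^ 2)
  cls := Prod.fst
  adj := fun x y => (x.1 = true ∧ y.1 = false ∧ c (x.2, y.2) = 0) ∨
    (x.1 = false ∧ y.1 = true ∧ c (y.2, x.2) = 0)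
  symm := by
    rintro x y (⟨h1, h2, h3⟩ | ⟨h1, h2, h3⟩)
    · exact Or.inr ⟨h2, h1, h3⟩
    · exact Or.inl ⟨h2, h1, h3⟩
  bip := by
    rintro x y (⟨h1, h2, h3⟩ | ⟨h1, h2, h3⟩) <;> rw [h1, h2] <;> decide

theorem hom_eq_card (H G : BG) : hom H G = (univ.filter fun φ : H.V → G.V => IsHom H G φ).card := by
  unfold hom
  rw [Nat.card_eq_fintype_card, Fintype.card_subtype]

section

variable {Z : BG} {q : ℕ} [NeZero q]

/-- The host graph. -/
abbrev host (Z : BG) (q : ℕ) [NeZero q] (c : Fin (q ^ 2) × Fin (q ^ 2) → Fin q) : BG :=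
  bsum (RG q c) Z

/-- Class-preserving maps. -/
def CPm (Z : BG) (q : ℕ) (H : BG) (φ : H.V → W Z q) : Prop := ∀ x, cW Z q (φ x) = H.cls x

/-- The weight of a map: product over the distinct image edges. -/
noncomputable def wI (H : BG) (φ : H.V → W Z q) : ℝ :=
  ∏ e ∈ (Ed H univ).image (Prod.map φ φ), pr Z q e.1 e.2

omit [NeZero q] in
theorem wI_nonneg (H : BG) (φ : H.V → W Z q) : 0 ≤ wI H φ := prod_nonneg fun _ _ => pr_nonneg _ _

theorem isHom_iff (H : BG) (c : Fin (q ^ 2) × Fin (q ^ 2) → Fin q) (φ : H.V → W Z q) :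
    IsHom H (host Z q c) φ ↔ CPm Z q H φ ∧
      ∀ e ∈ (Ed H univ).image (Prod.map φ φ), (host Z q c).adj e.1 e.2 := by
  constructor
  · rintro ⟨h1, h2⟩
    refine ⟨h1, fun e he => ?_⟩
    rw [mem_image] at he
    obtain ⟨p, hp, rfl⟩ := he
    exact h2 _ _ (mem_Ed.1 hp).2.2.2
  · rintro ⟨h1, h2⟩
    refine ⟨h1, fun x y hxy => ?_⟩
    by_cases hx : H.cls x = true
    · exact h2 (φ x, φ y) (mem_image.2 ⟨(x, y), mem_Ed.2 ⟨mem_univ _, mem_univ _, hx, hxy⟩, rfl⟩)
    · have hy : H.cls y = true := by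
        have := H.bip _ _ hxy
        cases h : H.cls y
        · rw [h] at this
          cases h' : H.cls x
          · exact absurd h' this
          · exact absurd h' hx
        · rfl
      exact (host Z q c).symm _ _ (h2 (φ y, φ x)
        (mem_image.2 ⟨(y, x), mem_Ed.2 ⟨mem_univ _, mem_univ _, hy, H.symm _ _ hxy⟩, rfl⟩))

omit [NeZero q] in
theorem count_zero [NeZero q] (P : Finset (Fin (q ^ 2) × Fin (q ^ 2))) :
    ((univ.filter fun c : Fin (q ^ 2) × Fin (q ^ 2) → Fin q => ∀ x ∈ P, c x = 0).card : ℝ) =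
      (Fintype.card (Fin (q ^ 2) × Fin (q ^ 2) → Fin q) : ℝ) * (1 / q) ^ P.card := by
  have hq : (q : ℝ) ≠ 0 := Nat.cast_ne_zero.2 (NeZero.ne q)
  have h1 : (univ.filter fun c : Fin (q ^ 2) × Fin (q ^ 2) → Fin q => ∀ x ∈ P, c x = 0) =
      Fintype.piFinset (fun x => if x ∈ P then {0} else univ) := by
    ext c
    rw [mem_filter, Fintype.mem_piFinset]
    simp only [mem_univ, true_and]
    constructor
    · intro h x
      split_ifs with hx
      · rw [mem_singleton]; exact h x hx
      · exact mem_univ _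
    · intro h x hx
      have := h x
      rw [if_pos hx, mem_singleton] at this
      exact this
  rw [h1, Fintype.card_piFinset, Fintype.card_fun, Fintype.card_fin]
  have h2 : ∀ x : Fin (q ^ 2) × Fin (q ^ 2), ((if x ∈ P then ({0} : Finset (Fin q)) else univ).card : ℝ) =
      q * (if x ∈ P then 1 / (q : ℝ) else 1) := by
    intro x
    split_ifs
    · rw [card_singleton]; field_simp; norm_num
    · rw [card_univ, Fintype.card_fin, mul_one]
  rw [Nat.cast_prod, prod_congr rfl fun x _ => h2 x, prod_mul_distrib, prod_const, card_univ,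
    prod_ite_mem, univ_inter, prod_const]
  push_cast
  rfl

theorem count_c (H : BG) (φ : H.V → W Z q) (hφ : CPm Z q H φ) :
    ((univ.filter fun c : Fin (q ^ 2) × Fin (q ^ 2) → Fin q => IsHom H (host Z q c) φ).card : ℝ) =
      (Fintype.card (Fin (q ^ 2) × Fin (q ^ 2) → Fin q) : ℝ) * wI H φ := by
  set F := (Ed H univ).image (Prod.map φ φ) with hF
  have hFc : ∀ e ∈ F, cW Z q e.1 = true ∧ cW Z q e.2 = false := by
    intro e he
    rw [hF, mem_image] at he
    obtain ⟨p, hp, rfl⟩ := he
    rw [mem_Ed] at hp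
    refine ⟨(hφ _).trans hp.2.2.1, (hφ _).trans ?_⟩
    have := H.bip _ _ hp.2.2.2
    rw [hp.2.2.1] at this
    cases h : H.cls p.2
    · rfl
    · exact absurd h.symm this
  by_cases hbad : ∃ e ∈ F, pr Z q e.1 e.2 = 0
  · obtain ⟨e, he, h0⟩ := hbad
    have h1 : wI H φ = 0 := prod_eq_zero he h0
    rw [h1, mul_zero]
    have h2 : (univ.filter fun c : Fin (q ^ 2) × Fin (q ^ 2) → Fin q => IsHom H (host Z q c) φ) = ∅ := by
      rw [filter_eq_empty_iff]
      intro c _ hc
      have h3 := ((isHom_iff H c φ).1 hc).2 e he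
      obtain ⟨e1, e2⟩ := e
      rcases e1 with e1 | e1 <;> rcases e2 with e2 | e2
      · simp only [pr] at h0
        have : (q : ℝ) ≠ 0 := Nat.cast_ne_zero.2 (NeZero.ne q)
        exact absurd h0 (by positivity)
      · exact Sum.not_liftRel_inl_inr h3
      · exact Sum.not_liftRel_inr_inl h3
      · simp only [pr] at h0
        rw [if_pos (Sum.liftRel_inr_inr.1 h3)] at h0
        exact one_ne_zero h0
    rw [h2]
    simp
  · push Not at hbad
    -- the relevant pairs
    let P : Finset (Fin (q ^ 2) × Fin (q ^ 2)) :=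
      univ.filter fun ij => (((Sum.inl (true, ij.1) : W Z q), (Sum.inl (false, ij.2) : W Z q))) ∈ F
    have h1 : (univ.filter fun c : Fin (q ^ 2) × Fin (q ^ 2) → Fin q => IsHom H (host Z q c) φ) =
        (univ.filter fun c : Fin (q ^ 2) × Fin (q ^ 2) → Fin q => ∀ x ∈ P, c x = 0) := by
      refine filter_congr fun c _ => ?_
      rw [isHom_iff]
      constructor
      · rintro ⟨_, h⟩ ⟨i, j⟩ hij
        have h2 := h _ (mem_filter.1 hij).2
        rcases Sum.liftRel_inl_inl.1 h2 with h3 | h3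
        · exact h3.2.2
        · exact absurd (show true = false from h3.1) (by decide)
      · intro h
        refine ⟨hφ, fun e he => ?_⟩
        have h2 := hbad e he
        have h3 := hFc e he
        obtain ⟨e1, e2⟩ := e
        rcases e1 with ⟨b1, i⟩ | e1 <;> rcases e2 with ⟨b2, j⟩ | e2
        · have hb1 : b1 = true := h3.1
          have hb2 : b2 = false := h3.2
          subst hb1 hb2
          exact Sum.LiftRel.inl (Or.inl ⟨rfl, rfl, h (i, j) (mem_filter.2 ⟨mem_univ _, he⟩)⟩)
        · exact absurd rfl h2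
        · exact absurd rfl h2
        · refine Sum.LiftRel.inr ?_
          by_contra hn
          simp only [pr, if_neg hn] at h2
          exact h2 rfl
    rw [h1, count_zero]
    congr 1
    -- the weight
    unfold wI
    rw [← hF, ← prod_filter_mul_prod_filter_not F (fun e => e.1.isLeft = true)]
    have h4 : ∏ e ∈ F.filter (fun e => ¬ e.1.isLeft = true), pr Z q e.1 e.2 = 1 := by
      refine prod_eq_one fun e he => ?_
      rw [mem_filter] at he
      have h2 := hbad e he.1
      obtain ⟨e1, e2⟩ := e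
      rcases e1 with e1 | e1 <;> rcases e2 with e2 | e2
      · exact absurd rfl he.2
      · exact absurd rfl he.2
      · exact absurd rfl h2
      · simp only [pr] at h2 ⊢
        split_ifs at h2 ⊢ with h
        · rfl
        · exact absurd rfl h2
    have h5 : ∏ e ∈ F.filter (fun e => e.1.isLeft = true), pr Z q e.1 e.2 = (1 / (q : ℝ)) ^ P.card := by
      have h6 : F.filter (fun e => e.1.isLeft = true) = P.image
          (fun ij => ((Sum.inl (true, ij.1) : W Z q), (Sum.inl (false, ij.2) : W Z q))) := by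
        ext e
        constructor
        · intro he0
          obtain ⟨he, hl⟩ := mem_filter.1 he0
          have h2 := hbad e he
          have h3 := hFc e he
          obtain ⟨e1, e2⟩ := e
          rcases e1 with ⟨b1, i⟩ | e1 <;> rcases e2 with ⟨b2, j⟩ | e2
          · have hb1 : b1 = true := h3.1
            have hb2 : b2 = false := h3.2
            subst hb1 hb2
            exact mem_image.2 ⟨(i, j), mem_filter.2 ⟨mem_univ _, he⟩, rfl⟩
          · exact absurd rfl h2
          · exact absurd hl (by simp)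
          · exact absurd hl (by simp)
        · intro he0
          obtain ⟨ij, hij, rfl⟩ := mem_image.1 he0
          exact mem_filter.2 ⟨(mem_filter.1 hij).2, rfl⟩
      rw [h6, prod_image]
      · simp only [pr, prod_const]
      · rintro ⟨i, j⟩ _ ⟨i', j'⟩ _ h
        simp only [Prod.mk.injEq, Sum.inl.injEq, true_and] at h
        exact Prod.ext h.1 h.2
    rw [h4, h5, mul_one]

/-- The total number of homomorphisms over all `c`. -/
theorem sum_hom (H : BG) : ∑ c : Fin (q ^ 2) × Fin (q ^ 2) → Fin q, (hom H (host Z q c) : ℝ) =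
    (Fintype.card (Fin (q ^ 2) × Fin (q ^ 2) → Fin q) : ℝ) *
      ∑ φ ∈ univ.filter (fun φ : H.V → W Z q => CPm Z q H φ), wI H φ := by
  have h1 : ∀ c : Fin (q ^ 2) × Fin (q ^ 2) → Fin q, (hom H (host Z q c) : ℝ) =
      ∑ φ : H.V → W Z q, if IsHom H (host Z q c) φ then (1 : ℝ) else 0 := by
    intro c
    rw [hom_eq_card, sum_boole]
  rw [sum_congr rfl fun c _ => h1 c, sum_comm, mul_sum,
    ← sum_filter_add_sum_filter_not univ (fun φ : H.V → W Z q => CPm Z q H φ)]
  have h2 : ∑ φ ∈ univ.filter (fun φ : H.V → W Z q => ¬ CPm Z q H φ),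
      ∑ c : Fin (q ^ 2) × Fin (q ^ 2) → Fin q, (if IsHom H (host Z q c) φ then (1 : ℝ) else 0) = 0 := by
    refine sum_eq_zero fun φ hφ => sum_eq_zero fun c _ => if_neg fun h => ?_
    exact (mem_filter.1 hφ).2 ((isHom_iff H c φ).1 h).1
  rw [h2, add_zero]
  refine sum_congr rfl fun φ hφ => ?_
  rw [sum_boole, count_c H φ (mem_filter.1 hφ).2]

end

/-- The upper bound for the first moment. -/
theorem sum_wI_le {Z : BG} {s : ℕ} (z0 : Z.V) (hs : 0 < s) (hZ : Good Z (s ^ 3))
    (hcl : ∀ b, (univ.filter fun z : Z.V => Z.cls z = b).card ≤ 2 * (s ^ 5) ^ 2) (H : BG) :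
    ∑ φ ∈ univ.filter (fun φ : H.V → W Z (s ^ 5) => CPm Z (s ^ 5) H φ), wI H φ ≤
      (Fintype.card (H.V → H.V) * 4 ^ Fintype.card H.V : ℝ) * ((s : ℝ) ^ 5) ^ M H univ := by
  have hs' : (1 : ℝ) ≤ s := by exact_mod_cast hs
  have hq : (1 : ℝ) ≤ (s : ℝ) ^ 5 := one_le_pow₀ hs'
  let CP : Finset (H.V → H.V) := univ.filter fun ρ => ∀ x, H.cls (ρ x) = H.cls x
  have hmain : ∑ φ ∈ univ.filter (fun φ : H.V → W Z (s ^ 5) => CPm Z (s ^ 5) H φ), wI H φ ≤
      ∑ a ∈ CP ×ˢ (univ : Finset (H.V → W Z (s ^ 5))),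
        (if a.2 ∈ Inj z0 H (univ.image a.1) then
          ∏ e ∈ (Ed H univ).image (Prod.map a.1 a.1), pr Z (s ^ 5) (a.2 e.1) (a.2 e.2) else 0) := by
    rcases isEmpty_or_nonempty H.V with he | ⟨⟨x0⟩⟩
    · refine sum_le_of_inj _ _ (fun φ => (id, φ)) ?_ ?_ _ _ ?_ ?_
      · intro φ _
        rw [mem_product]
        exact ⟨mem_filter.2 ⟨mem_univ _, fun _ => rfl⟩, mem_univ _⟩
      · intro φ _ ψ _ h
        exact congrArg Prod.snd h
      · intro φ _
        have h1 : Ed H univ = ∅ := by ext p; exact (he.false p.1).elim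
        rw [if_pos]
        · unfold wI; rw [h1]; simp
        · rw [mem_Inj]
          exact ⟨fun x => (he.false x).elim, fun x => (he.false x).elim, fun x => (he.false x).elim⟩
      · intro a _
        split_ifs
        · exact prod_nonneg fun _ _ => pr_nonneg _ _
        · exact le_rfl
    · let σ : (H.V → W Z (s ^ 5)) → W Z (s ^ 5) → H.V := fun φ w =>
        if h : ∃ x, φ x = w then h.choose else x0
      have hσ : ∀ (φ : H.V → W Z (s ^ 5)) (x : H.V), φ (σ φ (φ x)) = φ x := by
        intro φ x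
        have h : ∃ x', φ x' = φ x := ⟨x, rfl⟩
        have e : σ φ (φ x) = h.choose := dif_pos h
        rw [e]
        exact h.choose_spec
      let ρ : (H.V → W Z (s ^ 5)) → H.V → H.V := fun φ x => σ φ (φ x)
      let ψ : (H.V → W Z (s ^ 5)) → H.V → W Z (s ^ 5) := fun φ y =>
        if y ∈ univ.image (ρ φ) then φ y else Sum.inr z0
      have hψ : ∀ φ x, ψ φ (ρ φ x) = φ x := by
        intro φ x
        change (if ρ φ x ∈ univ.image (ρ φ) then φ (ρ φ x) else Sum.inr z0) = φ x
        rw [if_pos (mem_image_of_mem _ (mem_univ _))]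
        exact hσ φ x
      refine sum_le_of_inj _ _ (fun φ => (ρ φ, ψ φ)) ?_ ?_ _ _ ?_ ?_
      · intro φ hφ
        have hφ' : CPm Z (s ^ 5) H φ := (mem_filter.1 hφ).2
        rw [mem_product]
        refine ⟨mem_filter.2 ⟨mem_univ _, fun x => ?_⟩, mem_univ _⟩
        change H.cls (σ φ (φ x)) = H.cls x
        rw [← hφ' (σ φ (φ x)), hσ φ x, hφ' x]
      · intro φ _ φ' _ h
        have e1 : ρ φ = ρ φ' := congrArg Prod.fst h
        have e2 : ψ φ = ψ φ' := congrArg Prod.snd h
        funext x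
        rw [← hψ φ x, ← hψ φ' x, e1, e2]
      · intro φ hφ
        have hφ' : CPm Z (s ^ 5) H φ := (mem_filter.1 hφ).2
        have hmem : ψ φ ∈ Inj z0 H (univ.image (ρ φ)) := by
          rw [mem_Inj]
          refine ⟨fun x hx => if_neg hx, fun x hx => ?_, fun x hx y hy hxy => ?_⟩
          · have : ψ φ x = φ x := if_pos hx
            rw [this]; exact hφ' x
          · rw [mem_image] at hx hy
            obtain ⟨x', _, rfl⟩ := hx
            obtain ⟨y', _, rfl⟩ := hy
            rw [hψ, hψ] at hxy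
            change σ φ (φ x') = σ φ (φ y')
            rw [hxy]
        dsimp only
        rw [if_pos hmem]
        refine le_of_eq ?_
        unfold wI
        have himg : (Ed H univ).image (Prod.map φ φ) =
            ((Ed H univ).image (Prod.map (ρ φ) (ρ φ))).image (Prod.map (ψ φ) (ψ φ)) := by
          rw [image_image]
          refine image_congr fun p _ => ?_
          simp only [Function.comp, Prod.map]
          rw [hψ, hψ]
        rw [himg, prod_image]
        · rfl
        · intro a ha b hb hab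
          rw [mem_coe, mem_image] at ha hb
          obtain ⟨a', _, rfl⟩ := ha
          obtain ⟨b', _, rfl⟩ := hb
          simp only [Prod.map, Prod.mk.injEq] at hab ⊢
          rw [mem_Inj] at hmem
          exact ⟨hmem.2.2 _ (mem_image_of_mem _ (mem_univ _)) _ (mem_image_of_mem _ (mem_univ _)) hab.1,
            hmem.2.2 _ (mem_image_of_mem _ (mem_univ _)) _ (mem_image_of_mem _ (mem_univ _)) hab.2⟩
      · intro a _
        split_ifs
        · exact prod_nonneg fun _ _ => pr_nonneg _ _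
        · exact le_rfl
  refine hmain.trans ?_
  rw [sum_product]
  have hJ : ∀ ρ ∈ CP, ∑ ψ : H.V → W Z (s ^ 5), (if ψ ∈ Inj z0 H (univ.image ρ) then
          ∏ e ∈ (Ed H univ).image (Prod.map ρ ρ), pr Z (s ^ 5) (ψ e.1) (ψ e.2) else 0) ≤
      4 ^ Fintype.card H.V * ((s : ℝ) ^ 5) ^ M H univ := by
    intro ρ hρ
    have hρ' : ∀ x, H.cls (ρ x) = H.cls x := (mem_filter.1 hρ).2
    have e1 : ∑ ψ : H.V → W Z (s ^ 5), (if ψ ∈ Inj z0 H (univ.image ρ) then
          ∏ e ∈ (Ed H univ).image (Prod.map ρ ρ), pr Z (s ^ 5) (ψ e.1) (ψ e.2) else 0) =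
        J (s ^ 5) z0 (push H ρ hρ') (univ.image ρ) := by
      rw [← sum_filter]
      unfold J wt
      rw [Ed_push]
      refine sum_congr ?_ fun _ _ => rfl
      ext ψ
      rw [mem_filter]
      simp only [mem_univ, true_and]
      rw [mem_Inj, mem_Inj]
    rw [e1]
    refine (J_le z0 hs hZ hcl _ _).trans ?_
    have h1 : (univ.image ρ).card ≤ Fintype.card H.V := card_le_univ _
    have h2 := M_push H ρ hρ'
    exact mul_le_mul (pow_le_pow_right₀ (by norm_num) h1) (pow_le_pow_right₀ hq h2) (by positivity)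
      (by positivity)
  refine (sum_le_sum hJ).trans ?_
  rw [sum_const, nsmul_eq_mul, ← mul_assoc]
  have h3 : (CP.card : ℝ) ≤ Fintype.card (H.V → H.V) := by
    exact_mod_cast card_le_univ _
  gcongr

/-- The constant in the upper bound. -/
noncomputable def CC (H : BG) : ℝ := (Fintype.card (H.V → H.V) * 4 ^ Fintype.card H.V : ℝ)

theorem CC_nonneg (H : BG) : 0 ≤ CC H := by unfold CC; positivity

theorem sum_wI_le' {Z : BG} {s : ℕ} (z0 : Z.V) (hs : 0 < s) (hZ : Good Z (s ^ 3))
    (hcl : ∀ b, (univ.filter fun z : Z.V => Z.cls z = b).card ≤ 2 * (s ^ 5) ^ 2) (H : BG) :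
    ∑ φ ∈ univ.filter (fun φ : H.V → W Z (s ^ 5) => CPm Z (s ^ 5) H φ), wI H φ ≤
      CC H * ((s : ℝ) ^ 5) ^ M H univ := sum_wI_le z0 hs hZ hcl H

/-- The lower bound for the first moment. -/
theorem sum_wI_ge {Z : BG} {s : ℕ} (hs : 0 < s) (H : BG) :
    ((s : ℝ) ^ 5) ^ M H univ ≤
    ∑ φ ∈ univ.filter (fun φ : H.V → W Z (s ^ 5) => CPm Z (s ^ 5) H φ), wI H φ := by
  have hs' : (1 : ℝ) ≤ s := by exact_mod_cast hs
  have hq : (1 : ℝ) ≤ (s : ℝ) ^ 5 := one_le_pow₀ hs'
  have : NeZero ((s ^ 5) ^ 2) := ⟨by positivity⟩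
  obtain ⟨ρ, hρ1, _, hρ3⟩ := M_exists H univ
  let Θ : Finset (H.V → Fin ((s ^ 5) ^ 2)) :=
    Fintype.piFinset fun x => if x ∈ univ.image ρ then univ else {0}
  have hΘ : (Θ.card : ℝ) = (((s : ℝ) ^ 5) ^ 2) ^ (univ.image ρ).card := by
    have h1 : Θ.card = ((s ^ 5) ^ 2) ^ (univ.image ρ).card := by
      rw [Fintype.card_piFinset]
      have h2 : ∀ x : H.V, (if x ∈ univ.image ρ then (univ : Finset (Fin ((s ^ 5) ^ 2))) else {0}).card =
          if x ∈ univ.image ρ then (s ^ 5) ^ 2 else 1 := by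
        intro x
        split_ifs <;> simp
      rw [prod_congr rfl fun x _ => h2 x, prod_ite_mem, univ_inter, prod_const]
    rw [h1]
    push_cast
    rfl
  have hmain : ∑ θ ∈ Θ, (1 / ((s : ℝ) ^ 5)) ^ ((Ed H univ).image (Prod.map ρ ρ)).card ≤
      ∑ φ ∈ univ.filter (fun φ : H.V → W Z (s ^ 5) => CPm Z (s ^ 5) H φ), wI H φ := by
    refine sum_le_of_inj _ _ (fun θ x => Sum.inl (H.cls x, θ (ρ x))) ?_ ?_ _ _ ?_ ?_
    · intro θ _
      exact mem_filter.2 ⟨mem_univ _, fun x => rfl⟩
    · intro θ hθ θ' hθ' h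
      rw [Fintype.mem_piFinset] at hθ hθ'
      funext y
      by_cases hy : y ∈ univ.image ρ
      · rw [mem_image] at hy
        obtain ⟨x, _, rfl⟩ := hy
        have := congrFun h x
        simp only [Sum.inl.injEq, Prod.mk.injEq, true_and] at this
        exact this
      · have h1 := hθ y
        have h2 := hθ' y
        rw [if_neg hy, mem_singleton] at h1 h2
        rw [h1, h2]
    · intro θ _
      unfold wI
      have h1 : ∀ e ∈ (Ed H univ).image (Prod.map (fun x => (Sum.inl (H.cls x, θ (ρ x)) : W Z (s ^ 5)))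
          (fun x => (Sum.inl (H.cls x, θ (ρ x)) : W Z (s ^ 5)))),
          pr Z (s ^ 5) e.1 e.2 = 1 / ((s : ℝ) ^ 5) := by
        intro e he
        rw [mem_image] at he
        obtain ⟨p, _, rfl⟩ := he
        simp only [Prod.map, pr]
        push_cast
        rfl
      rw [prod_congr rfl h1, prod_const]
      refine pow_le_pow_of_le_one (by positivity) ?_ ?_
      · rw [div_le_one (by positivity)]; exact hq
      · have h2 : (Ed H univ).image (Prod.map (fun x => (Sum.inl (H.cls x, θ (ρ x)) : W Z (s ^ 5)))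
          (fun x => (Sum.inl (H.cls x, θ (ρ x)) : W Z (s ^ 5)))) =
          ((Ed H univ).image (Prod.map ρ ρ)).image
            (Prod.map (fun x => (Sum.inl (H.cls x, θ x) : W Z (s ^ 5)))
            (fun x => (Sum.inl (H.cls x, θ x) : W Z (s ^ 5)))) := by
          rw [image_image]
          refine image_congr fun p _ => ?_
          simp only [Function.comp, Prod.map, hρ1]
        rw [h2]
        exact card_image_le
    · intro φ _
      exact wI_nonneg _ _
  refine le_trans (le_of_eq ?_) hmain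
  rw [sum_const, nsmul_eq_mul, hΘ, ← pow_mul ((s : ℝ) ^ 5) 2, hρ3, one_div, inv_pow, pow_add,
    mul_assoc, mul_inv_cancel₀ (by positivity), mul_one]

end Pool.Agent.R667.QL
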