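import Pool.Agent.R667.QL.Plane

/-!
# The cospectral pairs
-/

open Finset Classical

namespace Pool.Agent.R667.QL

theorem r_add_M (H : BG) : r H + M H univ = 2 * Fintype.card H.V := by
  obtain ⟨ρ, h1, _, h3⟩ := M_exists H univ
  have hne : ∀ H' : BG, IsCollapse H H' → 2 * Fintype.card H'.V ≤ M H univ + numEdges H' := by
    rintro H' ⟨φ, hφ, hs, he⟩
    have h := M_ge (H := H) (S := univ) φ (fun x _ y _ hxy => by rw [← hφ.1 x, ← hφ.1 y, hxy])
    rw [image_univ_of_surjective hs, card_univ] at h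
    have e1 : ((Ed H univ).image (Prod.map φ φ)).card = numEdges H' := by
      unfold numEdges
      rw [Nat.card_coe_set_eq, ← Set.ncard_coe_finset]
      congr 1
      ext p
      rw [mem_coe, mem_image]
      constructor
      · rintro ⟨e, he', rfl⟩
        rw [mem_Ed] at he'
        exact ⟨(hφ.1 _).trans he'.2.2.1, hφ.2 _ _ he'.2.2.2⟩
      · intro hp
        obtain ⟨p0, hp0, h'⟩ := he p hp
        exact ⟨p0, mem_Ed.2 ⟨mem_univ _, mem_univ _, hp0.1, hp0.2⟩, h'⟩
    rw [e1] at h
    exact h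
  -- the optimal collapse
  let H0 : BG :=
    { V := {y // y ∈ (univ : Finset H.V).image ρ}
      cls := fun y => H.cls y.1
      adj := fun x y => ∃ x' y', ρ x' = x.1 ∧ ρ y' = y.1 ∧ H.adj x' y'
      symm := by
        rintro x y ⟨x', y', h1, h2, h3⟩
        exact ⟨y', x', h2, h1, H.symm _ _ h3⟩
      bip := by
        rintro x y ⟨x', y', h4, h5, h6⟩
        rw [← h4, ← h5, h1, h1]
        exact H.bip _ _ h6 }
  have hcol : IsCollapse H H0 := by
    refine ⟨fun x => ⟨ρ x, mem_image_of_mem _ (mem_univ _)⟩, ⟨fun x => h1 x,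
      fun x y hxy => ⟨x, y, rfl, rfl, hxy⟩⟩, ?_, ?_⟩
    · rintro ⟨y, hy⟩
      obtain ⟨x, _, hx⟩ := mem_image.1 hy
      exact ⟨x, Subtype.ext hx⟩
    · rintro ⟨⟨y, hy⟩, ⟨z, hz⟩⟩ ⟨hc, x', y', h4, h5, h6⟩
      refine ⟨(x', y'), ⟨?_, h6⟩, Prod.ext (Subtype.ext h4) (Subtype.ext h5)⟩
      change H.cls y = true at hc
      change H.cls x' = true
      rw [← h1 x', h4]
      exact hc
  have hV0 : Fintype.card H0.V = ((univ : Finset H.V).image ρ).card := by
    change Fintype.card {y // y ∈ (univ : Finset H.V).image ρ} = _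
    exact Fintype.card_coe _
  have hE0 : numEdges H0 ≤ ((Ed H univ).image (Prod.map ρ ρ)).card := by
    unfold numEdges
    rw [Nat.card_coe_set_eq, ← Set.ncard_coe_finset]
    refine Set.ncard_le_ncard_of_injOn (fun p => (p.1.1, p.2.1)) ?_ ?_
    · rintro ⟨⟨y, hy⟩, ⟨z, hz⟩⟩ ⟨hc, x', y', h4, h5, h6⟩
      rw [mem_coe, mem_image]
      refine ⟨(x', y'), mem_Ed.2 ⟨mem_univ _, mem_univ _, ?_, h6⟩, Prod.ext h4 h5⟩
      change H.cls y = true at hc
      rw [← h1 x', h4]
      exact hc
    · rintro ⟨⟨y, hy⟩, ⟨z, hz⟩⟩ _ ⟨⟨y', hy'⟩, ⟨z', hz'⟩⟩ _ h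
      simp only [Prod.mk.injEq] at h
      obtain ⟨rfl, rfl⟩ := h
      rfl
  have hle : ((univ : Finset H.V).image ρ).card ≤ Fintype.card H.V := card_le_univ _
  have hmem : numEdges H0 + 2 * (Fintype.card H.V - Fintype.card H0.V) ∈
      {k | ∃ H' : BG, IsCollapse H H' ∧
        k = numEdges H' + 2 * (Fintype.card H.V - Fintype.card H'.V)} := ⟨H0, hcol, rfl⟩
  have hr1 : r H ≤ numEdges H0 + 2 * (Fintype.card H.V - Fintype.card H0.V) := Nat.sInf_le hmem
  obtain ⟨H', hc', hr2⟩ := Nat.sInf_mem (⟨_, hmem⟩ : Set.Nonempty _)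
  have hr2' : r H = numEdges H' + 2 * (Fintype.card H.V - Fintype.card H'.V) := hr2
  have h5 := hne H' hc'
  obtain ⟨φ, _, hs, _⟩ := hc'
  have h6 : Fintype.card H'.V ≤ Fintype.card H.V := Fintype.card_le_of_surjective φ hs
  omega

theorem hom_iso {H H' : BG} (e : H.V ≃ H'.V) (hc : ∀ x, H'.cls (e x) = H.cls x)
    (ha : ∀ x y, H'.adj (e x) (e y) ↔ H.adj x y) (G : BG) : hom H G = hom H' G := by
  unfold hom
  refine Nat.card_congr ⟨fun φ => ⟨fun y => φ.1 (e.symm y), fun y => ?_, fun x y hxy => ?_⟩,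
    fun ψ => ⟨fun x => ψ.1 (e x), fun x => ?_, fun x y hxy => ?_⟩, ?_, ?_⟩
  · rw [φ.2.1, ← hc, e.apply_symm_apply]
  · refine φ.2.2 _ _ ((ha _ _).1 ?_)
    rw [e.apply_symm_apply, e.apply_symm_apply]
    exact hxy
  · rw [ψ.2.1, hc]
  · exact ψ.2.2 _ _ ((ha _ _).2 hxy)
  · rintro ⟨φ, hφ⟩
    refine Subtype.ext (funext fun x => ?_)
    simp
  · rintro ⟨ψ, hψ⟩
    refine Subtype.ext (funext fun x => ?_)
    simp

theorem M_iso_le {H H' : BG} (e : H.V ≃ H'.V) (hc : ∀ x, H'.cls (e x) = H.cls x)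
    (ha : ∀ x y, H'.adj (e x) (e y) ↔ H.adj x y) : M H univ ≤ M H' univ := by
  obtain ⟨ρ, h1, _, h3⟩ := M_exists H univ
  have h := M_ge (H := H') (S := univ) (fun y => ρ (e.symm y)) (fun x _ y _ hxy => by
    have hc' : ∀ y, H.cls (ρ (e.symm y)) = H'.cls y := fun y => by
      rw [h1, ← hc, e.apply_symm_apply]
    rw [← hc' x, ← hc' y, hxy])
  have e1 : (univ : Finset H'.V).image (fun y => ρ (e.symm y)) = univ.image ρ := by
    ext z
    rw [mem_image, mem_image]
    constructor
    · rintro ⟨y, _, rfl⟩; exact ⟨_, mem_univ _, rfl⟩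
    · rintro ⟨x, _, rfl⟩; exact ⟨e x, mem_univ _, by simp⟩
  have e2 : (Ed H' univ).image (Prod.map (fun y => ρ (e.symm y)) (fun y => ρ (e.symm y))) =
      (Ed H univ).image (Prod.map ρ ρ) := by
    ext z
    rw [mem_image, mem_image]
    constructor
    · rintro ⟨p, hp, rfl⟩
      rw [mem_Ed] at hp
      refine ⟨(e.symm p.1, e.symm p.2), mem_Ed.2 ⟨mem_univ _, mem_univ _, ?_, ?_⟩, rfl⟩
      · rw [← hc, e.apply_symm_apply]; exact hp.2.2.1
      · rw [← ha, e.apply_symm_apply, e.apply_symm_apply]; exact hp.2.2.2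
    · rintro ⟨p, hp, rfl⟩
      rw [mem_Ed] at hp
      refine ⟨(e p.1, e p.2), mem_Ed.2 ⟨mem_univ _, mem_univ _, ?_, ?_⟩, ?_⟩
      · rw [hc]; exact hp.2.2.1
      · exact (ha _ _).2 hp.2.2.2
      · simp [Prod.map]
  rw [e1, e2] at h
  omega

/-- Index type of the graphs with at most `n` vertices. -/
abbrev Idx (n : ℕ) : Type := Σ a : Fin (n + 1), (Fin a → Bool) × (Fin a → Fin a → Bool)

def Gr {n : ℕ} (i : Idx n) : BG where
  V := Fin i.1
  cls := i.2.1
  adj := fun x y => (i.2.2 x y = true ∨ i.2.2 y x = true) ∧ i.2.1 x ≠ i.2.1 y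
  symm := fun _ _ h => ⟨h.1.symm, h.2.symm⟩
  bip := fun _ _ h => h.2

theorem exists_Gr (n : ℕ) (H : BG) (hH : Fintype.card H.V ≤ n) :
    ∃ i : Idx n, (∀ G, hom H G = hom (Gr i) G) ∧ M H univ = M (Gr i) univ := by
  let e : H.V ≃ Fin (Fintype.card H.V) := Fintype.equivFin H.V
  let i : Idx n := ⟨⟨Fintype.card H.V, by omega⟩, (fun x => H.cls (e.symm x),
    fun x y => decide (H.adj (e.symm x) (e.symm y)))⟩
  let e' : H.V ≃ (Gr i).V := e
  have hc : ∀ x, (Gr i).cls (e' x) = H.cls x := fun x => by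
    change H.cls (e.symm (e x)) = H.cls x
    rw [e.symm_apply_apply]
  have ha : ∀ x y, (Gr i).adj (e' x) (e' y) ↔ H.adj x y := fun x y => by
    change (decide (H.adj (e.symm (e x)) (e.symm (e y))) = true ∨
      decide (H.adj (e.symm (e y)) (e.symm (e x))) = true) ∧
      H.cls (e.symm (e x)) ≠ H.cls (e.symm (e y)) ↔ _
    rw [e.symm_apply_apply, e.symm_apply_apply, decide_eq_true_iff, decide_eq_true_iff]
    constructor
    · rintro ⟨h | h, _⟩
      · exact h
      · exact H.symm _ _ h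
    · intro h
      exact ⟨Or.inl h, H.bip _ _ h⟩
  refine ⟨i, fun G => hom_iso e' hc ha G, le_antisymm (M_iso_le e' hc ha) ?_⟩
  refine M_iso_le e'.symm (fun x => ?_) (fun x y => ?_)
  · rw [← hc, e'.apply_symm_apply]
  · rw [← ha, e'.apply_symm_apply, e'.apply_symm_apply]

/-- The star with `m` leaves, its centre in the first class. -/
def Star (m : ℕ) : BG where
  V := Option (Fin m)
  cls := fun x => x.isNone
  adj := fun x y => x.isNone ≠ y.isNone
  symm := fun _ _ h => h.symm
  bip := fun _ _ h => h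

theorem M_Star (m : ℕ) : M (Star m) univ ≤ m + 2 := by
  obtain ⟨ρ, h1, _, h3⟩ := M_exists (Star m) univ
  let L : Finset (Star m).V := (univ : Finset (Fin m)).image (fun i => ρ (some i))
  have e1 : ((univ : Finset (Star m).V).image ρ).card ≤ L.card + 1 := by
    have : (univ : Finset (Star m).V).image ρ ⊆ insert (ρ none) L := by
      intro z hz
      obtain ⟨x, _, rfl⟩ := mem_image.1 hz
      rw [mem_insert]
      rcases x with _ | x
      · exact Or.inl rfl
      · exact Or.inr (mem_image.2 ⟨x, mem_univ _, rfl⟩)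
    exact (card_le_card this).trans (card_insert_le _ _)
  have e2 : L.card ≤ ((Ed (Star m) univ).image (Prod.map ρ ρ)).card := by
    have : L.image (fun z => (ρ none, z)) ⊆ (Ed (Star m) univ).image (Prod.map ρ ρ) := by
      intro z hz
      obtain ⟨y, hy, rfl⟩ := mem_image.1 hz
      obtain ⟨x, _, rfl⟩ := mem_image.1 hy
      refine mem_image.2 ⟨(none, some x), mem_Ed.2 ⟨mem_univ _, mem_univ _, rfl, ?_⟩, rfl⟩
      change (none : Option (Fin m)).isNone ≠ (some x).isNone
      simp
    have h := card_le_card this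
    rwa [card_image_of_injective _ (fun a b hab => congrArg Prod.snd hab)] at h
  have e3 : L.card ≤ m := card_image_le.trans (by simp)
  omega

theorem r_Star (m : ℕ) : m ≤ r (Star m) := by
  have h1 := r_add_M (Star m)
  have h2 := M_Star m
  have h3 : Fintype.card (Star m).V = m + 1 := by
    change Fintype.card (Option (Fin m)) = m + 1
    rw [Fintype.card_option, Fintype.card_fin]
  omega

theorem r_K2 : r K2 = 1 := by
  have h1 := r_add_M K2
  have h3 : Fintype.card K2.V = 2 := by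
    change Fintype.card Bool = 2
    rfl
  have hE : Ed K2 univ = {((true, false) : Bool × Bool)} := by
    ext ⟨x, y⟩
    rw [mem_Ed]
    constructor
    · rintro ⟨_, _, h4, h5⟩
      have hx : x = true := h4
      have hy : y = false := by
        have : x ≠ y := h5
        rw [hx] at this
        cases y
        · rfl
        · exact absurd rfl this
      rw [hx, hy]
      exact mem_singleton_self _
    · intro h
      have h' : (x, y) = (true, false) := mem_singleton.1 h
      have hx : x = true := congrArg Prod.fst h'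
      have hy : y = false := congrArg Prod.snd h'
      refine ⟨mem_univ _, mem_univ _, hx, ?_⟩
      change x ≠ y
      rw [hx, hy]
      exact Bool.noConfusion
  have h4 := two_card_le K2 univ
  have hc1 : (Ed K2 univ).card = 1 := by rw [hE]; rfl
  rw [card_univ, h3, hc1] at h4
  obtain ⟨ρ, _, _, h5⟩ := M_exists K2 univ
  have h6 : ((univ : Finset K2.V).image ρ).card ≤ 2 := by
    rw [← h3]; exact card_le_univ _
  have h7 : 1 ≤ ((Ed K2 univ).image (Prod.map ρ ρ)).card := by
    rw [Nat.one_le_iff_ne_zero, ← Nat.pos_iff_ne_zero, card_pos]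
    refine Nonempty.image ?_ _
    rw [← card_pos, hc1]
    exact one_pos
  omega

theorem classCard_eq (G : BG) (b : Bool) :
    classCard G b = (univ.filter fun x : G.V => G.cls x = b).card := by
  unfold classCard
  rw [Nat.card_eq_fintype_card, Fintype.card_subtype]

theorem classCard_host (Z : BG) (q : ℕ) [NeZero q] (c : Fin (q ^ 2) × Fin (q ^ 2) → Fin q) (b : Bool) :
    classCard (host Z q c) b = q ^ 2 + classCard Z b := by
  rw [classCard_eq, classCard_eq]
  have e1 : (univ.filter fun x : (host Z q c).V => (host Z q c).cls x = b) =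
      ((univ : Finset (Fin (q ^ 2))).image (fun i => (Sum.inl (b, i) : W Z q))) ∪
      ((univ.filter fun x : Z.V => Z.cls x = b).image Sum.inr) := by
    ext z
    rw [mem_filter, mem_union, mem_image, mem_image]
    constructor
    · rintro ⟨_, hz⟩
      rcases z with ⟨b', i⟩ | z
      · left
        have : b' = b := hz
        exact ⟨i, mem_univ _, by rw [this]⟩
      · right
        exact ⟨z, mem_filter.2 ⟨mem_univ _, hz⟩, rfl⟩
    · rintro (⟨i, _, rfl⟩ | ⟨z', hz', rfl⟩)
      · exact ⟨mem_univ _, rfl⟩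
      · exact ⟨mem_univ _, (mem_filter.1 hz').2⟩
  rw [e1, card_union_of_disjoint, card_image_of_injective, card_image_of_injective _ Sum.inr_injective,
    card_univ, Fintype.card_fin]
  · intro i j hij
    have := Sum.inl_injective hij
    exact congrArg Prod.snd this
  · rw [disjoint_left]
    intro z hz hz'
    obtain ⟨i, _, rfl⟩ := mem_image.1 hz
    obtain ⟨z', _, h⟩ := mem_image.1 hz'
    exact Sum.inr_ne_inl h

end Pool.Agent.R667.QL
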