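import Pool.Agent.R667.QL.Select

/-!
# Affine planes, stars and their spectra
-/

open Finset Classical

namespace Pool.Agent.R667.QL

/-- The bipartite graph of an incidence relation. -/
abbrev ofInc (P L : Type) [Fintype P] [Fintype L] (I : P → L → Prop) : BG where
  V := P ⊕ L
  cls := Sum.elim (fun _ => true) (fun _ => false)
  adj := fun x y => Sum.elim (fun p => Sum.elim (fun _ => False) (fun l => I p l) y)
    (fun l => Sum.elim (fun p => I p l) (fun _ => False) y) x
  symm := by
    rintro (x | x) (y | y) h <;> exact h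
  bip := by
    rintro (x | x) (y | y) h
    · exact h.elim
    · exact Bool.noConfusion
    · exact Bool.noConfusion
    · exact h.elim

noncomputable def ind (p : Prop) : ℝ := if p then 1 else 0

theorem ind_pos {p : Prop} (h : p) : ind p = 1 := if_pos h

theorem ind_neg {p : Prop} (h : ¬ p) : ind p = 0 := if_neg h

/-- The adjacency matrix. -/
noncomputable def adjM (G : BG) : Matrix G.V G.V ℝ := Matrix.of fun x y => ind (G.adj x y)

theorem spectrum_eq (G : BG) [inst : DecidableEq G.V] : spectrum G = (adjM G).charpoly.roots := by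
  have h : inst = fun a b => propDecidable (a = b) := Subsingleton.elim _ _
  subst h
  rfl

theorem spectrum_bsum (A B : BG) [DecidableEq A.V] [DecidableEq B.V] :
    spectrum (bsum A B) = ((adjM A).charpoly * (adjM B).charpoly).roots := by
  rw [spectrum_eq (bsum A B), ← Matrix.charpoly_fromBlocks_zero₁₂ (M₂₁ := 0)]
  congr 2
  ext (x | x) (y | y)
  · simp only [adjM, Matrix.of_apply, Matrix.fromBlocks_apply₁₁, Sum.liftRel_inl_inl]
  · simp only [adjM, Matrix.of_apply, Matrix.fromBlocks_apply₁₂, Matrix.zero_apply]
    exact ind_neg Sum.not_liftRel_inl_inr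
  · simp only [adjM, Matrix.of_apply, Matrix.fromBlocks_apply₂₁, Matrix.zero_apply]
    exact ind_neg Sum.not_liftRel_inr_inl
  · simp only [adjM, Matrix.of_apply, Matrix.fromBlocks_apply₂₂, Sum.liftRel_inr_inr]

theorem eval_inc {P L : Type} [Fintype P] [Fintype L] [DecidableEq P] [DecidableEq L]
    (I : P → L → Prop) {x : ℝ} (hx : x ≠ 0) :
    (adjM (ofInc P L I)).charpoly.eval x = x ^ Fintype.card L *
      (Matrix.of fun p p' : P => (if p = p' then x else 0) -
        x⁻¹ * ∑ l : L, ind (I p l) * ind (I p' l)).det := by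
  rw [Matrix.eval_charpoly]
  let N : Matrix P L ℝ := Matrix.of fun p l => ind (I p l)
  have h1 : Matrix.scalar (P ⊕ L) x - adjM (ofInc P L I) =
      Matrix.fromBlocks (x • (1 : Matrix P P ℝ)) (-N) (-N.transpose) (x • (1 : Matrix L L ℝ)) := by
    have e0 : ind False = 0 := ind_neg not_false
    ext (a | a) (b | b)
    · simp [adjM, Matrix.scalar_apply, Matrix.diagonal_apply, Matrix.one_apply, e0]
    · simp [adjM, Matrix.scalar_apply, N]
    · simp [adjM, Matrix.scalar_apply, N]
    · simp [adjM, Matrix.scalar_apply, Matrix.diagonal_apply, Matrix.one_apply, e0]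
  rw [h1]
  let _ : Invertible (x • (1 : Matrix L L ℝ)) :=
    ⟨x⁻¹ • (1 : Matrix L L ℝ), by
      rw [Matrix.smul_mul, Matrix.mul_smul, Matrix.one_mul, smul_smul, inv_mul_cancel₀ hx, one_smul],
      by rw [Matrix.smul_mul, Matrix.mul_smul, Matrix.one_mul, smul_smul, mul_inv_cancel₀ hx, one_smul]⟩
  rw [Matrix.det_fromBlocks₂₂, Matrix.det_smul, Matrix.det_one, mul_one]
  congr 2
  have h2 : (⅟(x • (1 : Matrix L L ℝ))) = x⁻¹ • (1 : Matrix L L ℝ) := rfl
  rw [h2]
  ext p p'
  rw [Matrix.sub_apply, Matrix.smul_apply, Matrix.one_apply, Matrix.of_apply, Matrix.mul_smul,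
    Matrix.mul_one, Matrix.smul_mul, Matrix.neg_mul, Matrix.mul_neg, neg_neg, Matrix.smul_apply,
    Matrix.mul_apply]
  simp only [N, Matrix.transpose_apply, Matrix.of_apply, smul_eq_mul]
  congr 1
  split_ifs <;> simp

section

variable (F : Type) [Field F] [Fintype F]

abbrev Ln : Type := (Option F × F) ⊕ ({a : F × F // a ≠ 0} × F)

variable {F}

def bm : Option F → F × F → F
  | none, p => p.1
  | some m, p => p.2 - m * p.1

omit [Fintype F] in
theorem bm_inj {p p' : F × F} (hp : p ≠ p') {m m' : Option F} (h : bm m p = bm m p')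
    (h' : bm m' p = bm m' p') : m = m' := by
  have key : ∀ m : F, p.1 = p'.1 → p.2 - m * p.1 = p'.2 - m * p'.1 → False := by
    intro m h1 h2
    rw [h1] at h2
    exact hp (Prod.ext h1 (sub_left_injective h2))
  rcases m with _ | m <;> rcases m' with _ | m'
  · rfl
  · exact (key m' h h').elim
  · exact (key m h' h).elim
  · simp only [bm] at h h'
    have h3 : (m - m') * (p.1 - p'.1) = 0 := by linear_combination h' - h
    rcases mul_eq_zero.1 h3 with h4 | h4
    · rw [sub_eq_zero.1 h4]
    · exact (key m (sub_eq_zero.1 h4) h).elim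

omit [Fintype F] in
theorem bm_exists (p p' : F × F) : ∃ m, bm m p = bm m p' := by
  by_cases h : p.1 = p'.1
  · exact ⟨none, h⟩
  · refine ⟨some ((p.2 - p'.2) / (p.1 - p'.1)), ?_⟩
    have h1 : p.1 - p'.1 ≠ 0 := sub_ne_zero.2 h
    simp only [bm]
    field_simp
    ring

variable (F)

/-- Incidences of the affine plane (and isolated vertices). -/
abbrev I1 (p : F × F) (l : Ln F) : Prop := Sum.elim (fun l => bm l.1 p = l.2) (fun _ => False) l

/-- Incidences of the stars. -/
abbrev I2 (p : F × F) (l : Ln F) : Prop := Sum.elim (fun _ => p = 0) (fun a => p = a.1.1) l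

noncomputable abbrev AP : BG := ofInc (F × F) (Ln F) (I1 F)

noncomputable abbrev ST : BG := ofInc (F × F) (Ln F) (I2 F)

theorem gram1 (p p' : F × F) :
    ∑ l : Ln F, ind (I1 F p l) * ind (I1 F p' l) =
      if p = p' then (Fintype.card F : ℝ) + 1 else 1 := by
  rw [Fintype.sum_sum_type]
  have h2 : ∑ a : {a : F × F // a ≠ 0} × F, ind (I1 F p (Sum.inr a)) * ind (I1 F p' (Sum.inr a)) = 0 := by
    refine sum_eq_zero fun a _ => ?_
    rw [ind_neg (show ¬ I1 F p (Sum.inr a) from fun h => h), zero_mul]
  rw [h2, add_zero, Fintype.sum_prod_type]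
  have h3 : ∀ m : Option F, ∑ b : F, ind (I1 F p (Sum.inl (m, b))) * ind (I1 F p' (Sum.inl (m, b))) =
      if bm m p = bm m p' then 1 else 0 := by
    intro m
    rw [sum_eq_single (bm m p)]
    · rw [ind_pos (show I1 F p (Sum.inl (m, bm m p)) from rfl), one_mul]
      split_ifs with h
      · exact ind_pos h.symm
      · exact ind_neg fun h' => h (Eq.symm h')
    · intro b _ hb
      rw [ind_neg (show ¬ I1 F p (Sum.inl (m, b)) from fun h => hb (Eq.symm h)), zero_mul]
    · simp
  rw [sum_congr rfl fun m _ => h3 m]
  split_ifs with h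
  · subst h
    simp [Fintype.card_option]
  · obtain ⟨m, hm⟩ := bm_exists p p'
    rw [sum_eq_single m]
    · rw [if_pos hm]
    · intro m' _ hm'
      rw [if_neg fun h' => hm' (bm_inj h h' hm)]
    · simp

theorem gram2 (p p' : F × F) :
    ∑ l : Ln F, ind (I2 F p l) * ind (I2 F p' l) =
      if p = p' then (if p = 0 then ((Fintype.card F : ℝ) + 1) * Fintype.card F else Fintype.card F)
        else 0 := by
  rw [Fintype.sum_sum_type]
  have hA : ∑ a : Option F × F, ind (I2 F p (Sum.inl a)) * ind (I2 F p' (Sum.inl a)) =
      ((Fintype.card F : ℝ) + 1) * Fintype.card F * (ind (p = 0) * ind (p' = 0)) := by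
    change ∑ _a : Option F × F, ind (p = 0) * ind (p' = 0) = _
    rw [sum_const, card_univ, Fintype.card_prod, Fintype.card_option, nsmul_eq_mul]
    push_cast
    ring
  have hB : ∑ a : {a : F × F // a ≠ 0} × F, ind (I2 F p (Sum.inr a)) * ind (I2 F p' (Sum.inr a)) =
      ∑ a : {a : F × F // a ≠ 0}, (Fintype.card F : ℝ) * (ind (p = a.1) * ind (p' = a.1)) := by
    rw [Fintype.sum_prod_type]
    refine sum_congr rfl fun a _ => ?_
    change ∑ _y : F, ind (p = a.1) * ind (p' = a.1) = _
    rw [sum_const, card_univ, nsmul_eq_mul]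
  rw [hA, hB]
  by_cases h : p = p'
  · subst h
    rw [if_pos rfl]
    by_cases h0 : p = 0
    · have : ∑ a : {a : F × F // a ≠ 0}, (Fintype.card F : ℝ) * (ind (p = a.1) * ind (p = a.1)) = 0 := by
        refine sum_eq_zero fun a _ => ?_
        rw [ind_neg (fun h => a.2 (by rw [← h, h0])), zero_mul, mul_zero]
      rw [this, if_pos h0, ind_pos h0]
      ring
    · rw [if_neg h0, ind_neg h0, sum_eq_single ⟨p, h0⟩]
      · rw [ind_pos rfl]; ring
      · intro a _ ha
        rw [ind_neg, zero_mul, mul_zero]
        rintro rfl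
        exact ha rfl
      · simp
  · rw [if_neg h]
    have h1 : ind (p = 0) * ind (p' = 0) = 0 := by
      by_cases h0 : p = 0
      · rw [ind_neg (p := p' = 0) (fun h' => h (h0.trans h'.symm)), mul_zero]
      · rw [ind_neg h0, zero_mul]
    rw [h1, mul_zero, zero_add]
    refine sum_eq_zero fun a _ => ?_
    by_cases h0 : p = a.1
    · rw [ind_neg (p := p' = a.1) (fun h' => h (h0.trans h'.symm)), mul_zero, mul_zero]
    · rw [ind_neg h0, zero_mul, mul_zero]

theorem charpoly_eq : (adjM (AP F)).charpoly = (adjM (ST F)).charpoly := by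
  set d : ℝ := ((Fintype.card F : ℕ) : ℝ) with hd
  have hn : ((Fintype.card (F × F) : ℕ) : ℝ) = d ^ 2 := by
    rw [Fintype.card_prod]; push_cast; ring
  have hpos : 0 < Fintype.card (F × F) := Fintype.card_pos
  have hinf : {x : ℝ | x ≠ 0 ∧ x ^ 2 ≠ d}.Infinite := by
    refine (Set.Ioi_infinite (|d| + 1)).mono fun x hx => ?_
    have hx' : |d| + 1 < x := hx
    have h1 := le_abs_self d
    have h2 := abs_nonneg d
    refine ⟨by linarith, ?_⟩
    nlinarith
  refine Polynomial.eq_of_infinite_eval_eq _ _ (hinf.mono ?_)
  rintro x ⟨hx, hxd⟩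
  change (adjM (AP F)).charpoly.eval x = (adjM (ST F)).charpoly.eval x
  rw [eval_inc _ hx, eval_inc _ hx]
  congr 1
  simp only [gram1, gram2]
  set a : ℝ := x - x⁻¹ * d with ha
  have ha0 : a ≠ 0 := by
    intro h
    apply hxd
    rw [ha] at h
    field_simp at h
    linarith
  have hL : (Matrix.of fun p p' : F × F => (if p = p' then x else 0) -
      x⁻¹ * (if p = p' then d + 1 else 1)) =
      a • (1 + Matrix.replicateCol Unit (fun _ : F × F => -x⁻¹ / a) *
        Matrix.replicateRow Unit (fun _ : F × F => (1 : ℝ))) := by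
    ext p p'
    rw [Matrix.smul_apply, Matrix.add_apply, Matrix.mul_apply, Matrix.one_apply]
    simp only [Matrix.of_apply, Matrix.replicateCol_apply, Matrix.replicateRow_apply, univ_unique,
      sum_const, card_singleton, one_smul, smul_eq_mul, mul_one]
    split_ifs
    · rw [ha]; field_simp; ring
    · field_simp; ring
  rw [hL, Matrix.det_smul, Matrix.det_one_add_replicateCol_mul_replicateRow]
  have hR : (Matrix.of fun p p' : F × F => (if p = p' then x else 0) -
      x⁻¹ * (if p = p' then (if p = 0 then (d + 1) * d else d) else 0)) =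
      Matrix.diagonal (fun p : F × F => x - x⁻¹ * (if p = 0 then (d + 1) * d else d)) := by
    ext p p'
    rw [Matrix.diagonal_apply]
    simp only [Matrix.of_apply]
    split_ifs <;> simp
  rw [hR, Matrix.det_diagonal, ← mul_prod_erase univ _ (mem_univ (0 : F × F))]
  have hprod : ∏ p ∈ (univ : Finset (F × F)).erase 0, (x - x⁻¹ * (if p = 0 then (d + 1) * d else d)) =
      a ^ (Fintype.card (F × F) - 1) := by
    rw [prod_congr rfl fun p hp => by rw [if_neg (ne_of_mem_erase hp)], prod_const,
      card_erase_of_mem (mem_univ _), card_univ]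
  rw [hprod, if_pos rfl]
  have hdot : (fun _ : F × F => (1 : ℝ)) ⬝ᵥ (fun _ : F × F => -x⁻¹ / a) = d ^ 2 * (-x⁻¹ / a) := by
    simp only [dotProduct, one_mul, sum_const, nsmul_eq_mul, card_univ]
    rw [hn]
  rw [hdot]
  obtain ⟨k, hk⟩ : ∃ k, Fintype.card (F × F) = k + 1 := ⟨Fintype.card (F × F) - 1, by omega⟩
  rw [hk, Nat.add_sub_cancel, pow_succ]
  have : a * (1 + d ^ 2 * (-x⁻¹ / a)) = x - x⁻¹ * ((d + 1) * d) := by
    have h1 : a * (1 + d ^ 2 * (-x⁻¹ / a)) = a - d ^ 2 * x⁻¹ := by field_simp; ring
    rw [h1, ha]
    ring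
  rw [mul_assoc, this, mul_comm]

theorem spectrum_host (q : ℕ) [NeZero q] (c : Fin (q ^ 2) × Fin (q ^ 2) → Fin q) :
    spectrum (host (AP F) q c) = spectrum (host (ST F) q c) := by
  rw [spectrum_bsum, spectrum_bsum, charpoly_eq]

theorem good_AP : Good (AP F) (Fintype.card F) where
  y0 := by
    have hF : 1 ≤ Fintype.card F := Fintype.card_pos
    rintro (_ | _)
    · refine le_trans (card_le_card_of_injOn (t := (univ : Finset (Option F × F)))
        (fun z => Sum.elim (fun _ => (none, 0)) (fun l => Sum.elim id (fun _ => (none, 0)) l) z)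
        (fun _ _ => mem_coe.2 (mem_univ _)) ?_) ?_
      · rintro z hz z' hz' h
        rw [mem_coe, mem_filter] at hz hz'
        rcases z with z | z | z <;> rcases z' with z' | z' | z'
        · exact absurd hz.2.1 (by simp)
        · exact absurd hz.2.1 (by simp)
        · exact absurd hz.2.1 (by simp)
        · exact absurd hz'.2.1 (by simp)
        · simp only [Sum.elim_inr, Sum.elim_inl, id] at h
          rw [h]
        · obtain ⟨w, hw⟩ := hz'.2.2
          rcases w with w | w <;> exact hw.elim
        · exact absurd hz'.2.1 (by simp)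
        · obtain ⟨w, hw⟩ := hz.2.2
          rcases w with w | w <;> exact hw.elim
        · obtain ⟨w, hw⟩ := hz.2.2
          rcases w with w | w <;> exact hw.elim
      · rw [card_univ, Fintype.card_prod, Fintype.card_option]
        nlinarith
    · refine le_trans (card_le_card_of_injOn (t := (univ : Finset (F × F)))
        (fun z => Sum.elim id (fun _ => 0) z) (fun _ _ => mem_coe.2 (mem_univ _)) ?_) ?_
      · rintro z hz z' hz' h
        rw [mem_coe, mem_filter] at hz hz'
        rcases z with z | z <;> rcases z' with z' | z'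
        · simp only [Sum.elim_inl, id] at h
          rw [h]
        · exact absurd hz'.2.1 (by simp)
        · exact absurd hz.2.1 (by simp)
        · exact absurd hz.2.1 (by simp)
      · rw [card_univ, Fintype.card_prod]
        nlinarith
  y1 := by
    have hF : 1 ≤ Fintype.card F := Fintype.card_pos
    rintro (p | l | l)
    · refine le_trans (card_le_card_of_injOn (t := (univ : Finset (Option F)))
        (fun z => Sum.elim (fun _ => none) (fun l => Sum.elim (fun l => l.1) (fun _ => none) l) z)
        (fun _ _ => mem_coe.2 (mem_univ _)) ?_) ?_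
      · rintro z hz z' hz' h
        rw [mem_coe, mem_filter] at hz hz'
        rcases z with z | z | z <;> rcases z' with z' | z' | z'
        · exact hz.2.elim
        · exact hz.2.elim
        · exact hz.2.elim
        · exact hz'.2.elim
        · simp only [Sum.elim_inr, Sum.elim_inl] at h
          have h1 : bm z.1 p = z.2 := hz.2
          have h2 : bm z'.1 p = z'.2 := hz'.2
          rw [Prod.ext h (by rw [← h1, ← h2, h])]
        · exact hz'.2.elim
        · exact hz'.2.elim
        · exact hz.2.elim
        · exact hz.2.elim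
      · rw [card_univ, Fintype.card_option]
        omega
    · refine le_trans (card_le_card_of_injOn (t := (univ : Finset F))
        (fun z => Sum.elim (fun p => match l.1 with
          | none => p.2
          | some _ => p.1) (fun _ => 0) z)
        (fun _ _ => mem_coe.2 (mem_univ _)) ?_) ?_
      · rintro z hz z' hz' h
        rw [mem_coe, mem_filter] at hz hz'
        rcases z with z | z <;> rcases z' with z' | z'
        · have h1 : bm l.1 z = l.2 := hz.2
          have h2 : bm l.1 z' = l.2 := hz'.2
          obtain ⟨m, b⟩ := l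
          rcases m with _ | m
          · simp only [Sum.elim_inl, bm] at h h1 h2
            rw [Prod.ext (h1.trans h2.symm) h]
          · simp only [Sum.elim_inl, bm] at h h1 h2
            have h3 : z.2 = z'.2 := by
              rw [h] at h1
              linear_combination h1 - h2
            rw [Prod.ext h h3]
        · exact hz'.2.elim
        · exact hz.2.elim
        · exact hz.2.elim
      · rw [card_univ]
        omega
    · have : (univ.filter fun z' : (AP F).V => (AP F).adj (Sum.inr (Sum.inr l)) z') = ∅ := by
        rw [filter_eq_empty_iff]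
        rintro (z | z) _ h <;> exact h.elim
      rw [this]
      simp
  y2 := by
    have key : ∀ p p' : F × F, p ≠ p' → ∀ l l' : Option F × F, bm l.1 p = l.2 → bm l.1 p' = l.2 →
        bm l'.1 p = l'.2 → bm l'.1 p' = l'.2 → l = l' := by
      intro p p' hp l l' h1 h2 h3 h4
      have h5 : l.1 = l'.1 := bm_inj hp (h1.trans h2.symm) (h3.trans h4.symm)
      exact Prod.ext h5 (by rw [← h1, ← h3, h5])
    intro z z' hzz
    rw [card_le_one]
    intro y hy y' hy'
    rw [mem_filter] at hy hy'
    obtain ⟨-, h1, h2⟩ := hy
    obtain ⟨-, h3, h4⟩ := hy'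
    rcases z with p | l | l
    · rcases y with y | y | y
      · exact h1.elim
      · rcases y' with y' | y' | y'
        · exact h3.elim
        · rcases z' with p' | l' | l'
          · rw [key p p' (fun h => hzz (by rw [h])) y y' h1 h2 h3 h4]
          · exact h2.elim
          · exact h2.elim
        · exact h3.elim
      · exact h1.elim
    · rcases y with y | y | y
      · rcases y' with y' | y' | y'
        · rcases z' with p' | l' | l'
          · exact h2.elim
          · by_contra hne
            exact hzz (by rw [key y y' (fun h => hne (by rw [h])) l l' h1 h3 h2 h4])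
          · exact h2.elim
        · exact h3.elim
        · exact h3.elim
      · exact h1.elim
      · exact h1.elim
    · rcases y with y | y | y
      · exact h1.elim
      · exact h1.elim
      · exact h1.elim

theorem card_Ln_le : Fintype.card (Ln F) ≤
    Fintype.card F ^ 3 + Fintype.card F ^ 2 + Fintype.card F := by
  rw [Fintype.card_sum, Fintype.card_prod, Fintype.card_prod, Fintype.card_option]
  have h1 : Fintype.card {a : F × F // a ≠ 0} ≤ Fintype.card F * Fintype.card F := by
    rw [← Fintype.card_prod]; exact Fintype.card_subtype_le _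
  nlinarith

theorem cls_inc {P L : Type} [Fintype P] [Fintype L] (I : P → L → Prop) (b : Bool) :
    (univ.filter fun z : (ofInc P L I).V => (ofInc P L I).cls z = b).card =
      if b = true then Fintype.card P else Fintype.card L := by
  cases b
  · rw [if_neg (by decide), ← card_univ (α := L),
      ← card_image_of_injective (univ : Finset L) (Sum.inr_injective (α := P))]
    congr 1
    ext z
    rw [mem_filter, mem_image]
    rcases z with z | z <;> simp
  · rw [if_pos rfl, ← card_univ (α := P),
      ← card_image_of_injective (univ : Finset P) (Sum.inl_injective (β := L))]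
    congr 1
    ext z
    rw [mem_filter, mem_image]
    rcases z with z | z <;> simp

end

end Pool.Agent.R667.QL
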