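import Pool.Agent.R667.QL.Moment

/-!
# Additivity of `M` and selection of a good random graph
-/

open Finset Classical

namespace Pool.Agent.R667.QL

theorem hom_bsum (A B G : BG) : hom (bsum A B) G = hom A G * hom B G := by
  unfold hom
  rw [← Nat.card_prod]
  refine Nat.card_congr ⟨fun φ => (⟨fun x => φ.1 (Sum.inl x), fun x => φ.2.1 (Sum.inl x),
      fun x y h => φ.2.2 _ _ (Sum.LiftRel.inl h)⟩,
    ⟨fun x => φ.1 (Sum.inr x), fun x => φ.2.1 (Sum.inr x),
      fun x y h => φ.2.2 _ _ (Sum.LiftRel.inr h)⟩),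
    fun p => ⟨Sum.elim p.1.1 p.2.1, ?_, ?_⟩, ?_, ?_⟩
  · rintro (x | x)
    · exact p.1.2.1 x
    · exact p.2.2.1 x
  · rintro (x | x) (y | y) h
    · exact p.1.2.2 _ _ (Sum.liftRel_inl_inl.1 h)
    · exact (Sum.not_liftRel_inl_inr h).elim
    · exact (Sum.not_liftRel_inr_inl h).elim
    · exact p.2.2.2 _ _ (Sum.liftRel_inr_inr.1 h)
  · rintro ⟨φ, hφ⟩
    refine Subtype.ext (funext ?_)
    rintro (x | x) <;> rfl
  · rintro ⟨⟨φ, hφ⟩, ⟨ψ, hψ⟩⟩
    rfl

theorem Ed_bsum (A B : BG) : Ed (bsum A B) univ =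
    (Ed A univ).image (Prod.map Sum.inl Sum.inl) ∪ (Ed B univ).image (Prod.map Sum.inr Sum.inr) := by
  ext e
  rw [mem_union]
  constructor
  · intro he
    rw [mem_Ed] at he
    obtain ⟨-, -, h3, h4⟩ := he
    obtain ⟨e1, e2⟩ := e
    rcases e1 with e1 | e1 <;> rcases e2 with e2 | e2
    · left
      exact mem_image.2 ⟨(e1, e2), mem_Ed.2 ⟨mem_univ _, mem_univ _, h3, Sum.liftRel_inl_inl.1 h4⟩, rfl⟩
    · exact (Sum.not_liftRel_inl_inr h4).elim
    · exact (Sum.not_liftRel_inr_inl h4).elim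
    · right
      exact mem_image.2 ⟨(e1, e2), mem_Ed.2 ⟨mem_univ _, mem_univ _, h3, Sum.liftRel_inr_inr.1 h4⟩, rfl⟩
  · rintro (h | h)
    · obtain ⟨p, hp, rfl⟩ := mem_image.1 h
      rw [mem_Ed] at hp
      exact mem_Ed.2 ⟨mem_univ _, mem_univ _, hp.2.2.1, Sum.LiftRel.inl hp.2.2.2⟩
    · obtain ⟨p, hp, rfl⟩ := mem_image.1 h
      rw [mem_Ed] at hp
      exact mem_Ed.2 ⟨mem_univ _, mem_univ _, hp.2.2.1, Sum.LiftRel.inr hp.2.2.2⟩

theorem M_exists' (H : BG) [inst : DecidableEq H.V] (S : Finset H.V) :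
    ∃ ρ : H.V → H.V, (∀ x, H.cls (ρ x) = H.cls x) ∧ (∀ x ∈ S, ρ x ∈ S) ∧
    2 * (S.image ρ).card = M H S + ((Ed H S).image (Prod.map ρ ρ)).card := by
  have h : inst = fun a b => propDecidable (a = b) := Subsingleton.elim _ _
  subst h
  exact M_exists H S

theorem M_bsum_le (A B : BG) : M (bsum A B) univ ≤ M A univ + M B univ := by
  obtain ⟨ρ, h1, _, h3⟩ := M_exists' (bsum A B) univ
  let fA : A.V → A.V ⊕ B.V := fun x => ρ (Sum.inl x)
  let fB : B.V → A.V ⊕ B.V := fun x => ρ (Sum.inr x)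
  have hfA : ∀ x, (bsum A B).cls (fA x) = A.cls x := fun x => h1 (Sum.inl x)
  have hfB : ∀ x, (bsum A B).cls (fB x) = B.cls x := fun x => h1 (Sum.inr x)
  set OA : Finset (A.V ⊕ B.V) := univ.image fA with hOA
  set OB : Finset (A.V ⊕ B.V) := univ.image fB with hOB
  set O := OA ∩ OB with hO
  let h : A.V ⊕ B.V → (A.V ⊕ B.V) ⊕ Bool := fun z => if z ∈ O then Sum.inr ((bsum A B).cls z) else Sum.inl z
  have hin : ∀ z ∈ O, h z = Sum.inr ((bsum A B).cls z) := fun z hz => if_pos hz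
  have hout : ∀ z, z ∉ O → h z = Sum.inl z := fun z hz => if_neg hz
  set EA := (Ed A univ).image (Prod.map fA fA) with hEA
  set EB := (Ed B univ).image (Prod.map fB fB) with hEB
  have hE : (Ed (bsum A B) univ).image (Prod.map ρ ρ) = EA ∪ EB := by
    rw [Ed_bsum, image_union, image_image, image_image]
    rfl
  have hV : (univ : Finset (bsum A B).V).image ρ = OA ∪ OB := by
    ext z
    rw [mem_union, hOA, hOB, mem_image, mem_image, mem_image]
    constructor
    · rintro ⟨x | x, _, hx⟩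
      · exact Or.inl ⟨x, mem_univ _, hx⟩
      · exact Or.inr ⟨x, mem_univ _, hx⟩
    · rintro (⟨x, _, hx⟩ | ⟨x, _, hx⟩)
      · exact ⟨Sum.inl x, mem_univ _, hx⟩
      · exact ⟨Sum.inr x, mem_univ _, hx⟩
  have h3' : 2 * ((univ : Finset (bsum A B).V).image ρ).card = M (bsum A B) univ +
      ((Ed (bsum A B) univ).image (Prod.map ρ ρ)).card := h3
  rw [hE, hV] at h3'
  have c1 := card_union_add_card_inter OA OB
  rw [← hO] at c1
  set EA' := EA.filter (fun e => ¬ (e.1 ∈ O ∧ e.2 ∈ O)) with hEA'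
  have c2 : EA'.card + EB.card ≤ (EA ∪ EB).card := by
    rw [← card_union_of_disjoint]
    · exact card_le_card (union_subset_union (filter_subset _ _) subset_rfl)
    · rw [disjoint_left]
      intro e he he'
      rw [hEA', mem_filter] at he
      apply he.2
      obtain ⟨p, _, hp⟩ := mem_image.1 he.1
      obtain ⟨p', _, hp'⟩ := mem_image.1 he'
      refine ⟨mem_inter.2 ⟨mem_image.2 ⟨p.1, mem_univ _, ?_⟩, mem_image.2 ⟨p'.1, mem_univ _, ?_⟩⟩,
        mem_inter.2 ⟨mem_image.2 ⟨p.2, mem_univ _, ?_⟩, mem_image.2 ⟨p'.2, mem_univ _, ?_⟩⟩⟩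
      · rw [← hp]; rfl
      · rw [← hp']; rfl
      · rw [← hp]; rfl
      · rw [← hp']; rfl
  have hB := M_ge (H := B) (S := univ) fB (fun x _ y _ hxy => by rw [← hfB x, ← hfB y, hxy])
  rw [← hEB] at hB
  have hA := M_ge (H := A) (S := univ) (fun x => h (fA x)) (fun x _ y _ hxy => by
    rw [← hfA x, ← hfA y]
    by_cases hx : fA x ∈ O <;> by_cases hy : fA y ∈ O
    · rw [hin _ hx, hin _ hy] at hxy
      exact Sum.inr_injective hxy
    · rw [hin _ hx, hout _ hy] at hxy
      exact (Sum.inr_ne_inl hxy).elim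
    · rw [hout _ hx, hin _ hy] at hxy
      exact (Sum.inl_ne_inr hxy).elim
    · rw [hout _ hx, hout _ hy] at hxy
      rw [Sum.inl_injective hxy])
  have hgE : (Ed A univ).image (Prod.map (fun x => h (fA x)) (fun x => h (fA x))) =
      EA.image (Prod.map h h) := by
    rw [hEA, image_image]; rfl
  rw [hgE] at hA
  have hgV : (OA \ O).image Sum.inl ⊆ (univ : Finset A.V).image (fun x => h (fA x)) := by
    intro z hz
    obtain ⟨y, hy, rfl⟩ := mem_image.1 hz
    rw [mem_sdiff] at hy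
    obtain ⟨x, _, hx⟩ := mem_image.1 hy.1
    exact mem_image.2 ⟨x, mem_univ _, by rw [hx]; exact hout _ hy.2⟩
  have hc3 : ((OA \ O).image (Sum.inl : A.V ⊕ B.V → (A.V ⊕ B.V) ⊕ Bool)).card = (OA \ O).card :=
    card_image_of_injective _ Sum.inl_injective
  have hsub : O ⊆ OA := inter_subset_left
  have hc4 := card_sdiff_add_card_eq_card hsub
  change 2 * OB.card ≤ _ at hB
  rcases O.eq_empty_or_nonempty with hOe | ⟨z, hz⟩
  · have e1 : EA.image (Prod.map h h) ⊆ EA'.image (Prod.map h h) := by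
      refine image_subset_image fun e he => ?_
      rw [hEA', mem_filter]
      refine ⟨he, ?_⟩
      rw [hOe]
      rintro ⟨h', _⟩
      exact notMem_empty _ h'
    have e2 := (card_le_card e1).trans card_image_le
    have e3 := card_le_card hgV
    rw [hOe, card_empty] at c1 hc4
    rw [hc3] at e3
    rw [hOe] at e3
    omega
  · have e1 : EA.image (Prod.map h h) ⊆ insert (Sum.inr true, Sum.inr false) (EA'.image (Prod.map h h)) := by
      intro w hw
      obtain ⟨e, he, rfl⟩ := mem_image.1 hw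
      rw [mem_insert]
      by_cases hb : e.1 ∈ O ∧ e.2 ∈ O
      · left
        obtain ⟨p, hp, rfl⟩ := mem_image.1 he
        rw [mem_Ed] at hp
        have hb2 := A.bip _ _ hp.2.2.2
        simp only [Prod.map] at hb ⊢
        rw [hin _ hb.1, hin _ hb.2, hfA, hfA, hp.2.2.1]
        cases hc : A.cls p.2
        · rfl
        · rw [hp.2.2.1, hc] at hb2; exact absurd rfl hb2
      · right
        exact mem_image_of_mem _ (mem_filter.2 ⟨he, hb⟩)
    have e2 := (card_le_card e1).trans ((card_insert_le _ _).trans (Nat.add_le_add_right card_image_le 1))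
    have e3 : (OA \ O).card + 1 ≤ ((univ : Finset A.V).image (fun x => h (fA x))).card := by
      have e4 : insert (Sum.inr ((bsum A B).cls z)) ((OA \ O).image Sum.inl) ⊆
          (univ : Finset A.V).image (fun x => h (fA x)) := by
        refine insert_subset ?_ hgV
        obtain ⟨x, _, hx⟩ := mem_image.1 (hsub hz)
        exact mem_image.2 ⟨x, mem_univ _, by rw [hx]; exact hin _ hz⟩
      have e5 := card_le_card e4
      rw [card_insert_of_notMem, hc3] at e5
      · exact e5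
      · intro h'
        obtain ⟨_, _, h''⟩ := mem_image.1 h'
        exact Sum.inl_ne_inr h''
    omega

theorem M_bsum_ge (A B : BG) : M A univ + M B univ ≤ M (bsum A B) univ := by
  obtain ⟨a, ha1, _, ha3⟩ := M_exists A univ
  obtain ⟨b, hb1, _, hb3⟩ := M_exists B univ
  have h := M_ge (H := bsum A B) (S := univ) (Sum.map a b) (by
    rintro (x | x) _ (y | y) _ hxy
    · have : a x = a y := Sum.inl_injective hxy
      change A.cls x = A.cls y
      rw [← ha1 x, ← ha1 y, this]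
    · exact (Sum.inl_ne_inr hxy).elim
    · exact (Sum.inr_ne_inl hxy).elim
    · have : b x = b y := Sum.inr_injective hxy
      change B.cls x = B.cls y
      rw [← hb1 x, ← hb1 y, this])
  have e1 : (univ : Finset (bsum A B).V).image (Sum.map a b) =
      (univ.image a).image Sum.inl ∪ (univ.image b).image Sum.inr := by
    ext z
    rw [mem_union, mem_image, mem_image, mem_image]
    constructor
    · rintro ⟨x | x, _, rfl⟩
      · exact Or.inl ⟨a x, mem_image_of_mem _ (mem_univ _), rfl⟩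
      · exact Or.inr ⟨b x, mem_image_of_mem _ (mem_univ _), rfl⟩
    · rintro (⟨x, hx, rfl⟩ | ⟨x, hx, rfl⟩)
      · obtain ⟨x', _, rfl⟩ := mem_image.1 hx
        exact ⟨Sum.inl x', mem_univ _, rfl⟩
      · obtain ⟨x', _, rfl⟩ := mem_image.1 hx
        exact ⟨Sum.inr x', mem_univ _, rfl⟩
  have e2 : ((univ.image a).image (Sum.inl : A.V → A.V ⊕ B.V) ∪
      (univ.image b).image (Sum.inr : B.V → A.V ⊕ B.V)).card =
      (univ.image a).card + (univ.image b).card := by
    rw [card_union_of_disjoint, card_image_of_injective _ Sum.inl_injective,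
      card_image_of_injective _ Sum.inr_injective]
    rw [disjoint_left]
    intro z hz hz'
    obtain ⟨x, _, rfl⟩ := mem_image.1 hz
    obtain ⟨y, _, h'⟩ := mem_image.1 hz'
    exact Sum.inr_ne_inl h'
  have e3 : ((Ed (bsum A B) univ).image (Prod.map (Sum.map a b) (Sum.map a b))).card ≤
      ((Ed A univ).image (Prod.map a a)).card + ((Ed B univ).image (Prod.map b b)).card := by
    have : (Ed (bsum A B) univ).image (Prod.map (Sum.map a b) (Sum.map a b)) =
        ((Ed A univ).image (Prod.map a a)).image (Prod.map Sum.inl Sum.inl) ∪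
        ((Ed B univ).image (Prod.map b b)).image (Prod.map Sum.inr Sum.inr) := by
      rw [Ed_bsum, image_union, image_image, image_image, image_image, image_image]
      rfl
    rw [this]
    exact (card_union_le _ _).trans (Nat.add_le_add card_image_le card_image_le)
  rw [e1, e2] at h
  omega

theorem exists_prod {ι : Type} (s : Finset ι) (H : ι → BG) :
    ∃ P : BG, (∀ G, hom P G = ∏ i ∈ s, hom (H i) G) ∧ M P univ = ∑ i ∈ s, M (H i) univ := by
  induction s using Finset.induction_on with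
  | empty =>
    refine ⟨⟨Empty, fun _ => true, fun _ _ => False, fun _ _ h => h, fun _ _ h => h.elim⟩, ?_, ?_⟩
    · intro G
      rw [prod_empty]
      unfold hom
      rw [Nat.card_eq_one_iff_unique]
      refine ⟨⟨fun a b => Subtype.ext (funext fun x => x.elim)⟩, ⟨⟨fun x => x.elim, fun x => x.elim,
        fun x => x.elim⟩⟩⟩
    · rw [sum_empty]
      unfold M
      have : ∀ ρ : Empty → Empty, (univ : Finset Empty).image ρ = ∅ := fun ρ => by
        ext x; exact x.elim
      simp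
  | insert i s hi ih =>
    obtain ⟨P, hP1, hP2⟩ := ih
    refine ⟨bsum (H i) P, fun G => ?_, ?_⟩
    · rw [hom_bsum, hP1, prod_insert hi]
    · rw [sum_insert hi, ← hP2]
      exact le_antisymm (M_bsum_le _ _) (M_bsum_ge _ _)

theorem select {ι : Type} [Fintype ι] (H : ι → BG) {δ : ℝ} (hδ : 0 < δ) :
    ∃ s0 : ℕ, ∀ s ≥ s0, ∀ (_ : 0 < s) (hne : NeZero (s ^ 5)) (Z : BG) (_ : Z.V) (_ : Good Z (s ^ 3))
      (_ : ∀ b, (univ.filter fun z : Z.V => Z.cls z = b).card ≤ 2 * (s ^ 5) ^ 2),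
      ∃ c : Fin ((s ^ 5) ^ 2) × Fin ((s ^ 5) ^ 2) → Fin (s ^ 5), ∀ i,
        ((s : ℝ) ^ 5) ^ ((M (H i) univ : ℝ) - δ) ≤ hom (H i) (host Z (s ^ 5) c) ∧
        (hom (H i) (host Z (s ^ 5) c) : ℝ) ≤ ((s : ℝ) ^ 5) ^ ((M (H i) univ : ℝ) + δ) := by
  obtain ⟨P, hP1, hP2⟩ := exists_prod univ H
  set l : ℝ := ((Fintype.card ι : ℕ) : ℝ) with hl
  have hl0 : 0 ≤ l := Nat.cast_nonneg _
  set δ' : ℝ := δ / (l + 1) with hδ'
  have hδ'0 : 0 < δ' := by positivity
  let C : ι → ℝ := fun i => CC (bsum P (H i))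
  have hC : ∀ i, 0 ≤ C i := fun i => CC_nonneg _
  have hCs : 0 ≤ ∑ i, C i := sum_nonneg fun i _ => hC i
  have hlim : Filter.Tendsto (fun s : ℕ => ((s : ℝ) ^ 5) ^ δ') Filter.atTop Filter.atTop :=
    (tendsto_rpow_atTop hδ'0).comp
      ((Filter.tendsto_pow_atTop (by norm_num)).comp tendsto_natCast_atTop_atTop)
  obtain ⟨s0, hs0⟩ := Filter.eventually_atTop.1 (hlim.eventually_ge_atTop (2 * ∑ i, C i + 2))
  refine ⟨s0, fun s hs hspos hne Z z0 hZ hcl => ?_⟩
  have hlarge := hs0 s hs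
  set q : ℝ := (s : ℝ) ^ 5 with hq
  have hs' : (1 : ℝ) ≤ s := by exact_mod_cast hspos
  have hq1 : (1 : ℝ) ≤ q := one_le_pow₀ hs'
  have hq0 : 0 < q := by linarith
  set Ω := Fin ((s ^ 5) ^ 2) × Fin ((s ^ 5) ^ 2) → Fin (s ^ 5) with hΩ
  set T : ℝ := ((Fintype.card Ω : ℕ) : ℝ) with hT
  have hT0 : 0 < T := by
    rw [hT]; exact_mod_cast Fintype.card_pos
  let X : ι → Ω → ℝ := fun i c => hom (H i) (host Z (s ^ 5) c)
  let XP : Ω → ℝ := fun c => hom P (host Z (s ^ 5) c)
  have hX0 : ∀ i c, 0 ≤ X i c := fun i c => Nat.cast_nonneg _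
  have hXP0 : ∀ c, 0 ≤ XP c := fun c => Nat.cast_nonneg _
  have hXPprod : ∀ c, XP c = ∏ i, X i c := by
    intro c
    simp only [XP, X]
    rw [hP1]
    push_cast
    rfl
  -- first moments
  have hlow : T * q ^ M P univ ≤ ∑ c, XP c := by
    have h1 := sum_hom (Z := Z) (q := s ^ 5) P
    have h2 := sum_wI_ge (Z := Z) hspos P
    change ∑ c, XP c = _ at h1
    rw [h1]
    exact mul_le_mul_of_nonneg_left h2 hT0.le
  have hup : ∀ i, ∑ c, XP c * X i c ≤ T * (C i * q ^ (M P univ + M (H i) univ)) := by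
    intro i
    have h1 := sum_hom (Z := Z) (q := s ^ 5) (bsum P (H i))
    have h2 := sum_wI_le' z0 hspos hZ hcl (bsum P (H i))
    have h3 : ∀ c : Ω, XP c * X i c = (hom (bsum P (H i)) (host Z (s ^ 5) c) : ℝ) := by
      intro c
      rw [hom_bsum]; push_cast; rfl
    rw [sum_congr rfl fun c _ => h3 c, h1]
    refine mul_le_mul_of_nonneg_left (h2.trans ?_) hT0.le
    exact mul_le_mul_of_nonneg_left (pow_le_pow_right₀ hq1 (M_bsum_le P (H i))) (hC i)
  -- a good c
  have hex : ∃ c : Ω, q ^ M P univ / 2 ≤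
      XP c * (1 - ∑ i, X i c / q ^ ((M (H i) univ : ℝ) + δ')) := by
    have hsum : ∑ _c : Ω, q ^ M P univ / 2 ≤
        ∑ c : Ω, XP c * (1 - ∑ i, X i c / q ^ ((M (H i) univ : ℝ) + δ')) := by
      have e1 : ∑ c : Ω, XP c * (1 - ∑ i, X i c / q ^ ((M (H i) univ : ℝ) + δ')) =
          ∑ c : Ω, XP c - ∑ i, (∑ c : Ω, XP c * X i c) / q ^ ((M (H i) univ : ℝ) + δ') := by
        rw [← sum_congr rfl fun i _ => (sum_div univ (fun c : Ω => XP c * X i c)
          (q ^ ((M (H i) univ : ℝ) + δ'))).symm, sum_comm, ← sum_sub_distrib]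
        refine sum_congr rfl fun c _ => ?_
        rw [mul_sub, mul_one, mul_sum]
        congr 1
        exact sum_congr rfl fun i _ => by ring
      rw [e1, sum_const, nsmul_eq_mul, card_univ]
      have e2 : ∀ i, (∑ c : Ω, XP c * X i c) / q ^ ((M (H i) univ : ℝ) + δ') ≤
          T * q ^ M P univ * (C i / q ^ δ') := by
        intro i
        rw [div_le_iff₀ (by positivity)]
        refine (hup i).trans (le_of_eq ?_)
        rw [Real.rpow_add hq0, Real.rpow_natCast, pow_add]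
        field_simp
      have e3 : ∑ i, (∑ c : Ω, XP c * X i c) / q ^ ((M (H i) univ : ℝ) + δ') ≤
          T * q ^ M P univ / 2 := by
        refine (sum_le_sum fun i _ => e2 i).trans ?_
        rw [← mul_sum, ← sum_div]
        have e4 : (∑ i, C i) / q ^ δ' ≤ 1 / 2 := by
          rw [div_le_iff₀ (by positivity)]
          linarith
        have e5 : 0 ≤ T * q ^ M P univ := by positivity
        nlinarith
      change T * (q ^ M P univ / 2) ≤ _
      linarith
    obtain ⟨c, _, hc⟩ := exists_le_of_sum_le (s := (univ : Finset Ω)) univ_nonempty hsum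
    exact ⟨c, hc⟩
  obtain ⟨c, hc⟩ := hex
  refine ⟨c, ?_⟩
  have hpow : 0 < q ^ M P univ / 2 := by positivity
  have hfac : 0 < 1 - ∑ i, X i c / q ^ ((M (H i) univ : ℝ) + δ') := by
    by_contra hn
    have := mul_nonneg (hXP0 c) (neg_nonneg.2 (not_lt.1 hn))
    nlinarith
  have hsum0 : 0 ≤ ∑ i, X i c / q ^ ((M (H i) univ : ℝ) + δ') :=
    sum_nonneg fun i _ => div_nonneg (hX0 i c) (by positivity)
  have hXPge : q ^ M P univ / 2 ≤ XP c := by
    have := hXP0 c
    nlinarith
  have hXi : ∀ i, X i c ≤ q ^ ((M (H i) univ : ℝ) + δ') := by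
    intro i
    have h1 : X i c / q ^ ((M (H i) univ : ℝ) + δ') ≤ ∑ i, X i c / q ^ ((M (H i) univ : ℝ) + δ') :=
      single_le_sum (f := fun i => X i c / q ^ ((M (H i) univ : ℝ) + δ'))
        (fun i _ => div_nonneg (hX0 i c) (by positivity)) (mem_univ i)
    have h2 : X i c / q ^ ((M (H i) univ : ℝ) + δ') ≤ 1 := by linarith
    rwa [div_le_one (by positivity)] at h2
  have hδle : δ' ≤ δ := by
    rw [hδ', div_le_iff₀ (by positivity)]
    nlinarith
  intro i
  refine ⟨?_, (hXi i).trans (Real.rpow_le_rpow_of_exponent_le hq1 (by linarith))⟩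
  have h1 : XP c = X i c * ∏ j ∈ univ.erase i, X j c := by
    rw [hXPprod]
    exact (mul_prod_erase univ (fun j => X j c) (mem_univ i)).symm
  have h2 : ∏ j ∈ univ.erase i, X j c ≤ ∏ j ∈ univ.erase i, q ^ ((M (H j) univ : ℝ) + δ') :=
    prod_le_prod (fun j _ => hX0 j c) fun j _ => hXi j
  have h3 : ∏ j ∈ univ.erase i, q ^ ((M (H j) univ : ℝ) + δ') =
      q ^ (∑ j ∈ univ.erase i, ((M (H j) univ : ℝ) + δ')) := by
    rw [← Real.rpow_sum_of_pos hq0]
  have hsumj : ∑ j ∈ univ.erase i, ((M (H j) univ : ℝ) + δ') =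
      M P univ - M (H i) univ + (l - 1) * δ' := by
    have e1 := add_sum_erase univ (fun j => (M (H j) univ : ℝ) + δ') (mem_univ i)
    have e2 : (M P univ : ℝ) = ∑ j, (M (H j) univ : ℝ) := by
      rw [hP2]; push_cast; rfl
    have e0 : ∑ j, ((M (H j) univ : ℝ) + δ') = M P univ + l * δ' := by
      rw [sum_add_distrib, sum_const, nsmul_eq_mul, card_univ, ← e2]
    rw [e0] at e1
    linarith
  rw [h3, hsumj] at h2
  have h4 : q ^ M P univ / 2 ≤ X i c * q ^ ((M P univ : ℝ) - M (H i) univ + (l - 1) * δ') := by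
    refine hXPge.trans ?_
    rw [h1]
    exact mul_le_mul_of_nonneg_left h2 (hX0 i c)
  have h5 : (2 : ℝ) ≤ q ^ δ' := by linarith
  change q ^ ((M (H i) univ : ℝ) - δ) ≤ X i c
  have h6 : q ^ ((M (H i) univ : ℝ) - δ) * q ^ ((M P univ : ℝ) - M (H i) univ + (l - 1) * δ') * 2 ≤
      q ^ M P univ := by
    calc q ^ ((M (H i) univ : ℝ) - δ) * q ^ ((M P univ : ℝ) - M (H i) univ + (l - 1) * δ') * 2
        ≤ q ^ ((M (H i) univ : ℝ) - δ) * q ^ ((M P univ : ℝ) - M (H i) univ + (l - 1) * δ') * q ^ δ' :=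
          mul_le_mul_of_nonneg_left h5 (by positivity)
      _ = q ^ ((M P univ : ℝ) + (l * δ' - δ)) := by
          rw [← Real.rpow_add hq0, ← Real.rpow_add hq0]
          congr 1
          ring
      _ ≤ q ^ ((M P univ : ℝ)) := by
          refine Real.rpow_le_rpow_of_exponent_le hq1 ?_
          have : l * δ' ≤ δ := by
            rw [hδ', mul_div_assoc', div_le_iff₀ (by positivity)]
            nlinarith
          linarith
      _ = q ^ M P univ := Real.rpow_natCast _ _
  have h7 : 0 < q ^ ((M P univ : ℝ) - M (H i) univ + (l - 1) * δ') := by positivity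
  have h8 : q ^ ((M (H i) univ : ℝ) - δ) * q ^ ((M P univ : ℝ) - M (H i) univ + (l - 1) * δ') ≤
      X i c * q ^ ((M P univ : ℝ) - M (H i) univ + (l - 1) * δ') := by linarith
  exact le_of_mul_le_mul_right h8 h7

end Pool.Agent.R667.QL
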