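import Pool.Agent.R667.QL.Inj

/-!
# Weighted counts of maps into a partly random graph
-/

open Finset Classical

namespace Pool.Agent.R667.QL

theorem sum_le_of_inj {α β : Type*} (s : Finset α) (t : Finset β) (f : α → β)
    (hf : ∀ a ∈ s, f a ∈ t) (hinj : ∀ a ∈ s, ∀ b ∈ s, f a = f b → a = b) (u : α → ℝ) (v : β → ℝ)
    (huv : ∀ a ∈ s, u a ≤ v (f a)) (hv : ∀ b ∈ t, 0 ≤ v b) : ∑ a ∈ s, u a ≤ ∑ b ∈ t, v b := by
  calc ∑ a ∈ s, u a ≤ ∑ a ∈ s, v (f a) := sum_le_sum huv
    _ = ∑ b ∈ s.image f, v b := (sum_image fun a ha b hb h => hinj a ha b hb h).symm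
    _ ≤ ∑ b ∈ t, v b := sum_le_sum_of_subset_of_nonneg
        (fun b hb => by
          rw [mem_image] at hb
          obtain ⟨a, ha, rfl⟩ := hb
          exact hf a ha) fun b hb _ => hv b hb

/-- Disjoint union. -/
abbrev bsum (A B : BG) : BG where
  V := A.V ⊕ B.V
  cls := Sum.elim A.cls B.cls
  adj := Sum.LiftRel A.adj B.adj
  symm := by
    rintro (x | x) (y | y) h
    · exact Sum.LiftRel.inl (A.symm _ _ (Sum.liftRel_inl_inl.1 h))
    · exact (Sum.not_liftRel_inl_inr h).elim
    · exact (Sum.not_liftRel_inr_inl h).elim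
    · exact Sum.LiftRel.inr (B.symm _ _ (Sum.liftRel_inr_inr.1 h))
  bip := by
    rintro (x | x) (y | y) h
    · exact A.bip _ _ (Sum.liftRel_inl_inl.1 h)
    · exact (Sum.not_liftRel_inl_inr h).elim
    · exact (Sum.not_liftRel_inr_inl h).elim
    · exact B.bip _ _ (Sum.liftRel_inr_inr.1 h)

section

variable (Z : BG) (q : ℕ)

/-- The vertices of the host graph. -/
abbrev W : Type := (Bool × Fin (q ^ 2)) ⊕ Z.V

/-- The class of a vertex of the host graph. -/
abbrev cW : W Z q → Bool := Sum.elim Prod.fst Z.cls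

/-- Edge probabilities. -/
noncomputable def pr : W Z q → W Z q → ℝ
  | Sum.inl _, Sum.inl _ => 1 / q
  | Sum.inr z, Sum.inr z' => if Z.adj z z' then 1 else 0
  | _, _ => 0

variable {Z q}

theorem pr_nonneg (w w' : W Z q) : 0 ≤ pr Z q w w' := by
  rcases w with w | w <;> rcases w' with w' | w' <;> simp only [pr]
  · positivity
  · exact le_rfl
  · exact le_rfl
  · split_ifs <;> norm_num

variable (z0 : Z.V)

/-- Injective class-preserving maps from `S`. -/
noncomputable def Inj (H : BG) (S : Finset H.V) : Finset (H.V → W Z q) :=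
  univ.filter fun φ => (∀ x, x ∉ S → φ x = Sum.inr z0) ∧ (∀ x ∈ S, cW Z q (φ x) = H.cls x) ∧
    ∀ x ∈ S, ∀ y ∈ S, φ x = φ y → x = y

theorem mem_Inj {H : BG} {S : Finset H.V} {φ : H.V → W Z q} : φ ∈ Inj z0 H S ↔
    (∀ x, x ∉ S → φ x = Sum.inr z0) ∧ (∀ x ∈ S, cW Z q (φ x) = H.cls x) ∧
    ∀ x ∈ S, ∀ y ∈ S, φ x = φ y → x = y := by
  simp [Inj]

noncomputable def wt (H : BG) (S : Finset H.V) (φ : H.V → W Z q) : ℝ :=
  ∏ e ∈ Ed H S, pr Z q (φ e.1) (φ e.2)

theorem wt_nonneg (H : BG) (S : Finset H.V) (φ : H.V → W Z q) : 0 ≤ wt H S φ :=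
  prod_nonneg fun _ _ => pr_nonneg _ _

variable (q) in
noncomputable def J (H : BG) (S : Finset H.V) : ℝ := ∑ φ ∈ Inj (q := q) z0 H S, wt H S φ

theorem J_nonneg (H : BG) (S : Finset H.V) : 0 ≤ J q z0 H S := sum_nonneg fun _ _ => wt_nonneg _ _ _

theorem J_split {H : BG} {S T : Finset H.V} (hd : Disjoint S T) (h : NoEdge H S T) :
    J q z0 H (S ∪ T) ≤ J q z0 H S * J q z0 H T := by
  unfold J
  rw [sum_mul_sum, ← sum_product']
  refine sum_le_of_inj _ _ (fun φ => (fun x => if x ∈ S then φ x else Sum.inr z0,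
    fun x => if x ∈ T then φ x else Sum.inr z0)) ?_ ?_ _ _ ?_ ?_
  · intro φ hφ
    rw [mem_Inj] at hφ
    rw [mem_product, mem_Inj, mem_Inj]
    refine ⟨⟨fun x hx => if_neg hx, fun x hx => ?_, fun x hx y hy hxy => ?_⟩,
      ⟨fun x hx => if_neg hx, fun x hx => ?_, fun x hx y hy hxy => ?_⟩⟩
    · change cW Z q (if x ∈ S then φ x else Sum.inr z0) = _
      rw [if_pos hx]
      exact hφ.2.1 x (mem_union_left _ hx)
    · change (if x ∈ S then φ x else Sum.inr z0) = (if y ∈ S then φ y else Sum.inr z0) at hxy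
      rw [if_pos hx, if_pos hy] at hxy
      exact hφ.2.2 x (mem_union_left _ hx) y (mem_union_left _ hy) hxy
    · change cW Z q (if x ∈ T then φ x else Sum.inr z0) = _
      rw [if_pos hx]
      exact hφ.2.1 x (mem_union_right _ hx)
    · change (if x ∈ T then φ x else Sum.inr z0) = (if y ∈ T then φ y else Sum.inr z0) at hxy
      rw [if_pos hx, if_pos hy] at hxy
      exact hφ.2.2 x (mem_union_right _ hx) y (mem_union_right _ hy) hxy
  · intro φ hφ ψ hψ hφψ
    rw [mem_Inj] at hφ hψ
    funext x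
    by_cases hx : x ∈ S
    · have := congrFun (congrArg Prod.fst hφψ) x
      change (if x ∈ S then φ x else Sum.inr z0) = (if x ∈ S then ψ x else Sum.inr z0) at this
      rwa [if_pos hx, if_pos hx] at this
    · by_cases hx' : x ∈ T
      · have := congrFun (congrArg Prod.snd hφψ) x
        change (if x ∈ T then φ x else Sum.inr z0) = (if x ∈ T then ψ x else Sum.inr z0) at this
        rwa [if_pos hx', if_pos hx'] at this
      · rw [hφ.1 x (by simp [hx, hx']), hψ.1 x (by simp [hx, hx'])]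
  · intro φ _
    refine le_of_eq ?_
    unfold wt
    rw [Ed_union h, prod_union]
    · congr 1
      · refine prod_congr rfl fun e he => ?_
        rw [mem_Ed] at he
        simp only [if_pos he.1, if_pos he.2.1]
      · refine prod_congr rfl fun e he => ?_
        rw [mem_Ed] at he
        simp only [if_pos he.1, if_pos he.2.1]
    · rw [disjoint_left]
      intro e he he'
      rw [mem_Ed] at he he'
      exact disjoint_left.1 hd he.1 he'.1
  · rintro ⟨a, b⟩ _
    exact mul_nonneg (wt_nonneg _ _ _) (wt_nonneg _ _ _)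

theorem two_card_le (H : BG) (S : Finset H.V) : 2 * S.card ≤ M H S + (Ed H S).card := by
  have h := M_ge (H := H) (S := S) (id : H.V → H.V) (fun x _ y _ hxy => by rw [show x = y from hxy])
  simpa using h

/-- Maps into the random part. -/
theorem J_inl {s : ℕ} (hs : 0 < s) (H : BG) (S : Finset H.V) :
    ∑ φ ∈ (Inj (q := s ^ 5) z0 H S).filter (fun φ => ∀ x ∈ S, (φ x).isLeft = true), wt H S φ ≤
      ((s : ℝ) ^ 5) ^ M H S := by
  have hs' : (1 : ℝ) ≤ s := by exact_mod_cast hs
  have hq : (1 : ℝ) ≤ (s : ℝ) ^ 5 := one_le_pow₀ hs'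
  have hwt : ∀ φ ∈ (Inj (q := s ^ 5) z0 H S).filter (fun φ => ∀ x ∈ S, (φ x).isLeft = true),
      wt H S φ = (1 / (s : ℝ) ^ 5) ^ (Ed H S).card := by
    intro φ hφ
    rw [mem_filter] at hφ
    unfold wt
    rw [← prod_const]
    refine prod_congr rfl fun e he => ?_
    rw [mem_Ed] at he
    obtain ⟨a, ha⟩ := Sum.isLeft_iff.1 (hφ.2 _ he.1)
    obtain ⟨b, hb⟩ := Sum.isLeft_iff.1 (hφ.2 _ he.2.1)
    rw [ha, hb]
    simp only [pr]
    push_cast
    rfl
  rw [sum_congr rfl hwt, sum_const, nsmul_eq_mul]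
  have hcard : ((Inj (q := s ^ 5) z0 H S).filter (fun φ => ∀ x ∈ S, (φ x).isLeft = true)).card ≤
      ((s ^ 5) ^ 2) ^ S.card := by
    have hsub : (Inj (q := s ^ 5) z0 H S).filter (fun φ => ∀ x ∈ S, (φ x).isLeft = true) ⊆
        Fintype.piFinset (fun x : H.V => if x ∈ S then
          (univ : Finset (Fin ((s ^ 5) ^ 2))).image (fun i => (Sum.inl (H.cls x, i) : W Z (s ^ 5)))
          else {Sum.inr z0}) := by
      intro φ hφ
      rw [mem_filter, mem_Inj] at hφ
      rw [Fintype.mem_piFinset]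
      intro x
      by_cases hx : x ∈ S
      · rw [if_pos hx]
        obtain ⟨a, ha⟩ := Sum.isLeft_iff.1 (hφ.2 _ hx)
        have h2 := hφ.1.2.1 x hx
        rw [ha] at h2 ⊢
        rw [mem_image]
        refine ⟨a.2, mem_univ _, ?_⟩
        rw [← h2]
        rfl
      · rw [if_neg hx, hφ.1.1 x hx]
        exact mem_singleton_self _
    refine (card_le_card hsub).trans ?_
    rw [Fintype.card_piFinset]
    have h3 : ∀ x : H.V, (if x ∈ S then
          (univ : Finset (Fin ((s ^ 5) ^ 2))).image (fun i => (Sum.inl (H.cls x, i) : W Z (s ^ 5)))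
          else {Sum.inr z0}).card ≤ if x ∈ S then (s ^ 5) ^ 2 else 1 := by
      intro x
      split_ifs
      · exact card_image_le.trans (by simp)
      · simp
    refine (prod_le_prod' fun x _ => h3 x).trans ?_
    rw [prod_ite_mem, univ_inter, prod_const]
  calc (((Inj (q := s ^ 5) z0 H S).filter (fun φ => ∀ x ∈ S, (φ x).isLeft = true)).card : ℝ) *
        (1 / (s : ℝ) ^ 5) ^ (Ed H S).card
      ≤ (((s : ℝ) ^ 5) ^ 2) ^ S.card * (1 / (s : ℝ) ^ 5) ^ (Ed H S).card :=
        mul_le_mul_of_nonneg_right (by exact_mod_cast hcard) (by positivity)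
    _ = ((s : ℝ) ^ 5) ^ (2 * S.card) / ((s : ℝ) ^ 5) ^ (Ed H S).card := by
        rw [← pow_mul, one_div, inv_pow, div_eq_mul_inv]
    _ ≤ ((s : ℝ) ^ 5) ^ M H S := by
        rw [div_le_iff₀ (by positivity), ← pow_add]
        exact pow_le_pow_right₀ hq (two_card_le H S)

/-- Maps into the deterministic part. -/
theorem J_inr {s : ℕ} (hs : 0 < s) (hZ : Good Z (s ^ 3))
    (hcl : ∀ b, (univ.filter fun z : Z.V => Z.cls z = b).card ≤ 2 * (s ^ 5) ^ 2)
    (H : BG) {S : Finset H.V} (hS : S.Nonempty) (hc : Connd H S) :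
    ∑ φ ∈ (Inj (q := s ^ 5) z0 H S).filter (fun φ => ∀ x ∈ S, (φ x).isRight = true), wt H S φ ≤
      2 ^ S.card * ((s : ℝ) ^ 5) ^ M H S := by
  have hs' : (1 : ℝ) ≤ s := by exact_mod_cast hs
  have hq : (1 : ℝ) ≤ (s : ℝ) ^ 5 := one_le_pow₀ hs'
  let g : (H.V → W Z (s ^ 5)) → (H.V → Z.V) := fun φ x => Sum.elim (fun _ => z0) id (φ x)
  have hg : ∀ φ ∈ (Inj (q := s ^ 5) z0 H S).filter (fun φ => ∀ x ∈ S, (φ x).isRight = true),
      ∀ x, φ x = Sum.inr (g φ x) := by
    intro φ hφ x
    rw [mem_filter, mem_Inj] at hφ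
    by_cases hx : x ∈ S
    · obtain ⟨a, ha⟩ := Sum.isRight_iff.1 (hφ.2 _ hx)
      simp only [g, ha, Sum.elim_inr, id]
    · simp only [g, hφ.1.1 x hx, Sum.elim_inr, id]
  have hginj : ∀ φ ∈ (Inj (q := s ^ 5) z0 H S).filter (fun φ => ∀ x ∈ S, (φ x).isRight = true),
      ∀ ψ ∈ (Inj (q := s ^ 5) z0 H S).filter (fun φ => ∀ x ∈ S, (φ x).isRight = true),
      g φ = g ψ → φ = ψ := by
    intro φ hφ ψ hψ h
    funext x
    rw [hg φ hφ x, hg ψ hψ x, h]
  have hwt01 : ∀ φ ∈ (Inj (q := s ^ 5) z0 H S).filter (fun φ => ∀ x ∈ S, (φ x).isRight = true),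
      wt H S φ ≤ 1 := by
    intro φ hφ
    unfold wt
    refine prod_le_one (fun _ _ => pr_nonneg _ _) fun e _ => ?_
    rw [hg φ hφ e.1, hg φ hφ e.2]
    simp only [pr]
    split_ifs <;> norm_num
  by_cases h1 : S.card = 1
  · obtain ⟨x, rfl⟩ := card_eq_one.1 h1
    have hcard : ((Inj (q := s ^ 5) z0 H {x}).filter
        (fun φ => ∀ x' ∈ ({x} : Finset H.V), (φ x').isRight = true)).card ≤ 2 * (s ^ 5) ^ 2 := by
      refine le_trans (card_le_card_of_injOn (fun φ => g φ x) ?_ ?_) (hcl (H.cls x))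
      · intro φ hφ
        have h2 := hg φ hφ x
        rw [mem_coe, mem_filter, mem_Inj] at hφ
        have h3 := hφ.1.2.1 x (mem_singleton_self _)
        rw [h2] at h3
        simp only [coe_filter, mem_univ, true_and]
        exact h3
      · intro φ hφ ψ hψ h
        refine hginj φ hφ ψ hψ (funext fun y => ?_)
        by_cases hy : y = x
        · rw [hy]; exact h
        · have hy' : y ∉ ({x} : Finset H.V) := by simpa using hy
          rw [mem_coe, mem_filter, mem_Inj] at hφ hψ
          simp only [g, hφ.1.1 y hy', hψ.1.1 y hy']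
    have hM : 2 ≤ M H {x} := by
      have := M_low (H := H) (S := {x}) ⟨x, mem_singleton_self _⟩
      rw [card_singleton] at this
      omega
    calc ∑ φ ∈ (Inj (q := s ^ 5) z0 H {x}).filter
          (fun φ => ∀ x' ∈ ({x} : Finset H.V), (φ x').isRight = true), wt H {x} φ
        ≤ ∑ φ ∈ (Inj (q := s ^ 5) z0 H {x}).filter
          (fun φ => ∀ x' ∈ ({x} : Finset H.V), (φ x').isRight = true), (1 : ℝ) := sum_le_sum hwt01
      _ = (((Inj (q := s ^ 5) z0 H {x}).filter
        (fun φ => ∀ x' ∈ ({x} : Finset H.V), (φ x').isRight = true)).card : ℝ) := by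
          rw [sum_const, nsmul_eq_mul, mul_one]
      _ ≤ 2 * ((s : ℝ) ^ 5) ^ 2 := by exact_mod_cast hcard
      _ ≤ 2 ^ ({x} : Finset H.V).card * ((s : ℝ) ^ 5) ^ M H {x} := by
          rw [card_singleton, pow_one]
          exact mul_le_mul_of_nonneg_left (pow_le_pow_right₀ hq hM) (by norm_num)
  · have h2 : ∀ x ∈ S, ∃ y ∈ S, H.adj x y := by
      intro x hx
      obtain ⟨y, hy, hyx, z, hz, hzy⟩ := hc {x} (by simpa using hx) ⟨x, mem_singleton_self _⟩
        (fun h => h1 (by rw [← h, card_singleton]))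
      rw [mem_singleton] at hz
      exact ⟨y, hy, hz ▸ hzy⟩
    have hbound : ∑ φ ∈ (Inj (q := s ^ 5) z0 H S).filter (fun φ => ∀ x ∈ S, (φ x).isRight = true),
        wt H S φ ≤ ∑ ψ ∈ IZ H Z z0 S, (1 : ℝ) := by
      rw [← sum_filter_add_sum_filter_not ((Inj (q := s ^ 5) z0 H S).filter
        (fun φ => ∀ x ∈ S, (φ x).isRight = true))
        (fun φ => ∀ x ∈ S, ∀ y ∈ S, H.adj x y → Z.adj (g φ x) (g φ y))]
      have hz : ∑ φ ∈ ((Inj (q := s ^ 5) z0 H S).filter
        (fun φ => ∀ x ∈ S, (φ x).isRight = true)).filter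
        (fun φ => ¬ ∀ x ∈ S, ∀ y ∈ S, H.adj x y → Z.adj (g φ x) (g φ y)), wt H S φ = 0 := by
        refine sum_eq_zero fun φ hφ => ?_
        rw [mem_filter] at hφ
        obtain ⟨hφ1, hφ2⟩ := hφ
        push Not at hφ2
        obtain ⟨x, hx, y, hy, hxy, hn⟩ := hφ2
        unfold wt
        by_cases hcx : H.cls x = true
        · refine prod_eq_zero (i := (x, y)) (mem_Ed.2 ⟨hx, hy, hcx, hxy⟩) ?_
          rw [hg φ hφ1 x, hg φ hφ1 y]
          simp only [pr]
          rw [if_neg hn]
        · have hcy : H.cls y = true := by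
            have := H.bip _ _ hxy
            cases h : H.cls y
            · rw [h] at this
              cases h' : H.cls x
              · exact absurd h' this
              · exact absurd h' hcx
            · rfl
          refine prod_eq_zero (i := (y, x)) (mem_Ed.2 ⟨hy, hx, hcy, H.symm _ _ hxy⟩) ?_
          rw [hg φ hφ1 x, hg φ hφ1 y]
          simp only [pr]
          rw [if_neg fun h => hn (Z.symm _ _ h)]
      rw [hz, add_zero]
      refine sum_le_of_inj _ _ g ?_ ?_ _ _ ?_ ?_
      · intro φ hφ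
        rw [mem_filter] at hφ
        obtain ⟨hφ1, hφ2⟩ := hφ
        have hg' := hg φ hφ1
        rw [mem_filter, mem_Inj] at hφ1
        simp only [IZ, mem_filter, mem_univ, true_and]
        refine ⟨fun x hx => ?_, fun x hx => ⟨?_, ?_⟩, hφ2, fun x hx y hy hxy => ?_⟩
        · simp only [g, hφ1.1.1 x hx, Sum.elim_inr, id]
        · have h3 := hφ1.1.2.1 x hx
          rw [hg' x] at h3
          exact h3
        · obtain ⟨y, hy, hxy⟩ := h2 x hx
          exact ⟨_, hφ2 x hx y hy hxy⟩
        · exact hφ1.1.2.2 x hx y hy (by rw [hg' x, hg' y, hxy])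
      · intro φ hφ ψ hψ h
        exact hginj φ (mem_filter.1 hφ).1 ψ (mem_filter.1 hψ).1 h
      · intro φ hφ
        exact hwt01 φ (mem_filter.1 hφ).1
      · intro _ _; exact zero_le_one
    refine hbound.trans ?_
    rw [sum_const, nsmul_eq_mul, mul_one]
    exact_mod_cast IZ_connected (w0 := z0) hs hZ hS hc

theorem J_le {s : ℕ} (hs : 0 < s) (hZ : Good Z (s ^ 3))
    (hcl : ∀ b, (univ.filter fun z : Z.V => Z.cls z = b).card ≤ 2 * (s ^ 5) ^ 2)
    (H : BG) (S : Finset H.V) : J (s ^ 5) z0 H S ≤ 4 ^ S.card * ((s : ℝ) ^ 5) ^ M H S := by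
  have hs' : (1 : ℝ) ≤ s := by exact_mod_cast hs
  have hq : (1 : ℝ) ≤ (s : ℝ) ^ 5 := one_le_pow₀ hs'
  induction hn : S.card using Nat.strong_induction_on generalizing S with
  | _ n ih =>
    rcases S.eq_empty_or_nonempty with hS | hS
    · subst hS
      have h1 : Ed H ∅ = ∅ := by ext p; simp [Ed]
      have h2 : Inj (q := s ^ 5) z0 H ∅ = {fun _ => Sum.inr z0} := by
        ext φ
        rw [mem_Inj, mem_singleton]
        constructor
        · intro h; funext x; exact h.1 x (notMem_empty _)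
        · rintro rfl; simp
      unfold J wt
      rw [h2, sum_singleton, h1, prod_empty]
      have h3 : (1 : ℝ) ≤ 4 ^ n := one_le_pow₀ (by norm_num)
      have h4 : (1 : ℝ) ≤ ((s : ℝ) ^ 5) ^ M H ∅ := one_le_pow₀ hq
      nlinarith
    · by_cases hc : Connd H S
      · have hsplit : J (s ^ 5) z0 H S ≤
            ∑ φ ∈ (Inj (q := s ^ 5) z0 H S).filter (fun φ => ∀ x ∈ S, (φ x).isLeft = true), wt H S φ +
            ∑ φ ∈ (Inj (q := s ^ 5) z0 H S).filter (fun φ => ∀ x ∈ S, (φ x).isRight = true),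
              wt H S φ := by
          unfold J
          rw [← sum_filter_add_sum_filter_not (Inj (q := s ^ 5) z0 H S)
            (fun φ => ∀ x ∈ S, (φ x).isLeft = true)]
          refine add_le_add le_rfl ?_
          rw [← sum_filter_add_sum_filter_not ((Inj (q := s ^ 5) z0 H S).filter
            (fun φ => ¬ ∀ x ∈ S, (φ x).isLeft = true)) (fun φ => ∀ x ∈ S, (φ x).isRight = true)]
          have hz : ∑ φ ∈ ((Inj (q := s ^ 5) z0 H S).filter
              (fun φ => ¬ ∀ x ∈ S, (φ x).isLeft = true)).filter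
              (fun φ => ¬ ∀ x ∈ S, (φ x).isRight = true), wt H S φ = 0 := by
            refine sum_eq_zero fun φ hφ => ?_
            rw [mem_filter, mem_filter] at hφ
            obtain ⟨⟨_, h1⟩, h2⟩ := hφ
            push Not at h1 h2
            obtain ⟨u, hu, hu2⟩ := h1
            obtain ⟨v, hv, hv2⟩ := h2
            obtain ⟨x, hx, hxT, y, hy, hyx⟩ := hc (S.filter fun x => (φ x).isLeft = true)
              (filter_subset _ _) ⟨v, mem_filter.2 ⟨hv, by
                cases h : φ v
                · rfl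
                · rw [h] at hv2; exact absurd rfl hv2⟩⟩
              (fun h => hu2 ((mem_filter.1 (show u ∈ S.filter fun x => (φ x).isLeft = true by
                rw [h]; exact hu)).2))
            rw [mem_filter] at hxT hy
            have hx' : (φ x).isLeft ≠ true := fun h => hxT ⟨hx, h⟩
            unfold wt
            obtain ⟨a, ha⟩ := Sum.isLeft_iff.1 hy.2
            obtain ⟨b, hb⟩ : ∃ b, φ x = Sum.inr b := by
              cases h : φ x with
              | inl a => rw [h] at hx'; exact absurd rfl hx'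
              | inr b => exact ⟨b, rfl⟩
            by_cases hcx : H.cls x = true
            · refine prod_eq_zero (i := (x, y)) (mem_Ed.2 ⟨hx, hy.1, hcx, H.symm _ _ hyx⟩) ?_
              rw [ha, hb]
              simp only [pr]
            · have hcy : H.cls y = true := by
                have := H.bip _ _ hyx
                cases h : H.cls y
                · rw [h] at this
                  cases h' : H.cls x
                  · exact absurd h'.symm this
                  · exact absurd h' hcx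
                · rfl
              refine prod_eq_zero (i := (y, x)) (mem_Ed.2 ⟨hy.1, hx, hcy, hyx⟩) ?_
              rw [ha, hb]
              simp only [pr]
          rw [hz, add_zero]
          refine sum_le_sum_of_subset_of_nonneg ?_ fun _ _ _ => wt_nonneg _ _ _
          intro φ hφ
          rw [mem_filter, mem_filter] at hφ
          exact mem_filter.2 ⟨hφ.1.1, hφ.2⟩
        refine hsplit.trans ?_
        refine (add_le_add (J_inl z0 hs H S) (J_inr z0 hs hZ hcl H hS hc)).trans ?_
        rw [← hn]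
        have h1 : 1 ≤ S.card := card_pos.2 hS
        have h2 : (1 : ℝ) + 2 ^ S.card ≤ 4 ^ S.card := by
          have h3 : (2 : ℝ) ≤ 2 ^ S.card := by
            calc (2 : ℝ) = 2 ^ 1 := by norm_num
              _ ≤ 2 ^ S.card := pow_le_pow_right₀ (by norm_num) h1
          have h4 : (4 : ℝ) ^ S.card = 2 ^ S.card * 2 ^ S.card := by
            rw [← mul_pow]; norm_num
          rw [h4]
          nlinarith
        have h5 : (0 : ℝ) ≤ ((s : ℝ) ^ 5) ^ M H S := by positivity
        nlinarith
      · unfold Connd at hc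
        push Not at hc
        obtain ⟨T, hT, hTne, hTS, hTn⟩ := hc
        have hdisj : Disjoint T (S \ T) := disjoint_sdiff
        have hun : T ∪ S \ T = S := union_sdiff_of_subset hT
        have hno : NoEdge H T (S \ T) := by
          intro x hx y hy hxy
          rw [mem_sdiff] at hy
          exact hTn y hy.1 hy.2 x hx hxy
        have hlt : T.card < S.card := card_lt_card (hT.ssubset_of_ne hTS)
        have hpos : 0 < T.card := card_pos.2 hTne
        have hsum : T.card + (S \ T).card = S.card := by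
          rw [← card_union_of_disjoint hdisj, hun]
        have h1 := ih T.card (by omega) T rfl
        have h2 := ih (S \ T).card (by omega) (S \ T) rfl
        have h3 := J_split (q := s ^ 5) z0 hdisj hno
        rw [hun] at h3
        have h4 := M_add hdisj hno
        rw [hun] at h4
        calc J (s ^ 5) z0 H S ≤ J (s ^ 5) z0 H T * J (s ^ 5) z0 H (S \ T) := h3
          _ ≤ (4 ^ T.card * ((s : ℝ) ^ 5) ^ M H T) * (4 ^ (S \ T).card * ((s : ℝ) ^ 5) ^ M H (S \ T)) :=
              mul_le_mul h1 h2 (J_nonneg _ _ _) (by positivity)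
          _ = 4 ^ n * ((s : ℝ) ^ 5) ^ (M H T + M H (S \ T)) := by
              rw [← hn, ← hsum, pow_add, pow_add]; ring
          _ ≤ 4 ^ n * ((s : ℝ) ^ 5) ^ M H S :=
              mul_le_mul_of_nonneg_left (pow_le_pow_right₀ hq h4) (by positivity)

end

end Pool.Agent.R667.QL
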